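import Pool.Agent.TH966.KS.Kn

/-!
# Control along sparse lengths: general sequences
-/

set_option autoImplicit false

namespace TH966.KO

open Finset Filter Topology TH966.KS

variable {y : ℕ → ℝ} {D θ : ℝ} {k0 : ℕ}

/-- the general form: fixed constants -/
theorem main_fix (hK : Kes y D θ k0) (hy : ∀ k, 0 ≤ y k) (hD : 0 ≤ D) (hθ0 : 0 < θ) (hθ1 : θ < 1)
    (hpos : ∀ᶠ k : ℕ in atTop, 0 < y k) (E : ℕ → ℝ) (hE1 : ∀ n, 1 ≤ E n) (hEm : Monotone E)
    (hE2 : ∀ n, 1 ≤ n → E (2 * n) ≤ 2 * E n) (hEn : Tendsto (fun n : ℕ => E n / n) atTop (𝓝 0))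
    (u : ℕ → ℕ) (hu : Tendsto u atTop atTop) (τ δ β c : ℝ) (hτ : 0 < τ) (hδ : 0 < δ)
    (hgap : ∀ᶠ j : ℕ in atTop, (u (j + 1) : ℝ) ≤ u j + δ * √(u j * E (u j)))
    (hyu : ∀ᶠ j : ℕ in atTop,
      |Real.log (y (u j)) - (β * Real.log (2 * u j) + c)| ≤ τ * E (u j)) :
    ∀ᶠ n : ℕ in atTop, 0 < y n ∧
      |Real.log (y n) - (β * Real.log (2 * n) + c)| ≤ (9 * τ + 384 * D * δ ^ 2) * E n := by
  refine step (B := |β|) (S := Set.range u) (ψ := fun n => β * Real.log (2 * n) + c) hK
    hy hD hθ0 hθ1 (fun n _ => hE1 n) hEm hE2 hEn hτ hδ (abs_nonneg _)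
    (fun m n hm hmn => log_diff β c m n hm hmn) (psi_zero β c)
    (gaps u hu E hEm (fun n => by linarith [hE1 n]) δ hδ hgap) ?_
  have h2 := along u (fun k => |Real.log (y k) - (β * Real.log (2 * k) + c)| ≤ τ * E k) hyu
  filter_upwards [hpos, h2] with k h3 h4 hk
  exact ⟨h3, h4 hk⟩

/-- the asymptotic form along sparse lengths -/
theorem form (hK : Kes y D θ k0) (hy : ∀ k, 0 ≤ y k) (hD : 0 ≤ D) (hθ0 : 0 < θ) (hθ1 : θ < 1)
    (hpos : ∀ᶠ k : ℕ in atTop, 0 < y k) (u : ℕ → ℕ) (hu : Tendsto u atTop atTop)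
    (hgap : Tendsto (fun j : ℕ => ((u (j + 1) : ℝ) - u j) / √(u j)) atTop (𝓝 0))
    (A β : ℝ) (hA : 0 < A)
    (h : Tendsto (fun j : ℕ => y (u j) / (2 * u j : ℝ) ^ β) atTop (𝓝 A)) :
    Tendsto (fun k : ℕ => y k / (2 * k : ℝ) ^ β) atTop (𝓝 A) := by
  -- the logarithms along `u`
  have hlog : Tendsto (fun j : ℕ => Real.log (y (u j)) -
      (β * Real.log (2 * u j) + Real.log A)) atTop (𝓝 0) := by
    have h2 : Tendsto (fun j : ℕ => Real.log (y (u j) / (2 * u j : ℝ) ^ β / A)) atTop
        (𝓝 (Real.log (A / A))) := by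
      refine Tendsto.log (h.div_const A) ?_
      rw [div_self hA.ne']; norm_num
    rw [div_self hA.ne', Real.log_one] at h2
    refine h2.congr' ?_
    filter_upwards [hu.eventually hpos, hu.eventually_gt_atTop 0] with j h3 h4
    exact log_form h4 h3 hA
  have hall : Tendsto (fun k : ℕ => Real.log (y k) -
      (β * Real.log (2 * k) + Real.log A)) atTop (𝓝 0) := by
    rw [Metric.tendsto_atTop']
    intro ε hε
    have hδ : 0 < √(ε / (4 * (384 * D + 1))) := Real.sqrt_pos.2 (by positivity)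
    have h3 := main_fix hK hy hD hθ0 hθ1 hpos (fun _ => 1) (fun _ => le_rfl) monotone_const
      (fun _ _ => by norm_num) E_one u hu (ε / 36) (√(ε / (4 * (384 * D + 1)))) β (Real.log A) (by positivity) hδ (by
        filter_upwards [hgap.eventually_lt_const hδ, hu.eventually_gt_atTop 0] with j h4 h5
        have h6 : (0 : ℝ) < √(u j : ℝ) := Real.sqrt_pos.2 (by exact_mod_cast h5)
        rw [div_lt_iff₀ h6] at h4
        rw [mul_one]
        linarith) (by
        have h4 := hlog.abs
        rw [abs_zero] at h4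
        filter_upwards [h4.eventually_lt_const (show 0 < ε / 36 by positivity)] with j h5
        rw [mul_one]
        exact h5.le)
    obtain ⟨N, hN⟩ := eventually_atTop.1 h3
    refine ⟨N, fun n hn => ?_⟩
    rw [dist_zero_right, Real.norm_eq_abs]
    refine (hN n hn.le).2.trans_lt ?_
    rw [Real.sq_sqrt (by positivity), mul_one]
    have h7 : 384 * D * (ε / (4 * (384 * D + 1))) ≤ ε / 4 := by
      rw [mul_div_assoc', div_le_div_iff₀ (by positivity) (by norm_num)]
      nlinarith
    linarith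
  have h8 : Tendsto (fun k : ℕ => Real.exp (Real.log (y k) -
      (β * Real.log (2 * k) + Real.log A)) * A) atTop (𝓝 (Real.exp 0 * A)) :=
    ((Real.continuous_exp.tendsto 0).comp hall).mul_const A
  rw [Real.exp_zero, one_mul] at h8
  refine h8.congr' ?_
  filter_upwards [hpos, eventually_gt_atTop 0] with k h9 h10
  have hk0 : (0 : ℝ) < 2 * k := by
    have : (0 : ℝ) < k := by exact_mod_cast h10
    linarith
  rw [← log_form h10 h9 hA, Real.exp_log (div_pos (div_pos h9 (Real.rpow_pos_of_pos hk0 _)) hA),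
    div_mul_cancel₀ _ hA.ne']

/-- the exponent along sparse lengths -/
theorem expo (hK : Kes y D θ k0) (hy : ∀ k, 0 ≤ y k) (hD : 0 ≤ D) (hθ0 : 0 < θ) (hθ1 : θ < 1)
    (hpos : ∀ᶠ k : ℕ in atTop, 0 < y k) (u : ℕ → ℕ) (hu : Tendsto u atTop atTop)
    (hgap : Tendsto (fun j : ℕ => ((u (j + 1) : ℝ) - u j) / √(u j * Real.log (u j))) atTop (𝓝 0))
    (β : ℝ)
    (h : Tendsto (fun j : ℕ => Real.log (y (u j)) / Real.log (2 * u j)) atTop (𝓝 β)) :
    Tendsto (fun k : ℕ => Real.log (y k) / Real.log (2 * k)) atTop (𝓝 β) := by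
  have hlog0 : ∀ n : ℕ, 0 ≤ Real.log (n : ℝ) := fun n => Real.log_natCast_nonneg n
  have hlog2 : Real.log 2 ≤ 1 := by
    have := Real.log_two_lt_d9
    linarith
  have hlog2' : 1 / 2 ≤ Real.log 2 := by
    have := Real.log_two_gt_d9
    linarith
  have hE1 : ∀ n : ℕ, (1 : ℝ) ≤ 1 + Real.log n := fun n => by linarith [hlog0 n]
  have hEm : Monotone (fun n : ℕ => 1 + Real.log (n : ℝ)) := by
    intro m n hmn
    rcases Nat.eq_zero_or_pos m with h0 | h0
    · subst h0
      simp only [Nat.cast_zero, Real.log_zero, add_zero]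
      exact hE1 n
    · have h1 : (0 : ℝ) < m := by exact_mod_cast h0
      have h2 : (m : ℝ) ≤ n := by exact_mod_cast hmn
      have := Real.log_le_log h1 h2
      simp only
      linarith
  have hE2 : ∀ n : ℕ, 1 ≤ n → 1 + Real.log ((2 * n : ℕ) : ℝ) ≤ 2 * (1 + Real.log n) := by
    intro n hn
    have h1 : (0 : ℝ) < n := by exact_mod_cast (show 0 < n by omega)
    push_cast
    rw [Real.log_mul (by norm_num) h1.ne']
    linarith [hlog0 n]
  have hEn : Tendsto (fun n : ℕ => (1 + Real.log (n : ℝ)) / n) atTop (𝓝 0) := by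
    have h1 := E_one.add log_over
    rw [add_zero] at h1
    refine h1.congr fun n => ?_
    rw [add_div]
  rw [Metric.tendsto_atTop']
  intro ε hε
  have hδ : 0 < √(ε / (8 * (384 * D + 1))) := Real.sqrt_pos.2 (by positivity)
  have h3 := main_fix hK hy hD hθ0 hθ1 hpos (fun n => 1 + Real.log n) hE1 hEm hE2 hEn u hu (ε / 72)
    (√(ε / (8 * (384 * D + 1)))) β 0 (by positivity) hδ (by
      filter_upwards [hgap.eventually_lt_const hδ, hu.eventually_gt_atTop 1] with j h4 h5
      have h51 : (1 : ℝ) < u j := by exact_mod_cast h5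
      have h52 : 0 < Real.log (u j : ℝ) := Real.log_pos h51
      have h6 : (0 : ℝ) < √(u j * Real.log (u j)) := Real.sqrt_pos.2 (by positivity)
      rw [div_lt_iff₀ h6] at h4
      have h7 : √(u j * Real.log (u j)) ≤ √(u j * (1 + Real.log (u j))) := by
        refine Real.sqrt_le_sqrt (mul_le_mul_of_nonneg_left (by linarith) (by positivity))
      have h8 := mul_le_mul_of_nonneg_left h7 hδ.le
      linarith) (by
      filter_upwards [Metric.tendsto_nhds.1 h (ε / 72) (by positivity),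
        hu.eventually_gt_atTop 1] with j h4 h5
      have h51 : (1 : ℝ) < u j := by exact_mod_cast h5
      have h52 : 0 < Real.log (2 * u j : ℝ) := Real.log_pos (by linarith)
      rw [Real.dist_eq] at h4
      have h6 : Real.log (y (u j)) - (β * Real.log (2 * u j) + 0) =
          (Real.log (y (u j)) / Real.log (2 * u j) - β) * Real.log (2 * u j) := by
        field_simp
        ring
      rw [h6, abs_mul, abs_of_pos h52]
      have h7 : Real.log (2 * u j : ℝ) ≤ 1 + Real.log (u j) := by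
        rw [Real.log_mul (by norm_num) (by linarith)]
        linarith
      exact mul_le_mul h4.le h7 h52.le (by positivity))
  obtain ⟨N, hN⟩ := eventually_atTop.1 h3
  refine ⟨N + 1, fun n hn => ?_⟩
  have hn1 : (1 : ℝ) < n := by exact_mod_cast (show 1 < n by omega)
  have hln : 0 < Real.log (2 * n : ℝ) := Real.log_pos (by linarith)
  have h4 := (hN n (by omega)).2
  rw [Real.dist_eq]
  have h6 : Real.log (y n) / Real.log (2 * n) - β =
      (Real.log (y n) - (β * Real.log (2 * n) + 0)) / Real.log (2 * n) := by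
    field_simp
    ring
  rw [h6, abs_div, abs_of_pos hln, div_lt_iff₀ hln]
  refine h4.trans_lt ?_
  rw [Real.sq_sqrt (by positivity)]
  have h7 : 384 * D * (ε / (8 * (384 * D + 1))) ≤ ε / 8 := by
    rw [mul_div_assoc', div_le_div_iff₀ (by positivity) (by norm_num)]
    nlinarith
  have h8 : 1 + Real.log (n : ℝ) ≤ 2 * Real.log (2 * n) := by
    rw [Real.log_mul (by norm_num) (by linarith)]
    linarith [hlog0 n]
  have h9 : (9 * (ε / 72) + 384 * D * (ε / (8 * (384 * D + 1)))) * (1 + Real.log n) ≤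
      (ε / 4) * (2 * Real.log (2 * n)) :=
    mul_le_mul (by linarith) h8 (by linarith [hE1 n]) (by positivity)
  refine h9.trans_lt ?_
  nlinarith

end TH966.KO
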