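import Pool.Agent.TH966.KO.Defs
import Pool.Agent.H246KN.FIVE
import Pool.Agent.H246KN.All
import Pool.Agent.H46R2.K3.MU
import Pool.Agent.H46R2.K3.EQ

/-!
# The two representations of self-avoiding walks on `ℤ³`; bounds for the connective constant
-/

set_option autoImplicit false

namespace TH966.KO

open Finset Filter Topology KN
open scoped Classical

namespace BR

abbrev St : Type := Pool.Agent.H46R2.K3.St
abbrev V3 : Type := Pool.Agent.H46R2.K3.V

/-- letters -/
def φ : Dir → St
  | .xp => (0, true)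
  | .xm => (0, false)
  | .yp => (1, true)
  | .ym => (1, false)
  | .zp => (2, true)
  | .zm => (2, false)

/-- letters -/
def ψ : St → Dir
  | (0, true) => .xp
  | (0, false) => .xm
  | (1, true) => .yp
  | (1, false) => .ym
  | (2, true) => .zp
  | (2, false) => .zm

theorem ψφ (d : Dir) : ψ (φ d) = d := by cases d <;> rfl

theorem φψ (s : St) : φ (ψ s) = s := by
  obtain ⟨i, b⟩ := s
  fin_cases i <;> cases b <;> rfl

/-- points -/
def E (p : Z3) : V3 := ![p.1, p.2.1, p.2.2]

theorem E_inj {p q : Z3} (h : E p = E q) : p = q := by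
  have h0 := congrFun h 0
  have h1 := congrFun h 1
  have h2 := congrFun h 2
  simp [E] at h0 h1 h2
  exact Prod.ext h0 (Prod.ext h1 h2)

theorem E_add (p q : Z3) : E (p + q) = E p + E q := by
  funext i
  fin_cases i <;> simp [E]

theorem E_zero : E 0 = 0 := by
  funext i
  fin_cases i <;> simp [E]

theorem E_vec (d : Dir) : E (vec d) = Pool.Agent.H46R2.K3.vec (φ d) := by
  funext i
  cases d <;> fin_cases i <;> simp [E, vec, φ, Pool.Agent.H46R2.K3.vec]

theorem E_pos (w : List Dir) :
    E (pos w) = ((w.map φ).map Pool.Agent.H46R2.K3.vec).sum := by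
  induction w with
  | nil => simp [pos, E_zero]
  | cons d w ih =>
    rw [pos, E_add, ih, E_vec]
    simp [add_comm]

/-- the word in the other representation -/
def T (w : List Dir) : List St := (w.map φ).reverse

theorem T_length (w : List Dir) : (T w).length = w.length := by simp [T]

theorem T_pos (w : List Dir) (k : ℕ) :
    Pool.Agent.H46R2.K3.pos (T w) k = E (pos (w.drop (w.length - k))) := by
  unfold Pool.Agent.H46R2.K3.pos T
  rw [List.take_reverse, List.map_reverse, List.sum_reverse, E_pos, List.length_map,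
    List.map_drop, List.map_drop, List.map_drop]

theorem T_inj {w w' : List Dir} (h : T w = T w') : w = w' := by
  unfold T at h
  rw [List.reverse_inj] at h
  have h2 := congrArg (List.map ψ) h
  simpa [Function.comp_def, ψφ] using h2

theorem T_surj (v : List St) : ∃ w, T w = v := by
  refine ⟨(v.reverse).map ψ, ?_⟩
  unfold T
  simp [Function.comp_def, φψ]

theorem saw_inj {w : List Dir} (hn : SAW w) {k k' : ℕ} (hk : k ≤ w.length)
    (hk' : k' ≤ w.length) (h : pos (w.drop k) = pos (w.drop k')) : k = k' := by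
  have hl : (path w).length = w.length + 1 := path_length w
  have h1 := path_getElem w k (by omega)
  have h2 := path_getElem w k' (by omega)
  exact (List.Nodup.getElem_inj_iff hn (hi := by omega) (hj := by omega)).1
    (h1.trans (h.trans h2.symm))

theorem saw_iff (w : List Dir) : SAW w ↔ Pool.Agent.H46R2.K3.Saw (T w) := by
  constructor
  · intro h i j hij hj he
    rw [T_length] at hj
    rw [T_pos, T_pos] at he
    have := saw_inj h (by omega) (by omega) (E_inj he)
    omega
  · intro h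
    unfold SAW
    rw [List.nodup_iff_getElem?_ne_getElem?]
    intro i j hij hj
    rw [path_length] at hj
    rw [List.getElem?_eq_getElem (by rw [path_length]; omega),
      List.getElem?_eq_getElem (by rw [path_length]; omega)]
    intro he
    rw [Option.some.injEq, path_getElem, path_getElem] at he
    refine h (w.length - j) (w.length - i) (by omega) (by rw [T_length]; omega) ?_
    rw [T_pos, T_pos]
    have e1 : w.length - (w.length - j) = j := by omega
    have e2 : w.length - (w.length - i) = i := by omega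
    rw [e1, e2, he]

theorem c_eq (n : ℕ) : Pool.Agent.H46R2.K3.c n = ((W n).filter SAW).card := by
  unfold Pool.Agent.H46R2.K3.c
  symm
  refine Finset.card_bij (fun w _ => T w) ?_ ?_ ?_
  · intro w hw
    rw [mem_filter, mem_W] at hw
    rw [mem_filter, Pool.Agent.H46R2.K3.P.eq_mem_W, T_length]
    exact ⟨hw.1, (saw_iff w).1 hw.2⟩
  · intro w _ w' _ h
    exact T_inj h
  · intro v hv
    obtain ⟨w, rfl⟩ := T_surj v
    rw [mem_filter, Pool.Agent.H46R2.K3.P.eq_mem_W, T_length] at hv
    exact ⟨w, by rw [mem_filter, mem_W]; exact ⟨hv.1, (saw_iff w).2 hv.2⟩, rfl⟩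

end BR

open BR

/-- the number of self-avoiding walks -/
noncomputable def c (n : ℕ) : ℕ := Pool.Agent.H46R2.K3.c n

/-- the connective constant -/
noncomputable def μ : ℝ := Pool.Agent.H46R2.K3.mu

theorem a_eq (n : ℕ) (hn : 4 ≤ n) : a (fun _ => True) n = c n := by
  unfold c
  rw [c_eq]
  unfold a
  congr 1
  ext w
  rw [mem_K, mem_filter, mem_W]
  unfold SAP
  constructor
  · exact fun h => ⟨h.1, h.2.1.2⟩
  · exact fun h => ⟨h.1, ⟨by omega, h.2⟩, trivial⟩

theorem a_le (n : ℕ) : a (fun _ => True) n ≤ c n := by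
  unfold c
  rw [c_eq]
  unfold a
  apply card_le_card
  intro w hw
  rw [mem_K] at hw
  rw [mem_filter, mem_W]
  exact ⟨hw.1, hw.2.1.2⟩

theorem nb_of_saw {w : List Dir} (h : SAW w) : KN.FIVE.NB w := by
  unfold KN.FIVE.NB
  rw [List.isChain_iff_getElem]
  intro i hi he
  have h1 : pos (w.drop i) = pos (w.drop (i + 2)) := by
    rw [pos_drop w i (by omega), pos_drop w (i + 1) hi, List.getD_eq_getElem _ _ hi,
      List.getD_eq_getElem _ _ (by omega : i < w.length), he, vec_neg]
    abel
  have := saw_inj h (by omega) (by omega) h1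
  omega

theorem c_five (n : ℕ) : c (n + 1) ≤ 6 * 5 ^ n := by
  refine le_trans ?_ (KN.FIVE.card_SS n)
  unfold c
  rw [c_eq]
  unfold KN.FIVE.SS
  apply card_le_card
  intro w hw
  rw [mem_filter] at hw ⊢
  exact ⟨hw.1, nb_of_saw hw.2⟩

theorem tend : Tendsto (fun n : ℕ => (c n : ℝ) ^ (1 / (n : ℝ))) atTop (𝓝 μ) :=
  Pool.Agent.H46R2.K3.P.tendsto_c

theorem mu_pow (n : ℕ) : μ ^ n ≤ (c n : ℝ) := Pool.Agent.H46R2.K3.P.mu_pow_le n

theorem mu_one : 1 ≤ μ := Pool.Agent.H46R2.K3.P.one_le_mu

theorem c_pos (n : ℕ) : (0 : ℝ) < c n :=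
  lt_of_lt_of_le (pow_pos (by linarith [mu_one]) n) (mu_pow n)

theorem c_add (m n : ℕ) : c (m + n) ≤ c m * c n := Pool.Agent.H46R2.K3.P.mu_c_add m n

/-- a sequence with growth rate `x` below the growth rate `μ` -/
theorem growth (τ : ℝ) (hτ : 0 < τ) : ∃ C : ℝ, 0 < C ∧ ∀ n : ℕ, (c n : ℝ) ≤ C * ((1 + τ) * μ) ^ n := by
  have hμ : 0 < μ := by linarith [mu_one]
  have h1 : μ < (1 + τ) * μ := by nlinarith
  obtain ⟨N, hN⟩ := eventually_atTop.1 (tend.eventually_lt_const h1)
  have hM : 1 ≤ (1 + τ) * μ := by nlinarith [mu_one]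
  refine ⟨1 + ∑ n ∈ range (N + 1), (c n : ℝ), by positivity, fun n => ?_⟩
  have hS : 0 ≤ ∑ n ∈ range (N + 1), (c n : ℝ) := by positivity
  rcases lt_or_ge n (N + 1) with h | h
  · have h2 : (c n : ℝ) ≤ ∑ n ∈ range (N + 1), (c n : ℝ) :=
      single_le_sum (f := fun n => (c n : ℝ)) (fun _ _ => Nat.cast_nonneg _) (mem_range.2 h)
    calc (c n : ℝ) ≤ (1 + ∑ n ∈ range (N + 1), (c n : ℝ)) * 1 := by linarith
      _ ≤ _ := mul_le_mul_of_nonneg_left (one_le_pow₀ hM) (by positivity)
  · have h2 := hN n (by omega)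
    have hn0 : (0 : ℝ) < n := by exact_mod_cast (show 0 < n by omega)
    have h3 : (c n : ℝ) ≤ ((1 + τ) * μ) ^ n := by
      have h4 : ((c n : ℝ) ^ (1 / (n : ℝ))) ^ n ≤ ((1 + τ) * μ) ^ n :=
        pow_le_pow_left₀ (by positivity) h2.le n
      have h5 : ((c n : ℝ) ^ (1 / (n : ℝ))) ^ n = c n := by
        rw [← Real.rpow_natCast, ← Real.rpow_mul (by positivity), one_div_mul_cancel hn0.ne',
          Real.rpow_one]
      rwa [h5] at h4
    calc (c n : ℝ) ≤ 1 * ((1 + τ) * μ) ^ n := by rw [one_mul]; exact h3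
      _ ≤ _ := mul_le_mul_of_nonneg_right (by linarith) (by positivity)

/-- comparison of growth rates -/
theorem le_of_pow (x C : ℝ) (N : ℕ) (hN : 0 < N) (_hx : 0 < x) (y : ℝ) (hy : 0 < y)
    (h : ∀ k : ℕ, x ^ (N * k) ≤ C * y ^ (N * k)) : x ≤ y := by
  by_contra hcon
  have h1 : y < x := not_le.1 hcon
  have h2 : 1 < (x / y) ^ N := one_lt_pow₀ ((one_lt_div hy).2 h1) hN.ne'
  obtain ⟨k, hk⟩ := pow_unbounded_of_one_lt C h2
  have h3 := h k
  have h4 : ((x / y) ^ N) ^ k = x ^ (N * k) / y ^ (N * k) := by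
    rw [← pow_mul, div_pow]
  rw [h4, lt_div_iff₀ (by positivity)] at hk
  linarith

theorem mu_le : μ ≤ 5 := by
  refine le_of_pow μ 6 1 one_pos (by linarith [mu_one]) 5 (by norm_num) fun k => ?_
  rw [one_mul]
  rcases k with _ | k
  · norm_num
  · have h1 := (mu_pow (k + 1)).trans (show (c (k + 1) : ℝ) ≤ ((6 * 5 ^ k : ℕ) : ℝ) by
      exact_mod_cast c_five k)
    push_cast at h1
    refine h1.trans ?_
    rw [pow_succ]
    have : (0 : ℝ) < 5 ^ k := by positivity
    linarith

theorem tail_saw {w : List Dir} (hw : KN.SAP w) : SAW w.tail := by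
  obtain ⟨h1, _, h3⟩ := hw
  cases w with
  | nil => simp at h1
  | cons d u => exact h3

/-- closed walks and open walks -/
theorem closed_le (n : ℕ) : KN.a U (n + 1) ≤ c n := by
  unfold c
  rw [c_eq]
  unfold KN.a
  refine Finset.card_le_card_of_injOn List.tail ?_ ?_
  · intro w hw
    have hw' := KN.mem_K.1 (Finset.mem_coe.1 hw)
    rw [Finset.mem_coe, mem_filter, mem_W]
    refine ⟨?_, tail_saw hw'.2.1⟩
    rw [List.length_tail, hw'.1]
    rfl
  · intro w hw w' hw' h
    exact KN.POOR.tail_inj (KN.mem_K.1 (Finset.mem_coe.1 hw)).2.1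
      (KN.mem_K.1 (Finset.mem_coe.1 hw')).2.1 h

theorem mu_ge : 77 / 20 ≤ μ := by
  obtain ⟨N, r, hN, h⟩ := c_low
  have hμ : 0 < μ := by linarith [mu_one]
  by_contra hcon
  have h1 : μ < 77 / 20 := not_le.1 hcon
  obtain ⟨τ, hτ, hτ2⟩ : ∃ τ : ℝ, 0 < τ ∧ (1 + τ) * μ < 77 / 20 := by
    refine ⟨((77 / 20) / μ - 1) / 2, ?_, ?_⟩
    · have : 1 < (77 / 20) / μ := (one_lt_div hμ).2 h1
      linarith
    · have h2 : (1 + ((77 / 20) / μ - 1) / 2) * μ = (77 / 20 + μ) / 2 := by
        field_simp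
        ring
      rw [h2]; linarith
  obtain ⟨C, hC0, hC⟩ := growth τ hτ
  set x : ℝ := (1 + τ) * μ with hx
  have hx0 : 0 < x := by positivity
  have hx1 : 1 ≤ x := by
    rw [hx]
    nlinarith [mu_one]
  have h5 : (77 / 20 : ℝ) ≤ x := by
    refine le_of_pow (77 / 20) (1 + C * x ^ r) N hN (by norm_num) x hx0 fun k => ?_
    have h2 := h k
    rcases Nat.eq_zero_or_pos (N * k + r) with h0 | h0
    · have h3 : N * k = 0 := by omega
      rw [h3, pow_zero, pow_zero]
      have : 0 ≤ C * x ^ r := by positivity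
      linarith
    · obtain ⟨m, hm⟩ : ∃ m, N * k + r = m + 1 := ⟨N * k + r - 1, by omega⟩
      rw [hm] at h2
      have h3 : (KN.a U (m + 1) : ℝ) ≤ c m := by exact_mod_cast closed_le m
      have h4 := hC m
      have h6 : x ^ m ≤ x ^ (N * k + r) := pow_le_pow_right₀ hx1 (by omega)
      calc (77 / 20 : ℝ) ^ (N * k) ≤ C * x ^ m := h2.trans (h3.trans h4)
        _ ≤ C * x ^ (N * k + r) := mul_le_mul_of_nonneg_left h6 hC0.le
        _ = (C * x ^ r) * x ^ (N * k) := by rw [pow_add]; ring
        _ ≤ _ := by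
          refine mul_le_mul_of_nonneg_right ?_ (by positivity)
          linarith
  linarith

end TH966.KO
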