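import Pool.Agent.TH966.KO.Defs

/-! TASK DOWN (helper580 for helper246): `j` removals. -/

set_option autoImplicit false

namespace TH966.KO

open Finset KN
open scoped Classical

namespace DOWN

/-- one step -/
theorem step (hrem : S_rem) (hch : S_change) (Q : List Dir → Prop) (hQ : Inv Q) (m β F : ℕ)
    (hm : 4 ≤ m) (B : Finset (List Dir)) (hB : B ⊆ K Q (m + 2))
    (hw : ∀ w ∈ B, β ≤ bu w ∧ fr w ≤ F) :
    ∃ B' : Finset (List Dir), B' ⊆ K Q m ∧ (∀ w ∈ B', β ≤ bu w + 5 ∧ fr w ≤ F + 28) ∧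
      B.card * β ≤ B'.card * (F + 28) := by
  set B' : Finset (List Dir) := B.biUnion (fun w => (bumps w).image (fun j => rem w j))
    with hB'
  have hmem : ∀ w', w' ∈ B' ↔ ∃ w ∈ B, ∃ j, bump w j ∧ rem w j = w' := by
    intro w'
    rw [hB', Finset.mem_biUnion]
    constructor
    · rintro ⟨w, hwB, hw'⟩
      rw [Finset.mem_image] at hw'
      obtain ⟨j, hq, he⟩ := hw'
      exact ⟨w, hwB, j, mem_bumps.mp hq, he⟩
    · rintro ⟨w, hwB, j, hs, he⟩
      refine ⟨w, hwB, ?_⟩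
      rw [Finset.mem_image]
      exact ⟨j, mem_bumps.mpr hs, he⟩
  have hR : ∀ w ∈ B, ∀ j, bump w j →
      SAP (rem w j) ∧ (rem w j).length + 2 = w.length ∧ site (rem w j) j (w.getD (j + 2) .xp) ∧
        ins (rem w j) j (w.getD (j + 2) .xp) = w := by
    intro w hwB j hj
    have h1 := mem_K.mp (hB hwB)
    exact hrem w j h1.2.1 (by omega) hj
  have hst : ∀ w' ∈ B', β ≤ bu w' + 5 ∧ fr w' ≤ F + 28 := by
    intro w' hw'
    obtain ⟨w, hwB, j, hs, rfl⟩ := (hmem w').mp hw'
    obtain ⟨h2, h3, h4, h5⟩ := hR w hwB j hs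
    have h6 := hch (rem w j) j _ h2 h4
    rw [h5] at h6
    have h7 := hw w hwB
    omega
  refine ⟨B', ?_, hst, ?_⟩
  · intro w' hw'
    obtain ⟨w, hwB, j, hs, rfl⟩ := (hmem w').mp hw'
    have h1 := mem_K.mp (hB hwB)
    obtain ⟨h2, h3, h4, h5⟩ := hR w hwB j hs
    rw [mem_K]
    refine ⟨by omega, h2, ?_⟩
    rw [hQ (rem w j) h2 j _ h4, h5]
    exact h1.2.2
  · calc B.card * β = ∑ _w ∈ B, β := by rw [Finset.sum_const, smul_eq_mul]
      _ ≤ ∑ w ∈ B, (bumps w).card := Finset.sum_le_sum (fun w h => (hw w h).1)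
      _ = (B.sigma (fun w => bumps w)).card := by rw [Finset.card_sigma]
      _ ≤ (B'.sigma (fun w => sites w)).card := by
          apply Finset.card_le_card_of_injOn
            (fun x => ⟨rem x.1 x.2, (x.2, x.1.getD (x.2 + 2) .xp)⟩)
          · rintro ⟨w, j⟩ hx
            rw [Finset.mem_coe, Finset.mem_sigma] at hx
            rw [Finset.mem_coe, Finset.mem_sigma]
            have hs := mem_bumps.mp hx.2
            obtain ⟨h2, h3, h4, h5⟩ := hR w hx.1 j hs
            exact ⟨(hmem _).mpr ⟨w, hx.1, j, hs, rfl⟩, mem_sites.mpr h4⟩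
          · rintro ⟨w, j⟩ hx ⟨w', j'⟩ hx' he
            rw [Finset.mem_coe, Finset.mem_sigma] at hx hx'
            obtain ⟨-, -, -, h5⟩ := hR w hx.1 j (mem_bumps.mp hx.2)
            obtain ⟨-, -, -, h5'⟩ := hR w' hx'.1 j' (mem_bumps.mp hx'.2)
            simp only [Sigma.mk.injEq, heq_eq_eq, Prod.mk.injEq] at he
            obtain ⟨he1, he2, he3⟩ := he
            subst he2
            have e1 : w = w' := by rw [← h5, ← h5', he1, he3]
            rw [e1]
      _ = ∑ w ∈ B', fr w := by rw [Finset.card_sigma]; rfl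
      _ ≤ ∑ _w ∈ B', (F + 28) := Finset.sum_le_sum (fun w h => (hst w h).2)
      _ = B'.card * (F + 28) := by rw [Finset.sum_const, smul_eq_mul]

theorem main (hrem : S_rem) (hch : S_change) (Q : List Dir → Prop) (hQ : Inv Q) (F0 β0 : ℕ) :
    ∀ (j m β F : ℕ) (B : Finset (List Dir)), 4 ≤ m → β0 + 5 * j ≤ β → F + 28 * j ≤ F0 →
      B ⊆ K Q (m + 2 * j) →
      (∀ w ∈ B, β ≤ bu w ∧ fr w ≤ F) → B.card * β0 ^ j ≤ a Q m * F0 ^ j := by
  intro j
  induction j with
  | zero =>
    intro m β F B _ _ _ hB _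
    simp only [pow_zero, mul_one]
    exact Finset.card_le_card hB
  | succ j ih =>
    intro m β F B hm hβ hF hB hw
    obtain ⟨B', hB'1, hB'2, hB'3⟩ := step hrem hch Q hQ (m + 2 * j) β F (by omega) B
      (by rw [show m + 2 * j + 2 = m + 2 * (j + 1) by ring]; exact hB) hw
    have h1 := ih m (β - 5) (F + 28) B' hm (by omega) (by omega) hB'1 (fun w h => by
      have := hB'2 w h
      omega)
    have h2 : B.card * β0 ≤ B'.card * F0 :=
      (Nat.mul_le_mul_left _ (by omega)).trans (hB'3.trans (Nat.mul_le_mul_left _ (by omega)))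
    calc B.card * β0 ^ (j + 1) = (B.card * β0) * β0 ^ j := by ring
      _ ≤ (B'.card * F0) * β0 ^ j := Nat.mul_le_mul_right _ h2
      _ = (B'.card * β0 ^ j) * F0 := by ring
      _ ≤ (a Q m * F0 ^ j) * F0 := Nat.mul_le_mul_right _ h1
      _ = a Q m * F0 ^ (j + 1) := by ring

end DOWN

/-- `S_down` from removal and change; the hypothesis `S_ins` is not needed -/
theorem S_down_proof (hrem : S_rem) (hch : S_change) : S_down := by
  intro Q hQ n β F j B hn hβ hB hw
  have h := DOWN.main hrem hch Q hQ (F + 28 * j) (β - 5 * j) j (n - 2 * j) β F B (by omega)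
    (by omega) le_rfl (by rw [show n - 2 * j + 2 * j = n by omega]; exact hB) hw
  have h' : ((B.card * (β - 5 * j) ^ j : ℕ) : ℝ) ≤
      ((a Q (n - 2 * j) * (F + 28 * j) ^ j : ℕ) : ℝ) := by exact_mod_cast h
  push_cast [Nat.cast_sub hβ] at h'
  exact h'

end TH966.KO
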