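import Pool.Agent.H246KN.Stubs

/-!
# Open self-avoiding walks on `ℤ³`: the statements of Kesten's inequality

The definitions of `KN` (words over the six directions, free plaquettes, bumps) are used for open
walks in place of polygons.
-/

set_option autoImplicit false

namespace TH966.KO

open Finset Filter Topology KN
open scoped Classical

/-- self-avoiding words of length at least four -/
def SAP (w : List Dir) : Prop := 4 ≤ w.length ∧ SAW w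

noncomputable section

/-- self-avoiding words of length `n` with the property `Q` -/
def K (Q : List Dir → Prop) (n : ℕ) : Finset (List Dir) :=
  (W n).filter (fun w => SAP w ∧ Q w)

/-- their number -/
def a (Q : List Dir → Prop) (n : ℕ) : ℕ := (K Q n).card

/-- `Q` does not change under local moves -/
def Inv (Q : List Dir → Prop) : Prop :=
  ∀ w, SAP w → ∀ i d, site w i d → (Q w ↔ Q (ins w i d))

theorem mem_K {Q : List Dir → Prop} {n : ℕ} {w : List Dir} :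
    w ∈ K Q n ↔ w.length = n ∧ SAP w ∧ Q w := by
  unfold K; rw [mem_filter, mem_W]

def S_ins : Prop := ∀ (w : List Dir) (i : ℕ) (d : Dir), SAP w → site w i d →
  SAP (ins w i d) ∧ (ins w i d).length = w.length + 2 ∧ bump (ins w i d) i ∧
    rem (ins w i d) i = w ∧ (ins w i d).getD (i + 2) .xp = d

def S_rem : Prop := ∀ (w : List Dir) (j : ℕ), SAP w → 6 ≤ w.length → bump w j →
  SAP (rem w j) ∧ (rem w j).length + 2 = w.length ∧ site (rem w j) j (w.getD (j + 2) .xp) ∧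
    ins (rem w j) j (w.getD (j + 2) .xp) = w

def S_sum : Prop := ∀ Q : List Dir → Prop, Inv Q → ∀ n : ℕ, 4 ≤ n →
  ∀ F : List Dir → List Dir → ℝ,
  ∑ w ∈ K Q n, ∑ q ∈ sites w, F w (ins w q.1 q.2) =
    ∑ w ∈ K Q (n + 2), ∑ j ∈ bumps w, F (rem w j) w

def S_change : Prop := ∀ (w : List Dir) (i : ℕ) (d : Dir), SAP w → site w i d →
  fr w ≤ fr (ins w i d) + 28 ∧ fr (ins w i d) ≤ fr w + 12 ∧
    bu (ins w i d) ≤ bu w + 5 ∧ bu w ≤ bu (ins w i d) + 3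

def S_up : Prop := ∀ Q : List Dir → Prop, Inv Q → ∀ (n β F j : ℕ) (B : Finset (List Dir)),
  4 ≤ n → 28 * j ≤ F → B ⊆ K Q n → (∀ w ∈ B, F ≤ fr w ∧ bu w ≤ β) →
  (B.card : ℝ) * ((F : ℝ) - 28 * j) ^ j ≤ (a Q (n + 2 * j) : ℝ) * ((β : ℝ) + 5 * j) ^ j

def S_down : Prop := ∀ Q : List Dir → Prop, Inv Q → ∀ (n β F j : ℕ) (B : Finset (List Dir)),
  4 + 2 * j ≤ n → 5 * j ≤ β → B ⊆ K Q n → (∀ w ∈ B, β ≤ bu w ∧ fr w ≤ F) →
  (B.card : ℝ) * ((β : ℝ) - 5 * j) ^ j ≤ (a Q (n - 2 * j) : ℝ) * ((F : ℝ) + 28 * j) ^ j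

def S_sat : Prop := ∀ w : List Dir, SAP w → -(40 : ℤ) - fr w ≤ Gx w.tail

def S_poor : Prop := ∃ C : ℝ, ∀ n : ℕ,
  (((W n).filter (fun w => SAP w ∧ 1000 * fr w ≤ n ∧ 1000 * bu w ≤ n)).card : ℝ) ≤
    C * (19 / 5 : ℝ) ^ n

/-- number of words with few free plaquettes or few bumps -/
def bad (Q : List Dir → Prop) (n : ℕ) : ℕ :=
  ((K Q n).filter (fun w => 10 ^ 7 * fr w ≤ n ∨ 10 ^ 7 * bu w ≤ n)).card

def S_pattern : Prop := ∀ Q : List Dir → Prop, Inv Q → ∀ μ : ℝ, 19 / 5 < μ → μ ≤ 5 →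
  (∀ τ : ℝ, 0 < τ → ∃ C : ℝ, ∀ n : ℕ, (a Q n : ℝ) ≤ C * ((1 + τ) * μ) ^ n) →
  ∃ θ C : ℝ, 0 < θ ∧ θ < 1 ∧ ∀ n : ℕ, (bad Q n : ℝ) ≤ C * (θ * μ) ^ n

/-- approximate logarithmic convexity, for both parities -/
def S_convex : Prop := ∀ Q : List Dir → Prop, Inv Q → ∀ μ θ θ₁ C : ℝ, 0 < μ → 0 < θ → θ < θ₁ →
  (∀ n : ℕ, (bad Q n : ℝ) ≤ C * (θ * μ) ^ n) →
  ∃ D : ℝ, 0 ≤ D ∧ ∀ᶠ n : ℕ in atTop, (θ₁ * μ) ^ (n + 2) ≤ (a Q (n + 2) : ℝ) →
    (a Q (n + 2) : ℝ) ^ 2 ≤ a Q n * a Q (n + 4) * (1 + D / n)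

end

end TH966.KO
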