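import Pool.Agent.TH966.KO.Defs
import Pool.Agent.H246KN.INS
import Pool.Agent.H246KN.REM
import Pool.Agent.H246KN.CHG

/-!
# Insertion and removal of a bump for open walks
-/

set_option autoImplicit false

namespace TH966.KO

open Finset Filter Topology KN
open scoped Classical

namespace INS

theorem core (l1 l2 : List Dir) (e d : Dir) (hw : SAP (l1 ++ e :: l2)) (hp : perp d e)
    (h1 : pos l2 + vec d ∉ path (l1 ++ e :: l2))
    (h2 : pos l2 + vec d + vec e ∉ path (l1 ++ e :: l2)) :
    SAP (l1 ++ [neg d, e, d] ++ l2) ∧ (l1 ++ [neg d, e, d] ++ l2).length = (l1 ++ e :: l2).length + 2 ∧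
      bump (l1 ++ [neg d, e, d] ++ l2) l1.length ∧
      rem (l1 ++ [neg d, e, d] ++ l2) l1.length = l1 ++ e :: l2 ∧
      (l1 ++ [neg d, e, d] ++ l2).getD (l1.length + 2) .xp = d := by
  obtain ⟨hlen, hnd⟩ := hw
  have e0 : l1 ++ [neg d, e, d] ++ l2 = l1 ++ (neg d :: e :: d :: l2) := by simp
  have hP : pos (neg d :: e :: d :: l2) = pos (e :: l2) := by
    simp only [pos, vec_neg]
    abel
  have hlen2 : (l1 ++ (neg d :: e :: d :: l2)).length = (l1 ++ e :: l2).length + 2 := by
    simp only [List.length_append, List.length_cons]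
    omega
  have g0 : ∀ k, (l1 ++ (neg d :: e :: d :: l2)).getD (l1.length + k) .xp =
      (neg d :: e :: d :: l2).getD k .xp := by
    intro k
    rw [List.getD_append_right _ _ _ _ (Nat.le_add_right _ _), Nat.add_sub_cancel_left]
  rw [e0]
  refine ⟨⟨?_, ?_⟩, hlen2, ⟨?_, ?_, ?_⟩, ?_, ?_⟩
  · rw [hlen2]
    omega
  · unfold SAW at hnd ⊢
    set c := pos (e :: l2) with hc
    set A := (path l1).dropLast.map (fun p => p + c) with hA
    have p1 : path (l1 ++ e :: l2) = (A ++ [c]) ++ path l2 := by
      rw [path_append]
      simp only [path, List.append_assoc, List.cons_append, List.nil_append]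
      rfl
    have p2 : path (l1 ++ (neg d :: e :: d :: l2)) =
        (A ++ [c]) ++ (pos l2 + vec d + vec e) :: (pos l2 + vec d) :: path l2 := by
      rw [path_append, hP]
      simp only [List.append_assoc, List.cons_append, List.nil_append]
      congr 1
      show pos (neg d :: e :: d :: l2) :: (pos l2 + vec d + vec e) :: (pos l2 + vec d) :: path l2 = _
      rw [hP]
    rw [p1] at hnd h1 h2
    rw [p2]
    have hne : pos l2 + vec d + vec e ≠ pos l2 + vec d := by
      intro h
      exact KN.INS.vec_ne e (by simpa using h)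
    rw [List.perm_middle.nodup_iff, List.nodup_cons]
    refine ⟨?_, ?_⟩
    · intro h
      rw [List.mem_append, List.mem_cons] at h
      rcases h with h | h | h
      · exact h2 (List.mem_append.2 (Or.inl h))
      · exact hne h
      · exact h2 (List.mem_append.2 (Or.inr h))
    · rw [List.perm_middle.nodup_iff, List.nodup_cons]
      exact ⟨h1, hnd⟩
  · rw [hlen2, List.length_append, List.length_cons]
    omega
  · have := g0 0
    rw [Nat.add_zero] at this
    rw [this, g0 2]
    rfl
  · have := g0 0
    rw [Nat.add_zero] at this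
    rw [this, g0 1]
    show ax (neg d) ≠ ax e
    rw [KN.INS.ax_neg]
    exact hp
  · unfold rem
    rw [g0 1]
    have t1 : (l1 ++ (neg d :: e :: d :: l2)).take l1.length = l1 := by
      rw [List.take_left]
    have t2 : (l1 ++ (neg d :: e :: d :: l2)).drop (l1.length + 3) = l2 := by
      rw [List.drop_append]
      simp
    rw [t1, t2]
    simp
  · rw [g0 2]
    rfl

end INS

theorem S_ins_proof : S_ins := by
  intro w i d hw hs
  obtain ⟨hi, hp, h1, h2⟩ := hs
  have hsp := KN.INS.split w i hi
  have hl : (w.take i).length = i := by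
    rw [List.length_take]
    omega
  have h := INS.core (w.take i) (w.drop (i + 1)) (w.getD i .xp) d (by rw [← hsp]; exact hw) hp
    (by rw [← hsp]; exact h1) (by rw [← hsp]; exact h2)
  rw [← hsp, hl] at h
  exact h

namespace REM

theorem main (l1 l2 : List Dir) (d e : Dir) (hperp : perp d e)
    (hw : SAP (l1 ++ neg d :: e :: d :: l2)) (h6 : 6 ≤ (l1 ++ neg d :: e :: d :: l2).length) :
    SAP (l1 ++ e :: l2) ∧ site (l1 ++ e :: l2) l1.length d ∧
      ins (l1 ++ e :: l2) l1.length d = l1 ++ neg d :: e :: d :: l2 := by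
  obtain ⟨-, hn⟩ := hw
  have hQ : pos l2 + vec d + vec e + vec (neg d) = pos l2 + vec e := by rw [vec_neg]; abel
  have hp : path (l1 ++ neg d :: e :: d :: l2) =
      ((path l1).dropLast.map (fun p => p + (pos l2 + vec e)) ++ [pos l2 + vec e]) ++
        (pos l2 + vec d + vec e) :: (pos l2 + vec d) :: path l2 := by
    rw [path_append]
    simp only [path, pos, hQ, List.append_assoc, List.cons_append, List.nil_append]
  have hp' : path (l1 ++ e :: l2) =
      ((path l1).dropLast.map (fun p => p + (pos l2 + vec e)) ++ [pos l2 + vec e]) ++ path l2 := by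
    rw [path_append]
    simp only [path, pos, List.append_assoc, List.cons_append, List.nil_append]
  unfold SAW at hn
  rw [hp, List.perm_middle.nodup_iff, List.nodup_cons, List.perm_middle.nodup_iff,
    List.nodup_cons] at hn
  obtain ⟨k1, k2, k3⟩ := hn
  have k1' : pos l2 + vec d + vec e ∉
      ((path l1).dropLast.map (fun p => p + (pos l2 + vec e)) ++ [pos l2 + vec e]) ++ path l2 := by
    intro h
    refine k1 ?_
    rw [List.mem_append] at h ⊢
    rcases h with h | h
    · exact Or.inl h
    · exact Or.inr (List.mem_cons_of_mem _ h)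
  have hlen : (l1 ++ e :: l2).length + 2 = (l1 ++ neg d :: e :: d :: l2).length := by
    simp only [List.length_append, List.length_cons]; omega
  have hg : (l1 ++ e :: l2).getD l1.length .xp = e := by simp
  have hd : (l1 ++ e :: l2).drop (l1.length + 1) = l2 := by
    rw [List.drop_append]; simp
  refine ⟨⟨by omega, ?_⟩, ⟨?_, ?_, ?_, ?_⟩, ?_⟩
  · unfold SAW
    rw [hp']
    exact k3
  · simp
  · rw [hg]; exact hperp
  · rw [hd, hp']; exact k2
  · rw [hd, hg, hp']; exact k1'
  · unfold ins
    rw [hg, hd]
    simp

end REM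

theorem S_rem_proof : S_rem := by
  intro w j hw h6 hb
  obtain ⟨hj, hn, hp⟩ := hb
  have hs := KN.REM.split3 w j hj
  generalize hl1 : w.take j = l1 at hs
  generalize hl2 : w.drop (j + 3) = l2 at hs
  generalize hd : w.getD (j + 2) .xp = d at *
  generalize he : w.getD (j + 1) .xp = e at *
  rw [hn] at hs hp
  have hlen : l1.length = j := by rw [← hl1, List.length_take]; omega
  have hrem : rem w j = l1 ++ e :: l2 := by
    unfold rem
    rw [hl1, hl2, he]
    simp
  have hperp : perp d e := by
    have : ax (neg d) = ax d := by cases d <;> rfl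
    unfold perp at hp ⊢
    rwa [this] at hp
  have hm := REM.main l1 l2 d e hperp (hs ▸ hw) (hs ▸ h6)
  rw [hlen] at hm
  rw [hrem]
  refine ⟨hm.1, ?_, hm.2.1, ?_⟩
  · rw [hs]; simp only [List.length_append, List.length_cons]; omega
  · rw [hm.2.2]; exact hs.symm

namespace CHG

open KN.CHG

theorem injp (w : List Dir) (hn : SAW w) (k k' : ℕ) (hk : k ≤ w.length)
    (hk' : k' ≤ w.length) (h : pos (w.drop k) = pos (w.drop k')) : k = k' := by
  have hl : (path w).length = w.length + 1 := path_length w
  have h1 := path_getElem w k (by omega)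
  have h2 := path_getElem w k' (by omega)
  exact (List.Nodup.getElem_inj_iff hn (hi := by omega) (hj := by omega)).1
    (h1.trans (h.trans h2.symm))

theorem card_E1 (w : List Dir) (hn : SAW w) (T : Z3) : (E1 w T).card ≤ 6 := by
  have : (E1 w T).card ≤ (univ : Finset Dir).card := by
    apply Finset.card_le_card_of_injOn (fun q => q.2)
    · intro q _; simp
    · intro q hq q' hq' h
      have h1 := Finset.mem_coe.1 hq
      have h2 := Finset.mem_coe.1 hq'
      unfold E1 at h1 h2
      simp only [mem_filter, mem_product, mem_range, mem_univ, and_true] at h1 h2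
      simp only at h
      have h3 : pos (w.drop (q.1 + 1)) = pos (w.drop (q'.1 + 1)) := by
        have := h1.2.trans h2.2.symm
        rw [h] at this
        exact add_right_cancel this
      have h4 := injp w hn _ _ (by omega) (by omega) h3
      exact Prod.ext (by omega) h
  exact this

theorem card_E2 (w : List Dir) (hn : SAW w) (T : Z3) : (E2 w T).card ≤ 6 := by
  have : (E2 w T).card ≤ (univ : Finset Dir).card := by
    apply Finset.card_le_card_of_injOn (fun q => q.2)
    · intro q _; simp
    · intro q hq q' hq' h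
      have h1 := Finset.mem_coe.1 hq
      have h2 := Finset.mem_coe.1 hq'
      unfold E2 at h1 h2
      simp only [mem_filter, mem_product, mem_range, mem_univ, and_true] at h1 h2
      simp only at h
      have h3 : pos (w.drop q.1) = pos (w.drop q'.1) := by
        have := h1.2.trans h2.2.symm
        rw [h] at this
        exact add_right_cancel this
      have h4 := injp w hn _ _ (by omega) (by omega) h3
      exact Prod.ext h4 h
  exact this

variable (l1 l2 : List Dir) (d e : Dir)

theorem fr_down (hw : SAP (l1 ++ e :: l2)) :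
    fr (l1 ++ e :: l2) ≤ fr (l1 ++ neg d :: e :: d :: l2) + 28 := by
  obtain ⟨-, hn⟩ := hw
  set w := l1 ++ e :: l2 with hwdef
  set A := pos l2 + vec d + vec e with hA
  set B := pos l2 + vec d with hB
  have hc := card_le (sites w) (E3 w l1.length ∪ (E1 w A ∪ (E1 w B ∪ (E2 w A ∪ E2 w B))))
    (sites (l1 ++ neg d :: e :: d :: l2)) (fun q => (ph l1.length q.1, q.2)) ?_ ?_
  · have h1 := Finset.card_union_le (E3 w l1.length) (E1 w A ∪ (E1 w B ∪ (E2 w A ∪ E2 w B)))
    have h2 := Finset.card_union_le (E1 w A) (E1 w B ∪ (E2 w A ∪ E2 w B))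
    have h3 := Finset.card_union_le (E1 w B) (E2 w A ∪ E2 w B)
    have h4 := Finset.card_union_le (E2 w A) (E2 w B)
    have h5 := card_E3 w l1.length
    have h6 := card_E1 w hn A
    have h7 := card_E1 w hn B
    have h8 := card_E2 w hn A
    have h9 := card_E2 w hn B
    unfold fr
    omega
  · rintro ⟨k, v⟩ hq hqE
    rw [mem_sites] at hq
    simp only [Finset.mem_union, not_or] at hqE
    obtain ⟨hE3, hE1A, hE1B, hE2A, hE2B⟩ := hqE
    have hki : k ≠ l1.length := by
      rintro rfl
      exact hE3 (mem_E3 hq)
    obtain ⟨q1, q2, q3, q4⟩ := hq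
    rw [mem_sites]
    refine ⟨lt_new l1 l2 d e q1 hki, ?_, ?_, ?_⟩
    · show perp v ((l1 ++ neg d :: e :: d :: l2).getD (ph l1.length k) .xp)
      rw [getD_old l1 l2 d e k hki]; exact q2
    · show pos ((l1 ++ neg d :: e :: d :: l2).drop (ph l1.length k + 1)) + vec v ∉ _
      rw [pos_old l1 l2 d e k hki, mem_new]
      rintro (h | h | h)
      · exact q3 h
      · apply hE1A
        unfold E1
        simp only [mem_filter, mem_product, mem_range, mem_univ, and_true]
        exact ⟨q1, h⟩
      · apply hE1B
        unfold E1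
        simp only [mem_filter, mem_product, mem_range, mem_univ, and_true]
        exact ⟨q1, h⟩
    · show pos ((l1 ++ neg d :: e :: d :: l2).drop (ph l1.length k + 1)) + vec v +
        vec ((l1 ++ neg d :: e :: d :: l2).getD (ph l1.length k) .xp) ∉ _
      rw [pos_old l1 l2 d e k hki, getD_old l1 l2 d e k hki, mem_new]
      have hpd : pos (w.drop k) + vec v = pos (w.drop (k + 1)) + vec v + vec (w.getD k .xp) := by
        rw [pos_drop w k q1]; abel
      rintro (h | h | h)
      · exact q4 h
      · apply hE2A
        unfold E2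
        simp only [mem_filter, mem_product, mem_range, mem_univ, and_true]
        exact ⟨q1, hpd.trans h⟩
      · apply hE2B
        unfold E2
        simp only [mem_filter, mem_product, mem_range, mem_univ, and_true]
        exact ⟨q1, hpd.trans h⟩
  · rintro ⟨k, v⟩ hq hqE ⟨k', v'⟩ hq' hqE' h
    rw [mem_sites] at hq hq'
    simp only [Finset.mem_union, not_or] at hqE hqE'
    have hki : k ≠ l1.length := by
      rintro rfl
      exact hqE.1 (mem_E3 hq)
    have hki' : k' ≠ l1.length := by
      rintro rfl
      exact hqE'.1 (mem_E3 hq')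
    simp only [Prod.mk.injEq] at h
    exact Prod.ext (ph_inj _ _ _ hki hki' h.1) h.2

end CHG

theorem S_change_proof : S_change := by
  intro w i d hw hs
  have hi := hs.1
  have hw1 : w = w.take i ++ w.getD i .xp :: w.drop (i + 1) := by
    conv_lhs => rw [← List.take_append_drop i w, drop_eq_getD_cons w i hi]
  have hlen : (w.take i).length = i := by rw [List.length_take]; omega
  have hins : ins w i d = w.take i ++ neg d :: w.getD i .xp :: d :: w.drop (i + 1) := by
    unfold ins; simp
  have c1 := CHG.fr_down (w.take i) (w.drop (i + 1)) d (w.getD i .xp) (hw1 ▸ hw)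
  have c2 := KN.CHG.fr_up (w.take i) (w.drop (i + 1)) d (w.getD i .xp)
  have c3 := KN.CHG.bu_up (w.take i) (w.drop (i + 1)) d (w.getD i .xp)
  have c4 := KN.CHG.bu_down (w.take i) (w.drop (i + 1)) d (w.getD i .xp)
  rw [← hins, ← hw1] at c1 c2 c3 c4
  exact ⟨c1, c2, c3, c4⟩

end TH966.KO
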