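import Pool.Agent.TH966.KO.Defs

/-!
# PAT: the pattern theorem for invariant classes
-/

set_option autoImplicit false

namespace TH966.KO

open Finset Filter Topology KN
open scoped Classical

namespace PAT

/-- the modulus -/
def N : ℕ := 10 ^ 7

noncomputable def τ : ℝ := 1 / (2 * 10 ^ 7)

noncomputable def θ₁ : ℝ := 1 - 1 / (2 * 10 ^ 7)

theorem τ_pos : 0 < τ := by unfold τ; positivity

theorem θ_pos : 0 < θ₁ := by unfold θ₁; norm_num

theorem θ_lt : θ₁ < 1 := by unfold θ₁; norm_num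

theorem θ_pow : (1 / 2 : ℝ) ≤ θ₁ ^ N := by
  have h := one_add_mul_le_pow (a := -(1 / (2 * 10 ^ 7) : ℝ)) (by norm_num) N
  have e : (1 : ℝ) + -(1 / (2 * 10 ^ 7)) = θ₁ := by unfold θ₁; ring
  rw [e] at h
  refine le_trans (le_of_eq ?_) h
  unfold N
  norm_num

theorem τ_pow : (1 + τ) ^ N ≤ 2 := by
  have h1 : (1 + τ) * θ₁ ≤ 1 := by
    unfold τ θ₁; norm_num
  have h2 : ((1 + τ) * θ₁) ^ N ≤ 1 :=
    pow_le_one₀ (mul_nonneg (by have := τ_pos; linarith) θ_pos.le) h1
  rw [mul_pow] at h2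
  have h3 := θ_pow
  have h4 : 0 < (1 + τ) ^ N := pow_pos (by have := τ_pos; linarith) _
  nlinarith

/-- the two exponential estimates -/
theorem expo (n : ℕ) : (1 + τ) ^ n * (1 / 50 : ℝ) ^ (n / N) ≤ 4 * θ₁ ^ n := by
  have hN : 0 < N := by unfold N; norm_num
  set j := n / N with hj
  set r := n % N with hr
  have hn : n = N * j + r := (Nat.div_add_mod n N).symm
  have hrN : r ≤ N := (Nat.mod_lt n hN).le
  have h1 : (1 : ℝ) ≤ 1 + τ := by have := τ_pos; linarith
  have e1 : (1 + τ) ^ n ≤ 2 ^ j * 2 := by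
    rw [hn, pow_add, pow_mul]
    apply mul_le_mul
    · exact pow_le_pow_left₀ (by positivity) τ_pow j
    · exact le_trans (pow_le_pow_right₀ h1 hrN) τ_pow
    · positivity
    · positivity
  have e2 : (1 / 2 : ℝ) ^ j * (1 / 2) ≤ θ₁ ^ n := by
    rw [hn, pow_add, pow_mul]
    apply mul_le_mul
    · exact pow_le_pow_left₀ (by positivity) θ_pow j
    · exact le_trans θ_pow (pow_le_pow_of_le_one θ_pos.le θ_lt.le hrN)
    · positivity
    · exact pow_nonneg (pow_nonneg θ_pos.le _) _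
  have e3 : (2 : ℝ) ^ j * 2 * (1 / 50) ^ j ≤ 4 * ((1 / 2) ^ j * (1 / 2)) := by
    have : (2 : ℝ) ^ j * 2 * (1 / 50) ^ j = 2 * (1 / 25) ^ j := by
      rw [mul_right_comm, ← mul_pow]; norm_num; ring
    rw [this]
    have h5 : (1 / 25 : ℝ) ^ j ≤ (1 / 2) ^ j := pow_le_pow_left₀ (by norm_num) (by norm_num) j
    linarith
  calc (1 + τ) ^ n * (1 / 50 : ℝ) ^ j ≤ 2 ^ j * 2 * (1 / 50) ^ j :=
        mul_le_mul_of_nonneg_right e1 (by positivity)
    _ ≤ 4 * ((1 / 2) ^ j * (1 / 2)) := e3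
    _ ≤ 4 * θ₁ ^ n := by linarith

end PAT

open PAT in
theorem S_pattern_proof (hP : S_poor) (hU : S_up) (hD : S_down) : S_pattern := by
  intro Q hQ μ hμ1 hμ2 hup
  obtain ⟨C0, hC0⟩ := hP
  obtain ⟨C1, hC1⟩ := hup τ τ_pos
  have hC1' : 0 ≤ C1 := by
    have h := hC1 0
    simp only [pow_zero, mul_one] at h
    exact le_trans (Nat.cast_nonneg _) h
  have hμ0 : 0 < μ := by linarith
  have hτ := τ_pos
  have hM1 : 1 ≤ (1 + τ) * μ := by nlinarith
  have hτ1 : τ ≤ 1 / 10 := by unfold τ; norm_num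
  have hM2 : ((1 + τ) * μ) ^ 2 ≤ 1662 / 50 := by
    have h1 : (1 + τ) * μ ≤ 11 / 2 := by nlinarith
    nlinarith
  -- the bound for the classes B and C
  have hB : ∀ n : ℕ, (((K Q n).filter (fun w => 10 ^ 7 * bu w ≤ n ∧ ¬ 1000 * fr w ≤ n)).card : ℝ) ≤
      C1 * ((1 + τ) * μ) ^ n * (1 / 50) ^ (n / N) := by
    intro n
    set B := (K Q n).filter (fun w => 10 ^ 7 * bu w ≤ n ∧ ¬ 1000 * fr w ≤ n) with hBdef
    have hBK : B ⊆ K Q n := filter_subset _ _
    set j := n / N with hj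
    have hjn : 10 ^ 7 * j ≤ n := by
      have := Nat.mul_div_le n N
      rw [hj]; exact this
    rcases Nat.eq_zero_or_pos j with h0 | h0
    · rw [h0, pow_zero, mul_one]
      refine le_trans ?_ (hC1 n)
      have := card_le_card hBK
      unfold a
      exact_mod_cast this
    · have h1 := hU Q hQ n j (n / 1000) j B (by omega) (by omega) hBK (by
        intro w hw
        rw [hBdef, mem_filter] at hw
        obtain ⟨-, h2, h3⟩ := hw
        constructor
        · omega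
        · rw [hj, Nat.le_div_iff_mul_le (by unfold N; norm_num)]
          unfold N; omega)
      have h2 : ((10 : ℝ) ^ 4 * j) ≤ ((n / 1000 : ℕ) : ℝ) := by
        have : 10 ^ 4 * j ≤ n / 1000 := by omega
        exact_mod_cast this
      have hjpos : (0 : ℝ) < j := by exact_mod_cast h0
      have h3 : (9972 * (j : ℝ)) ^ j ≤ (((n / 1000 : ℕ) : ℝ) - 28 * j) ^ j := by
        apply pow_le_pow_left₀ (by positivity)
        linarith
      have h4 : ((j : ℝ) + 5 * j) ^ j = (6 * j) ^ j := by congr 1; ring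
      rw [h4] at h1
      have h5 : (B.card : ℝ) * (9972 * (j : ℝ)) ^ j ≤ (a Q (n + 2 * j) : ℝ) * (6 * j) ^ j :=
        le_trans (mul_le_mul_of_nonneg_left h3 (Nat.cast_nonneg _)) h1
      have h6 : (9972 * (j : ℝ)) ^ j = 1662 ^ j * (6 * j) ^ j := by
        rw [← mul_pow]; congr 1; ring
      rw [h6, ← mul_assoc] at h5
      have h7 : (B.card : ℝ) * 1662 ^ j ≤ (a Q (n + 2 * j) : ℝ) :=
        le_of_mul_le_mul_right h5 (by positivity)
      have h8 := hC1 (n + 2 * j)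
      have h9 : C1 * ((1 + τ) * μ) ^ (n + 2 * j) ≤ C1 * ((1 + τ) * μ) ^ n * (1662 / 50) ^ j := by
        rw [pow_add, pow_mul, mul_assoc]
        apply mul_le_mul_of_nonneg_left _ hC1'
        apply mul_le_mul_of_nonneg_left _ (by positivity)
        exact pow_le_pow_left₀ (by positivity) hM2 j
      have h10 : (B.card : ℝ) * 1662 ^ j ≤
          (C1 * ((1 + τ) * μ) ^ n * (1 / 50) ^ j) * 1662 ^ j := by
        refine le_trans h7 (le_trans h8 (le_trans h9 (le_of_eq ?_)))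
        rw [mul_assoc (C1 * ((1 + τ) * μ) ^ n), ← mul_pow]
        norm_num
      exact le_of_mul_le_mul_right h10 (by positivity)
  have hC : ∀ n : ℕ, (((K Q n).filter (fun w => 10 ^ 7 * fr w ≤ n ∧ ¬ 1000 * bu w ≤ n)).card : ℝ) ≤
      C1 * ((1 + τ) * μ) ^ n * (1 / 50) ^ (n / N) := by
    intro n
    set B := (K Q n).filter (fun w => 10 ^ 7 * fr w ≤ n ∧ ¬ 1000 * bu w ≤ n) with hBdef
    have hBK : B ⊆ K Q n := filter_subset _ _
    set j := n / N with hj
    have hjn : 10 ^ 7 * j ≤ n := by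
      have := Nat.mul_div_le n N
      rw [hj]; exact this
    rcases Nat.eq_zero_or_pos j with h0 | h0
    · rw [h0, pow_zero, mul_one]
      refine le_trans ?_ (hC1 n)
      have := card_le_card hBK
      unfold a
      exact_mod_cast this
    · have h1 := hD Q hQ n (n / 1000) j j B (by omega) (by omega) hBK (by
        intro w hw
        rw [hBdef, mem_filter] at hw
        obtain ⟨-, h2, h3⟩ := hw
        constructor
        · omega
        · rw [hj, Nat.le_div_iff_mul_le (by unfold N; norm_num)]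
          unfold N; omega)
      have h2 : ((10 : ℝ) ^ 4 * j) ≤ ((n / 1000 : ℕ) : ℝ) := by
        have : 10 ^ 4 * j ≤ n / 1000 := by omega
        exact_mod_cast this
      have hjpos : (0 : ℝ) < j := by exact_mod_cast h0
      have h3 : (1450 * (j : ℝ)) ^ j ≤ (((n / 1000 : ℕ) : ℝ) - 5 * j) ^ j := by
        apply pow_le_pow_left₀ (by positivity)
        linarith
      have h4 : ((j : ℝ) + 28 * j) ^ j = (29 * j) ^ j := by congr 1; ring
      rw [h4] at h1
      have h5 : (B.card : ℝ) * (1450 * (j : ℝ)) ^ j ≤ (a Q (n - 2 * j) : ℝ) * (29 * j) ^ j :=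
        le_trans (mul_le_mul_of_nonneg_left h3 (Nat.cast_nonneg _)) h1
      have h6 : (1450 * (j : ℝ)) ^ j = 50 ^ j * (29 * j) ^ j := by
        rw [← mul_pow]; congr 1; ring
      rw [h6, ← mul_assoc] at h5
      have h7 : (B.card : ℝ) * 50 ^ j ≤ (a Q (n - 2 * j) : ℝ) :=
        le_of_mul_le_mul_right h5 (by positivity)
      have h8 := hC1 (n - 2 * j)
      have h9 : C1 * ((1 + τ) * μ) ^ (n - 2 * j) ≤ C1 * ((1 + τ) * μ) ^ n := by
        apply mul_le_mul_of_nonneg_left _ hC1'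
        exact pow_le_pow_right₀ hM1 (Nat.sub_le _ _)
      have h10 : (B.card : ℝ) * 50 ^ j ≤
          (C1 * ((1 + τ) * μ) ^ n * (1 / 50) ^ j) * 50 ^ j := by
        refine le_trans h7 (le_trans h8 (le_trans h9 (le_of_eq ?_)))
        rw [mul_assoc (C1 * ((1 + τ) * μ) ^ n), ← mul_pow]
        norm_num
      exact le_of_mul_le_mul_right h10 (by positivity)
  have hA : ∀ n : ℕ, (((K Q n).filter (fun w => 1000 * fr w ≤ n ∧ 1000 * bu w ≤ n)).card : ℝ) ≤
      |C0| * (19 / 5) ^ n := by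
    intro n
    have h1 : (K Q n).filter (fun w => 1000 * fr w ≤ n ∧ 1000 * bu w ≤ n) ⊆
        (W n).filter (fun w => SAP w ∧ 1000 * fr w ≤ n ∧ 1000 * bu w ≤ n) := by
      intro w hw
      rw [mem_filter, mem_K] at hw
      rw [mem_filter, mem_W]
      exact ⟨hw.1.1, hw.1.2.1, hw.2.1, hw.2.2⟩
    have h2 : (((K Q n).filter (fun w => 1000 * fr w ≤ n ∧ 1000 * bu w ≤ n)).card : ℝ) ≤
        (((W n).filter (fun w => SAP w ∧ 1000 * fr w ≤ n ∧ 1000 * bu w ≤ n)).card : ℝ) := by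
      exact_mod_cast card_le_card h1
    refine le_trans h2 (le_trans (hC0 n) ?_)
    exact mul_le_mul_of_nonneg_right (le_abs_self C0) (by positivity)
  -- conclusion
  have hθ2 : 19 / 5 / μ < 1 := by rw [div_lt_one hμ0]; exact hμ1
  refine ⟨max θ₁ (19 / 5 / μ), |C0| + 8 * C1, lt_max_of_lt_left θ_pos, max_lt θ_lt hθ2, ?_⟩
  intro n
  set θ := max θ₁ (19 / 5 / μ) with hθ
  have hθ0 : 0 < θ := lt_max_of_lt_left θ_pos
  have hcov : (K Q n).filter (fun w => 10 ^ 7 * fr w ≤ n ∨ 10 ^ 7 * bu w ≤ n) ⊆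
      ((K Q n).filter (fun w => 1000 * fr w ≤ n ∧ 1000 * bu w ≤ n) ∪
        (K Q n).filter (fun w => 10 ^ 7 * bu w ≤ n ∧ ¬ 1000 * fr w ≤ n)) ∪
        (K Q n).filter (fun w => 10 ^ 7 * fr w ≤ n ∧ ¬ 1000 * bu w ≤ n) := by
    intro w hw
    rw [mem_filter] at hw
    simp only [mem_union, mem_filter]
    obtain ⟨h1, h2⟩ := hw
    by_cases h3 : 1000 * fr w ≤ n <;> by_cases h4 : 1000 * bu w ≤ n
    · exact Or.inl (Or.inl ⟨h1, h3, h4⟩)
    · rcases h2 with h2 | h2
      · exact Or.inr ⟨h1, h2, h4⟩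
      · exfalso; omega
    · rcases h2 with h2 | h2
      · exfalso; omega
      · exact Or.inl (Or.inr ⟨h1, h2, h3⟩)
    · exfalso; rcases h2 with h2 | h2 <;> omega
  have hcard : (bad Q n : ℝ) ≤
      (((K Q n).filter (fun w => 1000 * fr w ≤ n ∧ 1000 * bu w ≤ n)).card : ℝ) +
      (((K Q n).filter (fun w => 10 ^ 7 * bu w ≤ n ∧ ¬ 1000 * fr w ≤ n)).card : ℝ) +
      (((K Q n).filter (fun w => 10 ^ 7 * fr w ≤ n ∧ ¬ 1000 * bu w ≤ n)).card : ℝ) := by
    have h1 := card_le_card hcov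
    have h2 := le_trans h1 (le_trans (card_union_le _ _)
      (Nat.add_le_add_right (card_union_le _ _) _))
    unfold bad
    exact_mod_cast h2
  have hX : C1 * ((1 + τ) * μ) ^ n * (1 / 50) ^ (n / N) ≤ 4 * C1 * (θ * μ) ^ n := by
    have h1 := expo n
    have h2 : θ₁ ^ n ≤ θ ^ n := pow_le_pow_left₀ θ_pos.le (le_max_left _ _) n
    calc C1 * ((1 + τ) * μ) ^ n * (1 / 50) ^ (n / N)
        = C1 * μ ^ n * ((1 + τ) ^ n * (1 / 50) ^ (n / N)) := by rw [mul_pow]; ring
      _ ≤ C1 * μ ^ n * (4 * θ ^ n) := by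
          apply mul_le_mul_of_nonneg_left _ (by positivity)
          linarith
      _ = 4 * C1 * (θ * μ) ^ n := by rw [mul_pow]; ring
  have hY : (19 / 5 : ℝ) ^ n ≤ (θ * μ) ^ n := by
    apply pow_le_pow_left₀ (by norm_num)
    have h1 : 19 / 5 / μ ≤ θ := le_max_right _ _
    rwa [div_le_iff₀ hμ0] at h1
  have hZ : |C0| * (19 / 5) ^ n ≤ |C0| * (θ * μ) ^ n :=
    mul_le_mul_of_nonneg_left hY (abs_nonneg _)
  have q1 := hA n
  have q2 := hB n
  have q3 := hC n
  have e : (|C0| + 8 * C1) * (θ * μ) ^ n =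
      |C0| * (θ * μ) ^ n + 2 * (4 * C1 * (θ * μ) ^ n) := by ring
  rw [e]
  refine le_trans hcard (le_trans (add_le_add (add_le_add (le_trans q1 hZ) (le_trans q2 hX))
    (le_trans q3 hX)) (le_of_eq ?_))
  ring

end TH966.KO
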