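import Pool.Agent.TH966.KO.Defs
import Pool.Agent.H246KN.POOR

/-!
# Task POOR: closed words with few free plaquettes and few bumps are rare
-/

set_option autoImplicit false

namespace TH966.KO

open Finset Filter Topology KN
open scoped Classical

noncomputable section

namespace POOR

theorem saw_tail {w : List Dir} (hw : SAP w) : SAW w.tail := by
  obtain ⟨h1, h3⟩ := hw
  cases w with
  | nil => simp at h1
  | cons d u => exact (List.nodup_cons.1 h3).2

theorem term_ge (h2 : S_sat) {n : ℕ} {w : List Dir} (hw : SAP w) (hf : 1000 * fr w ≤ n)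
    (hb : 1000 * bu w ≤ n) :
    (20 / 21 : ℝ) ^ 40 * (1 / 1050 : ℝ) ^ (n / 1000) ≤
      (21 / 20 : ℝ) ^ (Gx w.tail) * (1 / 1000 : ℝ) ^ (bu w.tail) * Hx w.tail := by
  set m := n / 1000 with hm
  have hf' : fr w ≤ m := by omega
  have hb' : bu w.tail ≤ m := by
    have h3 : bu w.tail ≤ bu w := by
      cases w with
      | nil => exact le_rfl
      | cons d u => exact KN.POOR.bu_le d u
    omega
  have h4 := h2 w hw
  have h5 : (21 / 20 : ℝ) ^ (-(40 : ℤ) - m) ≤ (21 / 20 : ℝ) ^ (Gx w.tail) := by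
    apply zpow_le_zpow_right₀ (by norm_num)
    have : ((fr w : ℕ) : ℤ) ≤ m := by exact_mod_cast hf'
    omega
  have h6 : (1 / 1000 : ℝ) ^ m ≤ (1 / 1000 : ℝ) ^ (bu w.tail) :=
    pow_le_pow_of_le_one (by norm_num) (by norm_num) hb'
  have h7 : (21 / 20 : ℝ) ^ (-(40 : ℤ) - m) = (20 / 21 : ℝ) ^ 40 * (20 / 21 : ℝ) ^ m := by
    rw [sub_eq_add_neg, zpow_add₀ (by norm_num), zpow_neg, zpow_neg, zpow_natCast,
      show ((40 : ℤ)) = ((40 : ℕ) : ℤ) by norm_num, zpow_natCast, ← inv_pow, ← inv_pow]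
    norm_num
  have h8 : (20 / 21 : ℝ) ^ 40 * (1 / 1050 : ℝ) ^ m =
      (21 / 20 : ℝ) ^ (-(40 : ℤ) - m) * (1 / 1000 : ℝ) ^ m * 1 := by
    rw [h7, mul_one, mul_assoc, ← mul_pow]
    norm_num
  rw [h8]
  gcongr
  exact KN.POOR.Hx_ge _

end POOR

theorem S_poor_proof (h1 : S_walks) (h2 : S_sat) : S_poor := by
  refine ⟨6 * (2760 * (21 / 20 : ℝ) ^ 40), fun n => ?_⟩
  set A := (W n).filter (fun w => SAP w ∧ 1000 * fr w ≤ n ∧ 1000 * bu w ≤ n) with hA
  rcases lt_or_ge n 4 with hn | hn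
  · have : A = ∅ := by
      rw [hA, Finset.filter_eq_empty_iff]
      rintro w hw ⟨⟨h3, _⟩, _⟩
      rw [mem_W] at hw
      omega
    rw [this, Finset.card_empty, Nat.cast_zero]
    positivity
  · have hmem : ∀ w ∈ A, w.length = n ∧ SAP w ∧ 1000 * fr w ≤ n ∧ 1000 * bu w ≤ n := by
      intro w hw
      rw [hA, Finset.mem_filter, mem_W] at hw
      exact hw
    set T := A.image List.tail with hT
    have hfib : A.card ≤ 6 * T.card := by
      refine Finset.card_le_mul_card_image A 6 fun u _ => ?_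
      have h3 : (A.filter (fun w => w.tail = u)).card ≤ (univ : Finset Dir).card := by
        apply Finset.card_le_card_of_injOn (fun w => w.getD 0 .xp)
        · intro w _; simp
        · intro w hw w' hw' h
          have h4 := Finset.mem_filter.1 (Finset.mem_coe.1 hw)
          have h5 := Finset.mem_filter.1 (Finset.mem_coe.1 hw')
          have l1 := (hmem w h4.1).1
          have l2 := (hmem w' h5.1).1
          obtain ⟨d, v, rfl⟩ := List.exists_cons_of_ne_nil (l := w) (by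
            rintro rfl; simp at l1; omega)
          obtain ⟨d', v', rfl⟩ := List.exists_cons_of_ne_nil (l := w') (by
            rintro rfl; simp at l2; omega)
          have e1 : v = u := h4.2
          have e2 : v' = u := h5.2
          have e3 : d = d' := h
          rw [e1, e2, e3]
      exact h3
    have himg : T ⊆ (W (n - 1)).filter SAW := by
      intro u hu
      obtain ⟨w, hw, rfl⟩ := Finset.mem_image.1 hu
      rw [Finset.mem_filter, mem_W]
      refine ⟨?_, POOR.saw_tail (hmem w hw).2.1⟩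
      rw [List.length_tail, (hmem w hw).1]
    have hsum := h1 (n - 1) (by omega)
    set c : ℝ := (20 / 21 : ℝ) ^ 40 * (1 / 1050 : ℝ) ^ (n / 1000) with hc
    have hlow : (T.card : ℝ) * c ≤
        ∑ w ∈ (W (n - 1)).filter SAW, (21 / 20 : ℝ) ^ (Gx w) * (1 / 1000 : ℝ) ^ (bu w) * Hx w := by
      calc (T.card : ℝ) * c = ∑ _w ∈ T, c := by rw [Finset.sum_const, nsmul_eq_mul]
        _ ≤ ∑ w ∈ T, (21 / 20 : ℝ) ^ (Gx w) * (1 / 1000 : ℝ) ^ (bu w) * Hx w := by
            refine Finset.sum_le_sum fun u hu => ?_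
            obtain ⟨w, hw, rfl⟩ := Finset.mem_image.1 hu
            exact POOR.term_ge h2 (hmem w hw).2.1 (hmem w hw).2.2.1 (hmem w hw).2.2.2
        _ ≤ _ := by
            refine Finset.sum_le_sum_of_subset_of_nonneg himg fun w _ _ => ?_
            have := KN.POOR.Hx_ge w
            positivity
    have h3 : (T.card : ℝ) * c ≤ 2760 * (15 / 4 : ℝ) ^ n := by
      refine (hlow.trans hsum).trans ?_
      have : (15 / 4 : ℝ) ^ (n - 1 - 1) ≤ (15 / 4 : ℝ) ^ n :=
        pow_le_pow_right₀ (by norm_num) (by omega)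
      linarith
    have hcc : c * ((21 / 20 : ℝ) ^ 40 * (1050 : ℝ) ^ (n / 1000)) = 1 := by
      rw [hc, mul_mul_mul_comm, ← mul_pow, ← mul_pow]
      norm_num
    have h4 : (T.card : ℝ) ≤ 2760 * (21 / 20 : ℝ) ^ 40 * (19 / 5 : ℝ) ^ n := by
      calc (T.card : ℝ) = (T.card : ℝ) * c * ((21 / 20 : ℝ) ^ 40 * (1050 : ℝ) ^ (n / 1000)) := by
            rw [mul_assoc, hcc, mul_one]
        _ ≤ 2760 * (15 / 4 : ℝ) ^ n * ((21 / 20 : ℝ) ^ 40 * (76 / 75 : ℝ) ^ n) := by
            gcongr
            exact KN.POOR.pow_1050 n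
        _ = 2760 * (21 / 20 : ℝ) ^ 40 * ((15 / 4 : ℝ) ^ n * (76 / 75 : ℝ) ^ n) := by ring
        _ = 2760 * (21 / 20 : ℝ) ^ 40 * (19 / 5 : ℝ) ^ n := by
            rw [← mul_pow]
            norm_num
    have h5 : (A.card : ℝ) ≤ 6 * T.card := by exact_mod_cast hfib
    linarith

end

end TH966.KO
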