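import Pool.Agent.TH966.KO.UP
import Pool.Agent.TH966.KO.DOWN
import Pool.Agent.TH966.KO.SUM
import Pool.Agent.TH966.KO.PAT
import Pool.Agent.TH966.KO.CONV
import Pool.Agent.TH966.KO.INS
import Pool.Agent.TH966.KO.SAT
import Pool.Agent.TH966.KO.POOR
import Pool.Agent.TH966.KO.Bridge
import Pool.Agent.TH966.KS.Samp

/-!
# Kesten's inequality for self-avoiding walks on `ℤ³`
-/

set_option autoImplicit false

namespace TH966.KO

open Finset Filter Topology KN
open scoped Classical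

theorem o_sum : S_sum := S_sum_proof S_ins_proof S_rem_proof
theorem o_up : S_up := S_up_proof S_ins_proof S_change_proof
theorem o_down : S_down := S_down_proof S_rem_proof S_change_proof
theorem o_poor : S_poor := S_poor_proof c_walks S_sat_proof
theorem o_pattern : S_pattern := S_pattern_proof o_poor o_up o_down
theorem o_convex : S_convex := S_convex_proof S_ins_proof o_sum S_change_proof

/-- **Kesten's inequality** -/
theorem kesten : ∃ D : ℝ, 0 ≤ D ∧ ∀ᶠ n : ℕ in atTop,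
    (c (n + 2) : ℝ) ^ 2 ≤ c n * c (n + 4) * (1 + D / n) := by
  have hinv : Inv (fun _ => True) := fun w _ i d _ => Iff.rfl
  have hμ : 0 < μ := by linarith [mu_one]
  obtain ⟨θ, C, hθ0, hθ1, hbad⟩ := o_pattern (fun _ => True) hinv μ (by linarith [mu_ge]) mu_le
    (fun τ hτ => by
      obtain ⟨C, _, hC⟩ := growth τ hτ
      refine ⟨C, fun n => le_trans ?_ (hC n)⟩
      exact_mod_cast a_le n)
  obtain ⟨D, hD0, hD⟩ := o_convex (fun _ => True) hinv μ θ ((1 + θ) / 2) C hμ hθ0
    (by linarith) hbad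
  refine ⟨D, hD0, ?_⟩
  filter_upwards [hD, eventually_ge_atTop 4] with n hn h4
  rw [a_eq (n + 2) (by omega), a_eq (n + 4) (by omega), a_eq n h4] at hn
  refine hn ((pow_le_pow_left₀ (by positivity) ?_ _).trans (mu_pow (n + 2)))
  nlinarith

/-- the normalised numbers of walks of the lengths `2 k + s` -/
noncomputable def ys (s k : ℕ) : ℝ := (c (2 * k + s) : ℝ) / μ ^ (2 * k + s)

theorem ys_one (s k : ℕ) : 1 ≤ ys s k := by
  have hμ : 0 < μ := by linarith [mu_one]
  unfold ys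
  rw [one_le_div (pow_pos hμ _)]
  exact mu_pow _

theorem kes_ys : ∃ D : ℝ, 0 ≤ D ∧ ∀ θ : ℝ, ∀ s : ℕ, ∃ k0 : ℕ, TH966.KS.Kes (ys s) D θ k0 := by
  obtain ⟨D, hD0, hD⟩ := kesten
  have hμ : 0 < μ := by linarith [mu_one]
  obtain ⟨N, hN⟩ := eventually_atTop.1 hD
  refine ⟨D, hD0, fun θ s => ⟨N + 1, fun k hk _ => ?_⟩⟩
  have h1 := hN (2 * k + s) (by omega)
  have hk0 : (0 : ℝ) < k := by exact_mod_cast (show 0 < k by omega)
  have e1 : 2 * k + s + 2 = 2 * (k + 1) + s := by ring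
  have e2 : 2 * k + s + 4 = 2 * (k + 2) + s := by ring
  rw [e1, e2] at h1
  have hg : (1 + D / ((2 * k + s : ℕ) : ℝ)) ≤ 1 + D / k := by
    have : D / ((2 * k + s : ℕ) : ℝ) ≤ D / k := by
      apply div_le_div_of_nonneg_left hD0 hk0
      push_cast
      have : (0 : ℝ) ≤ s := Nat.cast_nonneg s
      linarith
    linarith
  have h2 : (c (2 * (k + 1) + s) : ℝ) ^ 2 ≤ c (2 * k + s) * c (2 * (k + 2) + s) * (1 + D / k) :=
    h1.trans (mul_le_mul_of_nonneg_left hg (by positivity))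
  unfold ys
  have e3 : μ ^ (2 * k + s) * μ ^ (2 * (k + 2) + s) = (μ ^ (2 * (k + 1) + s)) ^ 2 := by
    rw [← pow_add, ← pow_mul]
    congr 1
    ring
  rw [div_pow, div_mul_div_comm, e3, div_mul_eq_mul_div]
  exact div_le_div_of_nonneg_right h2 (by positivity)

end TH966.KO
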