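import Pool.Agent.TH966.KS.Rate

/-!
# Consequences of a large deviation of a ratio
-/

set_option autoImplicit false

namespace TH966.KO

open Finset Filter Topology TH966.KS

variable {y : ℕ → ℝ} {D θ : ℝ} {k0 : ℕ}

/-- common quantities -/
theorem common (hD : 0 ≤ D) {k : ℕ} {c : ℝ} (hc0 : 0 < c) (hc1 : c ≤ 1 / 2) (hk8 : 8 ≤ k)
    (hck : 16 * (D + 1) ≤ c * k) : ∃ J : ℕ, c * k / (16 * (D + 1)) ≤ J ∧ 2 * (J + 2) ≤ k ∧ 1 ≤ J ∧
      (1 + 2 * D / k) ^ J ≤ Real.exp (c / 4) := by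
  have hkR : (0 : ℝ) < k := by exact_mod_cast (show 0 < k by omega)
  have hJa := Nat.floor_le (show 0 ≤ c * k / (8 * (D + 1)) by positivity)
  have hJb := Nat.lt_floor_add_one (c * k / (8 * (D + 1)))
  set J : ℕ := ⌊c * k / (8 * (D + 1))⌋₊ with hJ
  have h1 : 1 ≤ c * k / (16 * (D + 1)) := (one_le_div (by positivity)).2 hck
  have hJc : c * k / (16 * (D + 1)) ≤ J := by
    have h2 : c * k / (8 * (D + 1)) = c * k / (16 * (D + 1)) + c * k / (16 * (D + 1)) := by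
      field_simp; norm_num
    linarith
  refine ⟨J, hJc, ?_, ?_, ?_⟩
  · have h1 : c * k / (8 * (D + 1)) ≤ k / 16 := by
      rw [div_le_div_iff₀ (by positivity) (by norm_num)]
      nlinarith
    have h2 : (8 : ℝ) ≤ k := by exact_mod_cast hk8
    have h4 : (2 * (J + 2) : ℝ) ≤ k := by linarith
    exact_mod_cast h4
  · have h7 : (1 : ℝ) ≤ J := h1.trans hJc
    exact_mod_cast h7
  · have h1 : 1 + 2 * D / k ≤ Real.exp (2 * D / k) := by
      rw [add_comm]; exact Real.add_one_le_exp _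
    calc (1 + 2 * D / k) ^ J ≤ Real.exp (2 * D / k) ^ J := pow_le_pow_left₀ (by positivity) h1 J
      _ = Real.exp (J * (2 * D / k)) := by rw [← Real.exp_nat_mul]
      _ ≤ Real.exp (c / 4) := by
        refine Real.exp_le_exp.2 ?_
        have h2 : (J : ℝ) * (2 * D / k) ≤ c * k / (8 * (D + 1)) * (2 * D / k) :=
          mul_le_mul_of_nonneg_right hJa (by positivity)
        refine h2.trans ?_
        have h3 : c * k / (8 * (D + 1)) * (2 * D / k) = c * D / (4 * (D + 1)) := by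
          field_simp
          ring
        rw [h3, div_le_div_iff₀ (by positivity) (by norm_num)]
        nlinarith

theorem exp_quarter {c : ℝ} (hc0 : 0 < c) (hc1 : c ≤ 1 / 2) :
    Real.exp (c / 4) * (1 - c / 4) ≤ 1 ∧ Real.exp (c / 4) ≤ 1 + c / 2 := by
  have hc4 : 0 < 1 - c / 4 := by linarith
  have hexp : Real.exp (c / 4) * (1 - c / 4) ≤ 1 := by
    have h1 := Real.add_one_le_exp (-(c / 4))
    have h2 : Real.exp (c / 4) * Real.exp (-(c / 4)) = 1 := by
      rw [← Real.exp_add, add_neg_cancel, Real.exp_zero]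
    rw [← h2]
    exact mul_le_mul_of_nonneg_left (by linarith) (Real.exp_pos _).le
  refine ⟨hexp, ?_⟩
  have h6 : Real.exp (c / 4) ≤ 1 / (1 - c / 4) := by
    rw [le_div_iff₀ hc4]; exact hexp
  refine h6.trans ?_
  rw [div_le_iff₀ hc4]
  nlinarith

/-- a large ratio gives growth to the right -/
theorem prop_up (hK : Kes y D θ k0) (hy : ∀ k, 0 ≤ y k) (hD : 0 ≤ D) (hθ0 : 0 < θ) (hθ1 : θ < 1)
    {k : ℕ} {c : ℝ} (hc0 : 0 < c) (hc1 : c ≤ 1 / 2) (hk8 : 8 ≤ k) (hk0 : k0 ≤ k)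
    (hck : 16 * (D + 1) ≤ c * k) (hyk : 0 < y k) (hth : θ ^ k ≤ y k)
    (h : (1 + c) * y k < y (k + 1)) :
    ∃ J : ℕ, c * k / (16 * (D + 1)) ≤ J ∧ 1 ≤ J ∧ Real.exp (c / 4 * J) * y k ≤ y (k + J) := by
  obtain ⟨J, hJc, hJk, hJ1, hgJ⟩ := common hD hc0 hc1 hk8 hck
  obtain ⟨hexp, hq⟩ := exp_quarter hc0 hc1
  have hkR : (0 : ℝ) < k := by exact_mod_cast (show 0 < k by omega)
  have hgk : 1 + D / (k : ℝ) ≤ 1 + 2 * D / k := by
    have : D / k ≤ 2 * D / k := div_le_div_of_nonneg_right (by linarith) hkR.le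
    linarith
  refine ⟨J, hJc, hJ1, ?_⟩
  have h2 := (fwd2 (g := 1 + 2 * D / k) (k := k) (J := J) (ρ := 1 + c) (q := 1 + c / 2) hK hy hD
      hθ0 hθ1 hk0 (by omega) hgk (by linarith) (by
        have h9 : (1 + c / 2) * (1 + 2 * D / k) ^ J ≤ (1 + c / 2) * Real.exp (c / 4) :=
          mul_le_mul_of_nonneg_left hgJ (by linarith)
        refine h9.trans ?_
        have h10 : 1 + c / 2 ≤ (1 + c) * (1 - c / 4) := by nlinarith
        calc (1 + c / 2) * Real.exp (c / 4) ≤ ((1 + c) * (1 - c / 4)) * Real.exp (c / 4) :=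
              mul_le_mul_of_nonneg_right h10 (Real.exp_pos _).le
          _ = (1 + c) * (Real.exp (c / 4) * (1 - c / 4)) := by ring
          _ ≤ (1 + c) * 1 := mul_le_mul_of_nonneg_left hexp (by linarith)
          _ = 1 + c := mul_one _) hyk h.le
      ((pow_le_pow_of_le_one hθ0.le hθ1.le (by omega)).trans hth) J le_rfl).1
  refine le_trans (mul_le_mul_of_nonneg_right ?_ hyk.le) h2
  rw [mul_comm, Real.exp_nat_mul]
  exact pow_le_pow_left₀ (Real.exp_pos _).le hq J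

/-- a small ratio gives growth to the left -/
theorem prop_down (hK : Kes y D θ k0) (hy : ∀ k, 0 ≤ y k) (hD : 0 ≤ D) (hθ0 : 0 < θ) (hθ1 : θ < 1)
    {k : ℕ} {c : ℝ} (hc0 : 0 < c) (hc1 : c ≤ 1 / 2) (hk8 : 8 ≤ k) (hk0 : 2 * k0 ≤ k)
    (hck : 16 * (D + 1) ≤ c * k) (hyk : 0 < y k) (hth : θ ^ k ≤ y k)
    (h : y (k + 1) < (1 - c) * y k) :
    ∃ J : ℕ, c * k / (16 * (D + 1)) ≤ J ∧ 1 ≤ J ∧ J ≤ k ∧
      Real.exp (c / 4 * J) * y k ≤ y (k - J) := by
  obtain ⟨J, hJc, hJk, hJ1, hgJ⟩ := common hD hc0 hc1 hk8 hck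
  obtain ⟨hexp, hq⟩ := exp_quarter hc0 hc1
  have hkR : (0 : ℝ) < k := by exact_mod_cast (show 0 < k by omega)
  refine ⟨J, hJc, hJ1, by omega, ?_⟩
  obtain ⟨b, hb⟩ : ∃ b, k = b + J := ⟨k - J, by omega⟩
  have hbk : k ≤ 2 * b := by omega
  have hbR : (0 : ℝ) < b := by exact_mod_cast (show 0 < b by omega)
  set g : ℝ := 1 + 2 * D / k with hg
  have hg1 : 1 ≤ g := by
    have : 0 ≤ 2 * D / k := by positivity
    rw [hg]; linarith
  have hgb : 1 + D / (b : ℝ) ≤ g := by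
    rw [hg]
    have h3 : (k : ℝ) ≤ 2 * b := by exact_mod_cast hbk
    have : D / (b : ℝ) ≤ 2 * D / k := by
      rw [div_le_div_iff₀ hbR hkR]
      nlinarith
    linarith
  obtain ⟨m, hm⟩ : ∃ m, k = m + 1 := ⟨k - 1, by omega⟩
  have hθm : θ ^ (2 * m + 2) ≤ y (m + 1) := by
    rw [← hm]
    exact (pow_le_pow_of_le_one hθ0.le hθ1.le (by omega)).trans hth
  have hKm := hK m (by omega) hθm
  have hgm : 1 + D / (m : ℝ) ≤ g := g_anti hD (show 0 < b by omega) (by omega) hgb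
  have hKm2 : y (m + 1) ^ 2 ≤ y m * y (m + 2) * g :=
    hKm.trans (mul_le_mul_of_nonneg_left hgm (mul_nonneg (hy _) (hy _)))
  have e6 : m + 2 = k + 1 := by omega
  rw [e6, ← hm] at hKm2
  have h5 : y k ≤ ((1 - c) * g) * y m := by
    have h6 : y k * y k ≤ (((1 - c) * g) * y m) * y k := by
      calc y k * y k = y k ^ 2 := by ring
        _ ≤ y m * y (k + 1) * g := hKm2
        _ ≤ y m * ((1 - c) * y k) * g := mul_le_mul_of_nonneg_right
          (mul_le_mul_of_nonneg_left h.le (hy _)) (by linarith)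
        _ = _ := by ring
    exact le_of_mul_le_mul_right h6 hyk
  have hb2 := bwd2 (g := g) (b := b) (a := J - 1) (σ := (1 - c) * g) (q := 1 + c / 2) hK hy hD
      hθ0 hθ1 (by omega) (by omega) hgb (mul_nonneg (by linarith) (by linarith)) (by linarith) (by
        have h8 : (1 - c) * g * g ^ (J - 1) = (1 - c) * g ^ J := by
          rw [mul_assoc, ← pow_succ', Nat.sub_add_cancel hJ1]
        rw [h8]
        have h9 : (1 + c / 2) * ((1 - c) * g ^ J) ≤ (1 + c / 2) * ((1 - c) * Real.exp (c / 4)) :=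
          mul_le_mul_of_nonneg_left (mul_le_mul_of_nonneg_left hgJ (by linarith)) (by linarith)
        refine h9.trans ?_
        have h10 : (1 + c / 2) * (1 - c) ≤ 1 - c / 4 := by nlinarith
        calc (1 + c / 2) * ((1 - c) * Real.exp (c / 4)) = ((1 + c / 2) * (1 - c)) *
              Real.exp (c / 4) := by ring
          _ ≤ (1 - c / 4) * Real.exp (c / 4) :=
            mul_le_mul_of_nonneg_right h10 (Real.exp_pos _).le
          _ ≤ 1 := by rw [mul_comm]; exact hexp)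
      (by rw [show b + (J - 1) + 1 = k by omega]; exact hyk)
      (by
        rw [show b + (J - 1) + 1 = k by omega, show b + (J - 1) = m by omega]
        exact h5)
      (by
        rw [show b + (J - 1) + 1 = k by omega]
        exact (pow_le_pow_of_le_one hθ0.le hθ1.le (by omega)).trans hth) (J - 1) 0 (by omega)
  have h11 := hb2.1
  rw [show b + (J - 1) + 1 = k by omega, Nat.sub_add_cancel hJ1, add_zero] at h11
  rw [show k - J = b by omega]
  refine le_trans (mul_le_mul_of_nonneg_right ?_ hyk.le) h11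
  rw [mul_comm, Real.exp_nat_mul]
  exact pow_le_pow_left₀ (Real.exp_pos _).le hq J

/-- upper rate, for submultiplicative growth -/
theorem upper_rate (hK : Kes y D θ k0) (hD : 0 ≤ D) (hθ0 : 0 < θ) (hθ1 : θ < 1)
    (hy1 : ∀ k, 1 ≤ y k) {K a : ℝ} (hK0 : 0 ≤ K) (ha1 : a < 1)
    (hsub : ∀ k m : ℕ, y (k + m) ≤ y k * Real.exp (K * (m : ℝ) ^ a)) :
    ∃ R : ℝ, 0 < R ∧ ∀ᶠ k : ℕ in atTop,
      y (k + 1) / y k ≤ 1 + R * (k : ℝ) ^ (-((1 - a) / (2 - a))) := by
  set b : ℝ := (1 - a) / (2 - a) with hb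
  have h2a : 0 < 2 - a := by linarith
  have hb0 : 0 < b := div_pos (by linarith) h2a
  have hb1 : b < 1 := by rw [hb, div_lt_one h2a]; linarith
  set M : ℝ := 16 * (D + 1) with hM
  have hM0 : 0 < M := by positivity
  set R : ℝ := (4 * K * M ^ (1 - a) + 1) ^ (1 / (2 - a)) with hR
  have hbase : 0 < 4 * K * M ^ (1 - a) + 1 := by positivity
  have hR0 : 0 < R := Real.rpow_pos_of_pos hbase _
  have hRp : R ^ (2 - a) = 4 * K * M ^ (1 - a) + 1 := by
    rw [hR, ← Real.rpow_mul hbase.le, one_div_mul_cancel h2a.ne', Real.rpow_one]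
  refine ⟨R, hR0, ?_⟩
  have t1 : Tendsto (fun k : ℕ => R * (k : ℝ) ^ (-b)) atTop (𝓝 0) := by
    have := ((tendsto_rpow_neg_atTop hb0).comp tendsto_natCast_atTop_atTop).const_mul R
    rw [mul_zero] at this
    exact this
  have t2 : Tendsto (fun k : ℕ => R * (k : ℝ) ^ (1 - b)) atTop atTop :=
    ((tendsto_rpow_atTop (by linarith)).comp tendsto_natCast_atTop_atTop).const_mul_atTop hR0
  filter_upwards [t1.eventually_lt_const (show (0 : ℝ) < 1 / 2 by norm_num),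
    t2.eventually_ge_atTop M, eventually_ge_atTop (k0 + 8)] with k e1 e2 hk
  have hkR : (0 : ℝ) < k := by exact_mod_cast (show 0 < k by omega)
  set c : ℝ := R * (k : ℝ) ^ (-b) with hc
  have hc0 : 0 < c := mul_pos hR0 (Real.rpow_pos_of_pos hkR _)
  have hck : c * k = R * (k : ℝ) ^ (1 - b) := by
    rw [hc, mul_assoc]
    congr 1
    conv_lhs => rw [← Real.rpow_one (k : ℝ), ← Real.rpow_mul hkR.le, one_mul,
      ← Real.rpow_add hkR]
    congr 1
    ring
  have hyk : 0 < y k := by linarith [hy1 k]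
  by_contra hcon
  have h1 := not_le.1 hcon
  rw [lt_div_iff₀ hyk] at h1
  obtain ⟨J, hJ1, hJ2, hJ3⟩ := prop_up hK (fun k => by linarith [hy1 k]) hD hθ0 hθ1 hc0 e1.le
    (by omega) (by omega) (by rw [hck]; exact e2) hyk
    ((pow_le_one₀ hθ0.le hθ1.le).trans (hy1 k)) h1
  have hJR : (1 : ℝ) ≤ J := by exact_mod_cast hJ2
  have hJ0 : (0 : ℝ) < J := by linarith
  have h2 := hJ3.trans (hsub k J)
  rw [mul_comm (y k)] at h2
  have h3 := le_of_mul_le_mul_right h2 hyk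
  rw [Real.exp_le_exp] at h3
  have h4 : (J : ℝ) ^ (1 - a) * c ≤ 4 * K := by
    have h5 : (J : ℝ) = (J : ℝ) ^ (1 - a) * (J : ℝ) ^ a := by
      rw [← Real.rpow_add hJ0]; simp
    have h6 : 0 < (J : ℝ) ^ a := Real.rpow_pos_of_pos hJ0 _
    have h7 : ((J : ℝ) ^ (1 - a) * c) * (J : ℝ) ^ a ≤ (4 * K) * (J : ℝ) ^ a := by
      calc ((J : ℝ) ^ (1 - a) * c) * (J : ℝ) ^ a = ((J : ℝ) ^ (1 - a) * (J : ℝ) ^ a) * c := by ring
        _ = J * c := by rw [← h5]
        _ ≤ _ := by linarith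
    exact le_of_mul_le_mul_right h7 h6
  have h8 : (c * k / M) ^ (1 - a) * c ≤ 4 * K := by
    refine le_trans (mul_le_mul_of_nonneg_right ?_ hc0.le) h4
    exact Real.rpow_le_rpow (by positivity) hJ1 (by linarith)
  have h9 : (c * k / M) ^ (1 - a) * c = R ^ (2 - a) / M ^ (1 - a) := by
    rw [Real.div_rpow (by positivity) hM0.le, Real.mul_rpow hc0.le hkR.le]
    have h10 : c ^ (1 - a) * c = c ^ (2 - a) := by
      conv_lhs => rw [← Real.rpow_one c, ← Real.rpow_mul hc0.le, one_mul, ← Real.rpow_add hc0]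
      congr 1
      ring
    have h11 : c ^ (2 - a) = R ^ (2 - a) * (k : ℝ) ^ (-(1 - a)) := by
      rw [hc, Real.mul_rpow hR0.le (Real.rpow_nonneg hkR.le _), ← Real.rpow_mul hkR.le]
      congr 2
      rw [hb]
      field_simp
    have h12 : (k : ℝ) ^ (1 - a) * (k : ℝ) ^ (-(1 - a)) = 1 := by
      rw [← Real.rpow_add hkR]; simp
    calc c ^ (1 - a) * (k : ℝ) ^ (1 - a) / M ^ (1 - a) * c
        = (c ^ (1 - a) * c) * (k : ℝ) ^ (1 - a) / M ^ (1 - a) := by ring
      _ = R ^ (2 - a) * ((k : ℝ) ^ (1 - a) * (k : ℝ) ^ (-(1 - a))) / M ^ (1 - a) := by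
        rw [h10, h11]; ring
      _ = _ := by rw [h12, mul_one]
  rw [h9, div_le_iff₀ (Real.rpow_pos_of_pos hM0 _), hRp] at h8
  linarith

/-- lower rate, for subexponential growth -/
theorem lower_rate (hK : Kes y D θ k0) (hD : 0 ≤ D) (hθ0 : 0 < θ) (hθ1 : θ < 1)
    (hy1 : ∀ k, 1 ≤ y k) {K a : ℝ} (hK0 : 0 ≤ K) (ha0 : 0 < a) (ha1 : a < 1)
    (hgr : ∀ᶠ k : ℕ in atTop, ∀ m ≤ k, y m ≤ Real.exp (K * (k : ℝ) ^ a)) :
    ∃ R : ℝ, 0 < R ∧ ∀ᶠ k : ℕ in atTop,
      1 - R * (k : ℝ) ^ (-((1 - a) / 2)) ≤ y (k + 1) / y k := by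
  set b : ℝ := (1 - a) / 2 with hb
  have hb0 : 0 < b := div_pos (by linarith) (by norm_num)
  have hb1 : b < 1 := by rw [hb]; linarith
  set M : ℝ := 16 * (D + 1) with hM
  have hM0 : 0 < M := by positivity
  set R : ℝ := √(4 * K * M + 1) with hR
  have hR0 : 0 < R := Real.sqrt_pos.2 (by positivity)
  have hRp : R ^ 2 = 4 * K * M + 1 := Real.sq_sqrt (by positivity)
  refine ⟨R, hR0, ?_⟩
  have t1 : Tendsto (fun k : ℕ => R * (k : ℝ) ^ (-b)) atTop (𝓝 0) := by
    have := ((tendsto_rpow_neg_atTop hb0).comp tendsto_natCast_atTop_atTop).const_mul R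
    rw [mul_zero] at this
    exact this
  have t2 : Tendsto (fun k : ℕ => R * (k : ℝ) ^ (1 - b)) atTop atTop :=
    ((tendsto_rpow_atTop (by linarith)).comp tendsto_natCast_atTop_atTop).const_mul_atTop hR0
  filter_upwards [t1.eventually_lt_const (show (0 : ℝ) < 1 / 2 by norm_num),
    t2.eventually_ge_atTop M, eventually_ge_atTop (2 * k0 + 8), hgr] with k e1 e2 hk hg
  have hkR : (0 : ℝ) < k := by exact_mod_cast (show 0 < k by omega)
  set c : ℝ := R * (k : ℝ) ^ (-b) with hc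
  have hc0 : 0 < c := mul_pos hR0 (Real.rpow_pos_of_pos hkR _)
  have hck : c * k = R * (k : ℝ) ^ (1 - b) := by
    rw [hc, mul_assoc]
    congr 1
    conv_lhs => rw [← Real.rpow_one (k : ℝ), ← Real.rpow_mul hkR.le, one_mul,
      ← Real.rpow_add hkR]
    congr 1
    ring
  have hyk : 0 < y k := by linarith [hy1 k]
  by_contra hcon
  have h1 := not_le.1 hcon
  rw [div_lt_iff₀ hyk] at h1
  obtain ⟨J, hJ1, hJ2, hJk, hJ3⟩ := prop_down hK (fun k => by linarith [hy1 k]) hD hθ0 hθ1 hc0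
    e1.le (by omega) (by omega) (by rw [hck]; exact e2) hyk
    ((pow_le_one₀ hθ0.le hθ1.le).trans (hy1 k)) h1
  have h2 : Real.exp (c / 4 * J) ≤ Real.exp (K * (k : ℝ) ^ a) := by
    refine le_trans ?_ (hg (k - J) (by omega))
    refine le_trans ?_ hJ3
    exact le_mul_of_one_le_right (Real.exp_pos _).le (hy1 k)
  rw [Real.exp_le_exp] at h2
  have h3 : c / 4 * (c * k / M) ≤ K * (k : ℝ) ^ a :=
    le_trans (mul_le_mul_of_nonneg_left hJ1 (by positivity)) h2
  have h4 : c / 4 * (c * k / M) = (R ^ 2 / (4 * M)) * (k : ℝ) ^ a := by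
    have h5 : (k : ℝ) ^ (-b) * (k : ℝ) ^ (1 - b) = (k : ℝ) ^ a := by
      rw [← Real.rpow_add hkR]
      congr 1
      rw [hb]; ring
    rw [hck]
    calc c / 4 * (R * (k : ℝ) ^ (1 - b) / M) =
          (R ^ 2 / (4 * M)) * ((k : ℝ) ^ (-b) * (k : ℝ) ^ (1 - b)) := by rw [hc]; field_simp
      _ = _ := by rw [h5]
  rw [h4, hRp] at h3
  have h6 : 0 < (k : ℝ) ^ a := Real.rpow_pos_of_pos hkR _
  have h7 := le_of_mul_le_mul_right h3 h6
  rw [div_le_iff₀ (by positivity)] at h7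
  linarith

end TH966.KO
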