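import Pool.Agent.TH966.KO.Kes
import Pool.Agent.TH966.KO.Prop
import Pool.Agent.W325.S3.Fin

/-!
# The rates of convergence of the ratios for self-avoiding walks on `ℤ³`
-/

set_option autoImplicit false

namespace TH966.KO

open Finset Filter Topology TH966.KS

theorem third (a : ℝ) (ha : 1 / 3 < a) : ∃ K : ℝ, 0 ≤ K ∧ ∀ n : ℕ,
    (c n : ℝ) ≤ μ ^ n * Real.exp (K * (n : ℝ) ^ a) := by
  obtain ⟨K, hK⟩ := Pool.Agent.W325.S3.c_third (a - 1 / 3) (by linarith)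
  have hμ : 0 < μ := by linarith [mu_one]
  refine ⟨max K 0, le_max_right _ _, fun n => ?_⟩
  have h1 := hK n
  rw [show (1 : ℝ) / 3 + (a - 1 / 3) = a by ring] at h1
  refine h1.trans (mul_le_mul_of_nonneg_left (Real.exp_le_exp.2 ?_) (pow_pos hμ n).le)
  exact mul_le_mul_of_nonneg_right (le_max_left _ _) (by positivity)

theorem ys_pos (s k : ℕ) : 0 < ys s k := by linarith [ys_one s k]

theorem ratio_eq (s k : ℕ) : (c (2 * k + s + 2) : ℝ) / c (2 * k + s) =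
    μ ^ 2 * (ys s (k + 1) / ys s k) := by
  have hμ : 0 < μ := by linarith [mu_one]
  unfold ys
  have e1 : 2 * (k + 1) + s = 2 * k + s + 2 := by ring
  have h1 := (c_pos (2 * k + s)).ne'
  have h2 := (pow_pos hμ (2 * k + s)).ne'
  rw [e1, pow_add]
  field_simp

theorem ys_sub {K a : ℝ} (hK : ∀ n : ℕ, (c n : ℝ) ≤ μ ^ n * Real.exp (K * (n : ℝ) ^ a))
    (s k m : ℕ) : ys s (k + m) ≤ ys s k * Real.exp ((K * 2 ^ a) * (m : ℝ) ^ a) := by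
  have hμ : 0 < μ := by linarith [mu_one]
  unfold ys
  have e1 : 2 * (k + m) + s = (2 * k + s) + 2 * m := by ring
  have h1 : (c (2 * (k + m) + s) : ℝ) ≤ c (2 * k + s) * c (2 * m) := by
    rw [e1]
    exact_mod_cast c_add (2 * k + s) (2 * m)
  have h2 := hK (2 * m)
  have h3 : (((2 * m : ℕ) : ℝ)) ^ a = 2 ^ a * (m : ℝ) ^ a := by
    push_cast
    rw [Real.mul_rpow (by norm_num) (Nat.cast_nonneg m)]
  rw [h3] at h2
  rw [div_le_iff₀ (pow_pos hμ _)]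
  calc (c (2 * (k + m) + s) : ℝ) ≤ c (2 * k + s) * c (2 * m) := h1
    _ ≤ c (2 * k + s) * (μ ^ (2 * m) * Real.exp (K * (2 ^ a * (m : ℝ) ^ a))) :=
      mul_le_mul_of_nonneg_left h2 (Nat.cast_nonneg _)
    _ = (c (2 * k + s) : ℝ) / μ ^ (2 * k + s) * Real.exp (K * 2 ^ a * (m : ℝ) ^ a) *
        μ ^ (2 * (k + m) + s) := by
      rw [e1, pow_add μ (2 * k + s), ← mul_assoc K]
      have := (pow_pos hμ (2 * k + s)).ne'
      field_simp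

theorem ys_gr {K a : ℝ} (hK0 : 0 ≤ K) (ha : 0 < a)
    (hK : ∀ n : ℕ, (c n : ℝ) ≤ μ ^ n * Real.exp (K * (n : ℝ) ^ a))
    (s k m : ℕ) (hs : s ≤ 1) (hk : 1 ≤ k) (hm : m ≤ k) :
    ys s m ≤ Real.exp ((K * 3 ^ a) * (k : ℝ) ^ a) := by
  have hμ : 0 < μ := by linarith [mu_one]
  unfold ys
  rw [div_le_iff₀ (pow_pos hμ _), mul_comm (Real.exp (K * 3 ^ a * (k : ℝ) ^ a))]
  refine (hK (2 * m + s)).trans (mul_le_mul_of_nonneg_left (Real.exp_le_exp.2 ?_)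
    (pow_pos hμ _).le)
  have h1 : ((2 * m + s : ℕ) : ℝ) ≤ 3 * k := by exact_mod_cast (by omega : 2 * m + s ≤ 3 * k)
  have h2 : ((2 * m + s : ℕ) : ℝ) ^ a ≤ (3 * k : ℝ) ^ a :=
    Real.rpow_le_rpow (Nat.cast_nonneg _) h1 ha.le
  rw [Real.mul_rpow (by norm_num) (Nat.cast_nonneg k)] at h2
  rw [mul_assoc]
  exact mul_le_mul_of_nonneg_left h2 hK0

theorem pow_conv {β : ℝ} (hβ : 0 < β) {k n : ℕ} (hk : 1 ≤ k) (h : n ≤ 3 * k) (hn : 1 ≤ n) :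
    (k : ℝ) ^ (-β) ≤ 3 ^ β * (n : ℝ) ^ (-β) := by
  have hk0 : (0 : ℝ) < k := by exact_mod_cast hk
  have hn0 : (0 : ℝ) < n := by exact_mod_cast hn
  have h1 : (n : ℝ) / 3 ≤ k := by
    have : (n : ℝ) ≤ 3 * k := by exact_mod_cast h
    linarith
  have h2 : (k : ℝ) ^ (-β) ≤ ((n : ℝ) / 3) ^ (-β) :=
    Real.rpow_le_rpow_of_nonpos (by positivity) h1 (by linarith)
  refine h2.trans (le_of_eq ?_)
  rw [Real.div_rpow hn0.le (by norm_num), Real.rpow_neg (by norm_num : (0 : ℝ) ≤ 3)]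
  field_simp

/-- both parities -/
theorem both (P : ℕ → Prop) (h : ∀ s, s ≤ 1 → ∀ᶠ k : ℕ in atTop, P (2 * k + s)) :
    ∀ᶠ n : ℕ in atTop, P n := by
  obtain ⟨N0, h0⟩ := eventually_atTop.1 (h 0 (by norm_num))
  obtain ⟨N1, h1⟩ := eventually_atTop.1 (h 1 le_rfl)
  filter_upwards [eventually_ge_atTop (2 * N0 + 2 * N1 + 2)] with n hn
  rcases Nat.even_or_odd' n with ⟨k, hk | hk⟩
  · rw [hk]; exact h0 k (by omega)
  · rw [hk]; exact h1 k (by omega)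

theorem rates (ε : ℝ) (hε : 0 < ε) : ∃ K : ℝ, ∀ᶠ n : ℕ in atTop,
    -(K * (n : ℝ) ^ (-(1 / 3 : ℝ) + ε)) ≤ (c (n + 2) : ℝ) / c n - μ ^ 2 ∧
      (c (n + 2) : ℝ) / c n - μ ^ 2 ≤ K * (n : ℝ) ^ (-(2 / 5 : ℝ) + ε) := by
  have hμ : 0 < μ := by linarith [mu_one]
  set δ : ℝ := min ε (1 / 3) with hδ
  have hδ0 : 0 < δ := lt_min hε (by norm_num)
  have hδ1 : δ ≤ 1 / 3 := min_le_right _ _
  have hδε : δ ≤ ε := min_le_left _ _
  set a : ℝ := 1 / 3 + δ with ha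
  have ha0 : 0 < a := by rw [ha]; linarith
  have ha1 : a < 1 := by rw [ha]; linarith
  obtain ⟨K, hK0, hK⟩ := third a (by rw [ha]; linarith)
  obtain ⟨D, hD, hkes⟩ := kes_ys
  have hup : ∀ s : ℕ, ∃ R : ℝ, 0 < R ∧ ∀ᶠ k : ℕ in atTop,
      ys s (k + 1) / ys s k ≤ 1 + R * (k : ℝ) ^ (-((1 - a) / (2 - a))) := by
    intro s
    obtain ⟨k0, hk0⟩ := hkes (1 / 2) s
    exact upper_rate hk0 hD (by norm_num) (by norm_num) (ys_one s)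
      (K := K * 2 ^ a) (a := a) (by positivity) ha1 (fun k m => ys_sub hK s k m)
  have hlo : ∀ s : ℕ, s ≤ 1 → ∃ R : ℝ, 0 < R ∧ ∀ᶠ k : ℕ in atTop,
      1 - R * (k : ℝ) ^ (-((1 - a) / 2)) ≤ ys s (k + 1) / ys s k := by
    intro s hs
    obtain ⟨k0, hk0⟩ := hkes (1 / 2) s
    refine lower_rate hk0 hD (by norm_num) (by norm_num) (ys_one s)
      (K := K * 3 ^ a) (a := a) (by positivity) ha0 ha1 ?_
    filter_upwards [eventually_ge_atTop 1] with k hk m hm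
    exact ys_gr hK0 ha0 hK s k m hs hk hm
  set β₁ : ℝ := (1 - a) / (2 - a) with hβ₁
  set β₂ : ℝ := (1 - a) / 2 with hβ₂
  have h2a : 0 < 2 - a := by linarith
  have hβ₁0 : 0 < β₁ := div_pos (by linarith) h2a
  have hβ₂0 : 0 < β₂ := div_pos (by linarith) (by norm_num)
  have hβ₁g : 2 / 5 - ε ≤ β₁ := by
    refine le_trans (show 2 / 5 - ε ≤ 2 / 5 - δ by linarith) ?_
    rw [hβ₁, le_div_iff₀ h2a, ha]
    nlinarith
  have hβ₂g : 1 / 3 - ε ≤ β₂ := by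
    rw [hβ₂, ha]; linarith
  choose Ru hRu0 hRu using hup
  obtain ⟨Rl, hRl0, hRl⟩ : ∃ Rl : ℝ, 0 < Rl ∧ ∀ s : ℕ, s ≤ 1 → ∀ᶠ k : ℕ in atTop,
      1 - Rl * (k : ℝ) ^ (-β₂) ≤ ys s (k + 1) / ys s k := by
    obtain ⟨R0, h00, h01⟩ := hlo 0 (by norm_num)
    obtain ⟨R1, h10, h11⟩ := hlo 1 le_rfl
    refine ⟨R0 + R1, by linarith, fun s hs => ?_⟩
    have hmono : ∀ R : ℝ, R ≤ R0 + R1 → (∀ᶠ k : ℕ in atTop,
        1 - R * (k : ℝ) ^ (-β₂) ≤ ys s (k + 1) / ys s k) → ∀ᶠ k : ℕ in atTop,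
        1 - (R0 + R1) * (k : ℝ) ^ (-β₂) ≤ ys s (k + 1) / ys s k := by
      intro R hR h
      filter_upwards [h] with k hk
      have : R * (k : ℝ) ^ (-β₂) ≤ (R0 + R1) * (k : ℝ) ^ (-β₂) :=
        mul_le_mul_of_nonneg_right hR (by positivity)
      linarith
    rcases Nat.le_one_iff_eq_zero_or_eq_one.1 hs with rfl | rfl
    · exact hmono R0 (by linarith) h01
    · exact hmono R1 (by linarith) h11
  refine ⟨μ ^ 2 * ((Ru 0 + Ru 1) * 3 ^ β₁ + Rl * 3 ^ β₂), both _ fun s hs => ?_⟩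
  filter_upwards [hRu s, hRl s hs, eventually_ge_atTop 1] with k h1 h2 h3
  rw [ratio_eq]
  have hn1 : 1 ≤ 2 * k + s := by omega
  have hn3 : 2 * k + s ≤ 3 * k := by omega
  have hnR : (1 : ℝ) ≤ ((2 * k + s : ℕ) : ℝ) := by exact_mod_cast hn1
  have c1 := pow_conv hβ₁0 h3 hn3 hn1
  have c2 := pow_conv hβ₂0 h3 hn3 hn1
  have d1 : ((2 * k + s : ℕ) : ℝ) ^ (-β₁) ≤ ((2 * k + s : ℕ) : ℝ) ^ (-(2 / 5 : ℝ) + ε) :=
    Real.rpow_le_rpow_of_exponent_le hnR (by linarith)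
  have d2 : ((2 * k + s : ℕ) : ℝ) ^ (-β₂) ≤ ((2 * k + s : ℕ) : ℝ) ^ (-(1 / 3 : ℝ) + ε) :=
    Real.rpow_le_rpow_of_exponent_le hnR (by linarith)
  set x1 : ℝ := ((2 * k + s : ℕ) : ℝ) ^ (-(2 / 5 : ℝ) + ε) with hx1
  set x2 : ℝ := ((2 * k + s : ℕ) : ℝ) ^ (-(1 / 3 : ℝ) + ε) with hx2
  have hx10 : 0 ≤ x1 := by positivity
  have hx20 : 0 ≤ x2 := by positivity
  have hRs : Ru s ≤ Ru 0 + Ru 1 := by
    rcases Nat.le_one_iff_eq_zero_or_eq_one.1 hs with rfl | rfl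
    · linarith [hRu0 1]
    · linarith [hRu0 0]
  have hR00 := hRu0 s
  have hR0 := hRu0 0
  have hR1 := hRu0 1
  have u1 : Ru s * (k : ℝ) ^ (-β₁) ≤ (Ru 0 + Ru 1) * 3 ^ β₁ * x1 := by
    calc Ru s * (k : ℝ) ^ (-β₁) ≤ Ru s * (3 ^ β₁ * x1) :=
          mul_le_mul_of_nonneg_left (c1.trans (mul_le_mul_of_nonneg_left d1 (by positivity)))
            hR00.le
      _ ≤ (Ru 0 + Ru 1) * (3 ^ β₁ * x1) := mul_le_mul_of_nonneg_right hRs (by positivity)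
      _ = _ := by ring
  have u2 : Rl * (k : ℝ) ^ (-β₂) ≤ Rl * 3 ^ β₂ * x2 := by
    calc Rl * (k : ℝ) ^ (-β₂) ≤ Rl * (3 ^ β₂ * x2) :=
          mul_le_mul_of_nonneg_left (c2.trans (mul_le_mul_of_nonneg_left d2 (by positivity)))
            hRl0.le
      _ = _ := by ring
  have hμ2 : 0 < μ ^ 2 := pow_pos hμ 2
  have A1 : 0 ≤ (Ru 0 + Ru 1) * 3 ^ β₁ := by positivity
  have A2 : 0 ≤ Rl * 3 ^ β₂ := by positivity
  constructor
  · have h4 : μ ^ 2 * (1 - Rl * 3 ^ β₂ * x2) ≤ μ ^ 2 * (ys s (k + 1) / ys s k) :=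
      mul_le_mul_of_nonneg_left (by linarith) hμ2.le
    have h5 : 0 ≤ μ ^ 2 * ((Ru 0 + Ru 1) * 3 ^ β₁) * x2 := by positivity
    linarith
  · have h4 : μ ^ 2 * (ys s (k + 1) / ys s k) ≤ μ ^ 2 * (1 + (Ru 0 + Ru 1) * 3 ^ β₁ * x1) :=
      mul_le_mul_of_nonneg_left (by linarith) hμ2.le
    have h5 : 0 ≤ μ ^ 2 * (Rl * 3 ^ β₂) * x1 := by positivity
    linarith

end TH966.KO
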