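import Pool.Agent.TH966.KO.Rates
import Pool.Agent.TH966.KO.Gen

/-!
# The asymptotic form of the number of self-avoiding walks on `ℤ³` along sparse lengths
-/

set_option autoImplicit false

namespace TH966.KO

open Finset Filter Topology TH966.KS

/-- `((2 k + s) / (2 k)) ^ β → 1` -/
theorem quot_tendsto (s : ℕ) (β : ℝ) :
    Tendsto (fun k : ℕ => ((2 * k + s : ℝ) ^ β) / (2 * k : ℝ) ^ β) atTop (𝓝 1) := by
  have h1 : Tendsto (fun k : ℕ => 1 + (s / 2 : ℝ) / (k : ℝ)) atTop (𝓝 (1 + 0)) :=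
    (tendsto_const_div_atTop_nhds_zero_nat _).const_add 1
  rw [add_zero] at h1
  have h2 : Tendsto (fun k : ℕ => (1 + (s / 2 : ℝ) / (k : ℝ)) ^ β) atTop (𝓝 ((1 : ℝ) ^ β)) :=
    h1.rpow_const (Or.inl one_ne_zero)
  rw [Real.one_rpow] at h2
  refine h2.congr' ?_
  filter_upwards [eventually_gt_atTop 0] with k hk
  have hk0 : (0 : ℝ) < k := by exact_mod_cast hk
  rw [← Real.div_rpow (by positivity) (by positivity)]
  congr 1
  field_simp

/-- the asymptotic form for one parity, along a sparse sequence of lengths -/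
theorem form_par (s : ℕ) (u : ℕ → ℕ) (hu : Tendsto u atTop atTop)
    (hgap : Tendsto (fun j : ℕ => ((u (j + 1) : ℝ) - u j) / √(u j)) atTop (𝓝 0))
    (A β : ℝ) (hA : 0 < A)
    (h : Tendsto (fun j : ℕ => (c (2 * u j + s) : ℝ) /
      (μ ^ (2 * u j + s) * (((2 * u j + s : ℕ) : ℝ)) ^ β)) atTop (𝓝 A)) :
    Tendsto (fun k : ℕ => (c (2 * k + s) : ℝ) /
      (μ ^ (2 * k + s) * (((2 * k + s : ℕ) : ℝ)) ^ β)) atTop (𝓝 A) := by
  have hμ : 0 < μ := by linarith [mu_one]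
  obtain ⟨D, hD, hkes⟩ := kes_ys
  obtain ⟨k0, hk0⟩ := hkes (1 / 2) s
  have hq := quot_tendsto s β
  have key : ∀ k : ℕ, 0 < k → ys s k / (2 * k : ℝ) ^ β =
      (c (2 * k + s) : ℝ) / (μ ^ (2 * k + s) * (((2 * k + s : ℕ) : ℝ)) ^ β) *
        (((2 * k + s : ℝ) ^ β) / (2 * k : ℝ) ^ β) := by
    intro k hk
    have hk' : (0 : ℝ) < k := by exact_mod_cast hk
    have h1 : (0 : ℝ) < (2 * k + s : ℝ) ^ β := Real.rpow_pos_of_pos (by positivity) _
    have h2 : (0 : ℝ) < (2 * k : ℝ) ^ β := Real.rpow_pos_of_pos (by positivity) _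
    have h3 := (pow_pos hμ (2 * k + s)).ne'
    unfold ys
    push_cast
    field_simp
  have h1 : Tendsto (fun j : ℕ => ys s (u j) / (2 * u j : ℝ) ^ β) atTop (𝓝 A) := by
    have h2 := h.mul (hq.comp hu)
    rw [mul_one] at h2
    refine h2.congr' ?_
    filter_upwards [hu.eventually_gt_atTop 0] with j hj
    exact (key (u j) hj).symm
  have h2 := form hk0 (fun k => (ys_pos s k).le) hD (by norm_num) (by norm_num)
    (Eventually.of_forall fun k => ys_pos s k) u hu hgap A β hA h1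
  have h3 := h2.div hq one_ne_zero
  rw [div_one] at h3
  refine h3.congr' ?_
  filter_upwards [eventually_gt_atTop 0] with k hk
  have hk' : (0 : ℝ) < k := by exact_mod_cast hk
  have h4 : (0 : ℝ) < (2 * k + s : ℝ) ^ β := Real.rpow_pos_of_pos (by positivity) _
  have h5 : (0 : ℝ) < (2 * k : ℝ) ^ β := Real.rpow_pos_of_pos (by positivity) _
  simp only [Pi.div_apply]
  rw [key k hk, mul_div_cancel_right₀ _ (div_pos h4 h5).ne']

/-- the asymptotic form along sparse sequences of even and of odd lengths implies it -/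
theorem sparse (u : Fin 2 → ℕ → ℕ) (hu : ∀ p, Tendsto (u p) atTop atTop)
    (hgap : ∀ p, Tendsto (fun j : ℕ => ((u p (j + 1) : ℝ) - u p j) / √(u p j)) atTop (𝓝 0))
    (A β : ℝ) (hA : 0 < A)
    (h : ∀ p : Fin 2, Tendsto (fun j : ℕ => (c (2 * u p j + p) : ℝ) /
      (μ ^ (2 * u p j + p) * (((2 * u p j + p : ℕ) : ℝ)) ^ β)) atTop (𝓝 A)) :
    Tendsto (fun n : ℕ => (c n : ℝ) / (μ ^ n * (n : ℝ) ^ β)) atTop (𝓝 A) := by
  have h1 : ∀ p : Fin 2, Tendsto (fun k : ℕ => (c (2 * k + p) : ℝ) /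
      (μ ^ (2 * k + p) * (((2 * k + p : ℕ) : ℝ)) ^ β)) atTop (𝓝 A) := fun p =>
    form_par p (u p) (hu p) (hgap p) A β hA (h p)
  rw [Metric.tendsto_nhds]
  intro ε hε
  refine both _ fun s hs => ?_
  rcases Nat.le_one_iff_eq_zero_or_eq_one.1 hs with rfl | rfl
  · exact Metric.tendsto_nhds.1 (h1 0) ε hε
  · exact Metric.tendsto_nhds.1 (h1 1) ε hε

/-- the upper rate -/
theorem upper (ε : ℝ) (hε : 0 < ε) : ∃ K : ℝ, ∀ n : ℕ, 1 ≤ n →
    (c (n + 2) : ℝ) / c n ≤ μ ^ 2 + K * (n : ℝ) ^ (-(2 / 5 : ℝ) + ε) := by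
  obtain ⟨K, hK⟩ := rates ε hε
  obtain ⟨N, hN⟩ := eventually_atTop.1 hK
  have hμ : 0 < μ := by linarith [mu_one]
  refine ⟨max K 0 + ∑ n ∈ range (N + 1),
    ((c (n + 2) : ℝ) / c n) / (n : ℝ) ^ (-(2 / 5 : ℝ) + ε), fun n hn => ?_⟩
  have hn0 : (0 : ℝ) < n := by exact_mod_cast hn
  have hp : 0 < (n : ℝ) ^ (-(2 / 5 : ℝ) + ε) := Real.rpow_pos_of_pos hn0 _
  have hs : ∀ i ∈ range (N + 1),
      0 ≤ ((c (i + 2) : ℝ) / c i) / (i : ℝ) ^ (-(2 / 5 : ℝ) + ε) := fun i _ => by positivity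
  rcases le_or_gt N n with h | h
  · have h1 := (hN n h).2
    have h2 : K * (n : ℝ) ^ (-(2 / 5 : ℝ) + ε) ≤ (max K 0 + ∑ n ∈ range (N + 1),
        ((c (n + 2) : ℝ) / c n) / (n : ℝ) ^ (-(2 / 5 : ℝ) + ε)) *
        (n : ℝ) ^ (-(2 / 5 : ℝ) + ε) := by
      refine mul_le_mul_of_nonneg_right ?_ hp.le
      have := sum_nonneg hs
      have := le_max_left K 0
      linarith
    linarith
  · have h1 := single_le_sum hs (mem_range.2 (show n < N + 1 by omega))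
    have h2 : ((c (n + 2) : ℝ) / c n) / (n : ℝ) ^ (-(2 / 5 : ℝ) + ε) *
        (n : ℝ) ^ (-(2 / 5 : ℝ) + ε) = (c (n + 2) : ℝ) / c n := by field_simp
    have h3 := mul_le_mul_of_nonneg_right h1 hp.le
    have h4 : 0 ≤ max K 0 * (n : ℝ) ^ (-(2 / 5 : ℝ) + ε) :=
      mul_nonneg (le_max_right _ _) hp.le
    rw [h2] at h3
    have h5 : 0 ≤ μ ^ 2 := by positivity
    nlinarith

end TH966.KO
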