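import Pool.Agent.TH966.KO.Sparse

/-!
# The exponent of the number of self-avoiding walks on `ℤ³` along sparse even lengths
-/

set_option autoImplicit false

namespace TH966.KO

open Finset Filter Topology TH966.KS

/-- the logarithm of the normalised number of walks -/
noncomputable def lr (n : ℕ) : ℝ := Real.log ((c n : ℝ) / μ ^ n)

theorem r_pos (n : ℕ) : 0 < (c n : ℝ) / μ ^ n :=
  div_pos (c_pos n) (pow_pos (by linarith [mu_one]) n)

theorem lr_add (m n : ℕ) : lr (m + n) ≤ lr m + lr n := by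
  have hμ : 0 < μ := by linarith [mu_one]
  unfold lr
  rw [← Real.log_mul (r_pos m).ne' (r_pos n).ne']
  refine Real.log_le_log (r_pos _) ?_
  rw [div_mul_div_comm, ← pow_add]
  refine div_le_div_of_nonneg_right ?_ (pow_pos hμ _).le
  exact_mod_cast c_add m n

theorem lr_nonneg (n : ℕ) : 0 ≤ lr n := by
  have hμ : 0 < μ := by linarith [mu_one]
  refine Real.log_nonneg ?_
  rw [one_le_div (pow_pos hμ n)]
  exact mu_pow n

theorem lr_ys (k : ℕ) : Real.log (ys 0 k) = lr (2 * k) := by
  unfold ys lr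
  rw [add_zero]

/-- odd lengths -/
theorem lr_odd (k : ℕ) : lr (2 * (k + 1)) - lr 1 ≤ lr (2 * k + 1) ∧
    lr (2 * k + 1) ≤ lr (2 * k) + lr 1 := by
  have h1 := lr_add (2 * k + 1) 1
  have h2 := lr_add (2 * k) 1
  have e : 2 * k + 1 + 1 = 2 * (k + 1) := by ring
  rw [e] at h1
  constructor <;> linarith

/-- the exponent along sparse even lengths -/
theorem sparse_exp (u : ℕ → ℕ) (hu : Tendsto u atTop atTop)
    (hgap : Tendsto (fun j : ℕ => ((u (j + 1) : ℝ) - u j) / √(u j * Real.log (u j))) atTop (𝓝 0))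
    (β : ℝ) (h : Tendsto (fun j : ℕ => lr (2 * u j) / Real.log (2 * u j)) atTop (𝓝 β)) :
    Tendsto (fun n : ℕ => lr n / Real.log n) atTop (𝓝 β) := by
  obtain ⟨D, hD, hkes⟩ := kes_ys
  obtain ⟨k0, hk0⟩ := hkes (1 / 2) 0
  have h1 := expo hk0 (fun k => (ys_pos 0 k).le) hD (by norm_num) (by norm_num)
    (Eventually.of_forall fun k => ys_pos 0 k) u hu hgap β (by simpa only [lr_ys] using h)
  simp only [lr_ys] at h1
  -- logarithms
  have l1 : Tendsto (fun k : ℕ => Real.log (2 * k : ℝ)) atTop atTop :=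
    Real.tendsto_log_atTop.comp
      ((tendsto_natCast_atTop_atTop (R := ℝ)).const_mul_atTop (by norm_num))
  have l2 : Tendsto (fun k : ℕ => Real.log (2 * k + 1 : ℝ)) atTop atTop :=
    Real.tendsto_log_atTop.comp (tendsto_atTop_add_const_right _ _
      ((tendsto_natCast_atTop_atTop (R := ℝ)).const_mul_atTop (by norm_num)))
  have l3 : Tendsto (fun k : ℕ => Real.log (2 * k + 1 : ℝ) - Real.log (2 * k : ℝ)) atTop
      (𝓝 0) := by
    have t : Tendsto (fun k : ℕ => Real.log ((2 * k + 1 : ℝ) / (2 * k))) atTop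
        (𝓝 (Real.log 1)) := by
      refine Tendsto.log ?_ one_ne_zero
      have := quot_tendsto 1 1
      simpa using this
    rw [Real.log_one] at t
    refine t.congr' ?_
    filter_upwards [eventually_gt_atTop 0] with k hk
    have hk0 : (0 : ℝ) < k := by exact_mod_cast hk
    rw [Real.log_div (by positivity) (by positivity)]
  have l4 : Tendsto (fun k : ℕ => Real.log (2 * (k + 1 : ℕ) : ℝ) - Real.log (2 * k + 1 : ℝ)) atTop
      (𝓝 0) := by
    have t : Tendsto (fun k : ℕ => Real.log ((2 * (k + 1 : ℕ) : ℝ) / (2 * k + 1))) atTop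
        (𝓝 (Real.log 1)) := by
      refine Tendsto.log ?_ one_ne_zero
      have h5 := (quot_tendsto 2 1).div (quot_tendsto 1 1) one_ne_zero
      rw [div_one] at h5
      refine h5.congr' ?_
      filter_upwards [eventually_gt_atTop 0] with k hk
      have hk0 : (0 : ℝ) < k := by exact_mod_cast hk
      simp only [Pi.div_apply, Real.rpow_one]
      push_cast
      field_simp
    rw [Real.log_one] at t
    refine t.congr' ?_
    filter_upwards [eventually_gt_atTop 0] with k hk
    rw [Real.log_div (by positivity) (by positivity)]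
  have q1 : Tendsto (fun k : ℕ => Real.log (2 * k : ℝ) / Real.log (2 * k + 1 : ℝ)) atTop
      (𝓝 1) := by
    have t := (l3.div_atTop l2).const_sub 1
    rw [sub_zero] at t
    refine t.congr' ?_
    filter_upwards [l2.eventually_gt_atTop 0] with k hk
    field_simp
    ring
  have q2 : Tendsto (fun k : ℕ => Real.log (2 * (k + 1 : ℕ) : ℝ) / Real.log (2 * k + 1 : ℝ)) atTop
      (𝓝 1) := by
    have t := (l4.div_atTop l2).const_add 1
    rw [add_zero] at t
    refine t.congr' ?_
    filter_upwards [l2.eventually_gt_atTop 0] with k hk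
    field_simp
    ring
  have z1 : Tendsto (fun k : ℕ => lr 1 / Real.log (2 * k + 1 : ℝ)) atTop (𝓝 0) :=
    tendsto_const_nhds.div_atTop l2
  have a1 : Tendsto (fun k : ℕ => (lr (2 * k) + lr 1) / Real.log (2 * k + 1 : ℝ)) atTop
      (𝓝 β) := by
    have t := (h1.mul q1).add z1
    rw [mul_one, add_zero] at t
    refine t.congr' ?_
    filter_upwards [l1.eventually_gt_atTop 0, l2.eventually_gt_atTop 0] with k h2 h3
    field_simp
  have a2 : Tendsto (fun k : ℕ => (lr (2 * (k + 1)) - lr 1) / Real.log (2 * k + 1 : ℝ)) atTop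
      (𝓝 β) := by
    have h1' := h1.comp (tendsto_add_atTop_nat 1)
    have t := (h1'.mul q2).sub z1
    rw [mul_one, sub_zero] at t
    refine t.congr' ?_
    filter_upwards [(l1.comp (tendsto_add_atTop_nat 1)).eventually_gt_atTop 0,
      l2.eventually_gt_atTop 0] with k h2 h3
    simp only [Function.comp_apply] at h2 ⊢
    field_simp
  have hodd : Tendsto (fun k : ℕ => lr (2 * k + 1) / Real.log (2 * k + 1 : ℝ)) atTop (𝓝 β) := by
    refine tendsto_of_tendsto_of_tendsto_of_le_of_le' a2 a1 ?_ ?_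
    · filter_upwards [l2.eventually_gt_atTop 0] with k h2
      exact div_le_div_of_nonneg_right (lr_odd k).1 h2.le
    · filter_upwards [l2.eventually_gt_atTop 0] with k h2
      exact div_le_div_of_nonneg_right (lr_odd k).2 h2.le
  rw [Metric.tendsto_nhds]
  intro ε hε
  refine both _ fun s hs => ?_
  rcases Nat.le_one_iff_eq_zero_or_eq_one.1 hs with rfl | rfl
  · filter_upwards [Metric.tendsto_nhds.1 h1 ε hε] with k hk
    rw [add_zero]
    push_cast
    exact hk
  · filter_upwards [Metric.tendsto_nhds.1 hodd ε hε] with k hk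
    push_cast
    exact hk

/-- polynomial bounds along sparse even lengths -/
theorem sparse_poly (u : ℕ → ℕ) (hu : Tendsto u atTop atTop) (G B : ℝ)
    (hgap : ∀ᶠ j : ℕ in atTop, (u (j + 1) : ℝ) ≤ u j + G * √(u j * Real.log (u j)))
    (h : ∀ᶠ j : ℕ in atTop, lr (2 * u j) ≤ B * Real.log (2 * u j)) :
    ∃ B' : ℝ, ∀ᶠ n : ℕ in atTop, lr n ≤ B' * Real.log n := by
  obtain ⟨D, hD, hkes⟩ := kes_ys
  obtain ⟨k0, hk0⟩ := hkes (1 / 2) 0
  have hlog0 : ∀ n : ℕ, 0 ≤ Real.log (n : ℝ) := fun n => Real.log_natCast_nonneg n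
  have hlog2 : Real.log 2 ≤ 1 := by
    have := Real.log_two_lt_d9
    linarith
  have hlog2' : 1 / 2 ≤ Real.log 2 := by
    have := Real.log_two_gt_d9
    linarith
  have hE1 : ∀ n : ℕ, (1 : ℝ) ≤ 1 + Real.log n := fun n => by linarith [hlog0 n]
  have hEm : Monotone (fun n : ℕ => 1 + Real.log (n : ℝ)) := by
    intro m n hmn
    rcases Nat.eq_zero_or_pos m with h0 | h0
    · subst h0
      simp only [Nat.cast_zero, Real.log_zero, add_zero]
      exact hE1 n
    · have h1 : (0 : ℝ) < m := by exact_mod_cast h0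
      have h2 : (m : ℝ) ≤ n := by exact_mod_cast hmn
      have := Real.log_le_log h1 h2
      simp only
      linarith
  have hE2 : ∀ n : ℕ, 1 ≤ n → 1 + Real.log ((2 * n : ℕ) : ℝ) ≤ 2 * (1 + Real.log n) := by
    intro n hn
    have h1 : (0 : ℝ) < n := by exact_mod_cast (show 0 < n by omega)
    push_cast
    rw [Real.log_mul (by norm_num) h1.ne']
    linarith [hlog0 n]
  have hEn : Tendsto (fun n : ℕ => (1 + Real.log (n : ℝ)) / n) atTop (𝓝 0) := by
    have h1 := E_one.add log_over
    rw [add_zero] at h1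
    refine h1.congr fun n => ?_
    rw [add_div]
  set τ : ℝ := |B| + 1 with hτ
  set δ : ℝ := |G| + 1 with hδ
  have hτ0 : 0 < τ := by positivity
  have hδ0 : 0 < δ := by positivity
  have h3 := main_fix hk0 (fun k => (ys_pos 0 k).le) hD (by norm_num) (by norm_num)
    (Eventually.of_forall fun k => ys_pos 0 k) (fun n => 1 + Real.log n) hE1 hEm hE2 hEn u hu
    τ δ 0 0 hτ0 hδ0 (by
      filter_upwards [hgap, hu.eventually_gt_atTop 1] with j h4 h5
      have h51 : (1 : ℝ) < u j := by exact_mod_cast h5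
      have h52 : 0 < Real.log (u j : ℝ) := Real.log_pos h51
      have h7 : √(u j * Real.log (u j)) ≤ √(u j * (1 + Real.log (u j))) :=
        Real.sqrt_le_sqrt (mul_le_mul_of_nonneg_left (by linarith) (by positivity))
      have h8 : G * √(u j * Real.log (u j)) ≤ δ * √(u j * (1 + Real.log (u j))) := by
        refine mul_le_mul ?_ h7 (Real.sqrt_nonneg _) hδ0.le
        rw [hδ]
        linarith [le_abs_self G]
      linarith) (by
      filter_upwards [h, hu.eventually_gt_atTop 1] with j h4 h5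
      have h51 : (1 : ℝ) < u j := by exact_mod_cast h5
      have h52 : 0 < Real.log (2 * u j : ℝ) := Real.log_pos (by linarith)
      rw [zero_mul, zero_add, sub_zero, lr_ys, abs_of_nonneg (lr_nonneg _)]
      have h7 : Real.log (2 * u j : ℝ) ≤ 1 + Real.log (u j) := by
        rw [Real.log_mul (by norm_num) (by linarith)]
        linarith
      refine h4.trans (mul_le_mul ?_ h7 h52.le hτ0.le)
      rw [hτ]
      linarith [le_abs_self B])
  set T : ℝ := 9 * τ + 384 * D * δ ^ 2 with hT
  have hT0 : 0 ≤ T := by positivity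
  have hl1 := lr_nonneg 1
  obtain ⟨N, hN⟩ := eventually_atTop.1 h3
  refine ⟨2 * T + lr 1 + lr 1, both _ fun s hs => ?_⟩
  filter_upwards [eventually_ge_atTop (N + 2)] with k hk
  have hk1 : (2 : ℝ) ≤ k := by exact_mod_cast (show 2 ≤ k by omega)
  have h4 := (hN k (by omega)).2
  rw [zero_mul, zero_add, sub_zero, lr_ys, abs_of_nonneg (lr_nonneg _)] at h4
  have h5 : Real.log k ≤ Real.log (((2 * k + s : ℕ) : ℝ)) := by
    apply Real.log_le_log (by linarith)
    exact_mod_cast (by omega : k ≤ 2 * k + s)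
  have h6 : 1 ≤ Real.log (((2 * k + s : ℕ) : ℝ)) := by
    have h7 : Real.log 4 ≤ Real.log (((2 * k + s : ℕ) : ℝ)) := by
      apply Real.log_le_log (by norm_num)
      exact_mod_cast (by omega : 4 ≤ 2 * k + s)
    have h8 : Real.log 4 = 2 * Real.log 2 := by
      rw [show (4 : ℝ) = 2 ^ 2 by norm_num, Real.log_pow]; norm_num
    linarith
  have h7 : lr (2 * k + s) ≤ lr (2 * k) + lr 1 := by
    rcases Nat.le_one_iff_eq_zero_or_eq_one.1 hs with rfl | rfl
    · rw [add_zero]; linarith
    · exact lr_add _ _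
  have h8 : T * (1 + Real.log k) ≤ 2 * T * Real.log (((2 * k + s : ℕ) : ℝ)) := by
    have : 1 + Real.log k ≤ 2 * Real.log (((2 * k + s : ℕ) : ℝ)) := by linarith
    calc T * (1 + Real.log k) ≤ T * (2 * Real.log (((2 * k + s : ℕ) : ℝ))) :=
          mul_le_mul_of_nonneg_left this hT0
      _ = _ := by ring
  have h9 : lr 1 ≤ lr 1 * Real.log (((2 * k + s : ℕ) : ℝ)) := by nlinarith
  nlinarith

end TH966.KO
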