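import Pool.Agent.TH966.KO.Prop

/-!
# Uniform versions of the rates
-/

set_option autoImplicit false

namespace TH966.KO

open Finset Filter Topology TH966.KS

variable {D θ : ℝ}

/-- upper rate, for submultiplicative growth -/
theorem upper_u (k0 : ℕ) (hD : 0 ≤ D) (hθ0 : 0 < θ) (hθ1 : θ < 1)
    {K a : ℝ} (hK0 : 0 ≤ K) (ha1 : a < 1) :
    ∃ R : ℝ, 0 < R ∧ ∀ᶠ k : ℕ in atTop, ∀ y : ℕ → ℝ, Kes y D θ k0 → (∀ k, 0 ≤ y k) → 1 ≤ y k →
      (∀ m : ℕ, y (k + m) ≤ y k * Real.exp (K * (m : ℝ) ^ a)) →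
      y (k + 1) / y k ≤ 1 + R * (k : ℝ) ^ (-((1 - a) / (2 - a))) := by
  set b : ℝ := (1 - a) / (2 - a) with hb
  have h2a : 0 < 2 - a := by linarith
  have hb0 : 0 < b := div_pos (by linarith) h2a
  have hb1 : b < 1 := by rw [hb, div_lt_one h2a]; linarith
  set M : ℝ := 16 * (D + 1) with hM
  have hM0 : 0 < M := by positivity
  set R : ℝ := (4 * K * M ^ (1 - a) + 1) ^ (1 / (2 - a)) with hR
  have hbase : 0 < 4 * K * M ^ (1 - a) + 1 := by positivity
  have hR0 : 0 < R := Real.rpow_pos_of_pos hbase _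
  have hRp : R ^ (2 - a) = 4 * K * M ^ (1 - a) + 1 := by
    rw [hR, ← Real.rpow_mul hbase.le, one_div_mul_cancel h2a.ne', Real.rpow_one]
  refine ⟨R, hR0, ?_⟩
  have t1 : Tendsto (fun k : ℕ => R * (k : ℝ) ^ (-b)) atTop (𝓝 0) := by
    have := ((tendsto_rpow_neg_atTop hb0).comp tendsto_natCast_atTop_atTop).const_mul R
    rw [mul_zero] at this
    exact this
  have t2 : Tendsto (fun k : ℕ => R * (k : ℝ) ^ (1 - b)) atTop atTop :=
    ((tendsto_rpow_atTop (by linarith)).comp tendsto_natCast_atTop_atTop).const_mul_atTop hR0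
  filter_upwards [t1.eventually_lt_const (show (0 : ℝ) < 1 / 2 by norm_num),
    t2.eventually_ge_atTop M, eventually_ge_atTop (k0 + 8)] with k e1 e2 hk y hK hy hy1 hsub
  have hkR : (0 : ℝ) < k := by exact_mod_cast (show 0 < k by omega)
  set c : ℝ := R * (k : ℝ) ^ (-b) with hc
  have hc0 : 0 < c := mul_pos hR0 (Real.rpow_pos_of_pos hkR _)
  have hck : c * k = R * (k : ℝ) ^ (1 - b) := by
    rw [hc, mul_assoc]
    congr 1
    conv_lhs => rw [← Real.rpow_one (k : ℝ), ← Real.rpow_mul hkR.le, one_mul,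
      ← Real.rpow_add hkR]
    congr 1
    ring
  have hyk : 0 < y k := by linarith [hy1]
  by_contra hcon
  have h1 := not_le.1 hcon
  rw [lt_div_iff₀ hyk] at h1
  obtain ⟨J, hJ1, hJ2, hJ3⟩ := prop_up hK hy hD hθ0 hθ1 hc0 e1.le
    (by omega) (by omega) (by rw [hck]; exact e2) hyk
    ((pow_le_one₀ hθ0.le hθ1.le).trans hy1) h1
  have hJR : (1 : ℝ) ≤ J := by exact_mod_cast hJ2
  have hJ0 : (0 : ℝ) < J := by linarith
  have h2 := hJ3.trans (hsub J)
  rw [mul_comm (y k)] at h2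
  have h3 := le_of_mul_le_mul_right h2 hyk
  rw [Real.exp_le_exp] at h3
  have h4 : (J : ℝ) ^ (1 - a) * c ≤ 4 * K := by
    have h5 : (J : ℝ) = (J : ℝ) ^ (1 - a) * (J : ℝ) ^ a := by
      rw [← Real.rpow_add hJ0]; simp
    have h6 : 0 < (J : ℝ) ^ a := Real.rpow_pos_of_pos hJ0 _
    have h7 : ((J : ℝ) ^ (1 - a) * c) * (J : ℝ) ^ a ≤ (4 * K) * (J : ℝ) ^ a := by
      calc ((J : ℝ) ^ (1 - a) * c) * (J : ℝ) ^ a = ((J : ℝ) ^ (1 - a) * (J : ℝ) ^ a) * c := by ring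
        _ = J * c := by rw [← h5]
        _ ≤ _ := by linarith
    exact le_of_mul_le_mul_right h7 h6
  have h8 : (c * k / M) ^ (1 - a) * c ≤ 4 * K := by
    refine le_trans (mul_le_mul_of_nonneg_right ?_ hc0.le) h4
    exact Real.rpow_le_rpow (by positivity) hJ1 (by linarith)
  have h9 : (c * k / M) ^ (1 - a) * c = R ^ (2 - a) / M ^ (1 - a) := by
    rw [Real.div_rpow (by positivity) hM0.le, Real.mul_rpow hc0.le hkR.le]
    have h10 : c ^ (1 - a) * c = c ^ (2 - a) := by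
      conv_lhs => rw [← Real.rpow_one c, ← Real.rpow_mul hc0.le, one_mul, ← Real.rpow_add hc0]
      congr 1
      ring
    have h11 : c ^ (2 - a) = R ^ (2 - a) * (k : ℝ) ^ (-(1 - a)) := by
      rw [hc, Real.mul_rpow hR0.le (Real.rpow_nonneg hkR.le _), ← Real.rpow_mul hkR.le]
      congr 2
      rw [hb]
      field_simp
    have h12 : (k : ℝ) ^ (1 - a) * (k : ℝ) ^ (-(1 - a)) = 1 := by
      rw [← Real.rpow_add hkR]; simp
    calc c ^ (1 - a) * (k : ℝ) ^ (1 - a) / M ^ (1 - a) * c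
        = (c ^ (1 - a) * c) * (k : ℝ) ^ (1 - a) / M ^ (1 - a) := by ring
      _ = R ^ (2 - a) * ((k : ℝ) ^ (1 - a) * (k : ℝ) ^ (-(1 - a))) / M ^ (1 - a) := by
        rw [h10, h11]; ring
      _ = _ := by rw [h12, mul_one]
  rw [h9, div_le_iff₀ (Real.rpow_pos_of_pos hM0 _), hRp] at h8
  linarith

/-- lower rate, for subexponential growth -/
theorem lower_u (k0 : ℕ) (hD : 0 ≤ D) (hθ0 : 0 < θ) (hθ1 : θ < 1)
    {K a : ℝ} (hK0 : 0 ≤ K) (ha0 : 0 < a) (ha1 : a < 1) :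
    ∃ R : ℝ, 0 < R ∧ ∀ᶠ k : ℕ in atTop, ∀ y : ℕ → ℝ, Kes y D θ k0 → (∀ k, 0 ≤ y k) → 1 ≤ y k →
      (∀ m ≤ k, y m ≤ Real.exp (K * (k : ℝ) ^ a)) →
      1 - R * (k : ℝ) ^ (-((1 - a) / 2)) ≤ y (k + 1) / y k := by
  set b : ℝ := (1 - a) / 2 with hb
  have hb0 : 0 < b := div_pos (by linarith) (by norm_num)
  have hb1 : b < 1 := by rw [hb]; linarith
  set M : ℝ := 16 * (D + 1) with hM
  have hM0 : 0 < M := by positivity
  set R : ℝ := √(4 * K * M + 1) with hR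
  have hR0 : 0 < R := Real.sqrt_pos.2 (by positivity)
  have hRp : R ^ 2 = 4 * K * M + 1 := Real.sq_sqrt (by positivity)
  refine ⟨R, hR0, ?_⟩
  have t1 : Tendsto (fun k : ℕ => R * (k : ℝ) ^ (-b)) atTop (𝓝 0) := by
    have := ((tendsto_rpow_neg_atTop hb0).comp tendsto_natCast_atTop_atTop).const_mul R
    rw [mul_zero] at this
    exact this
  have t2 : Tendsto (fun k : ℕ => R * (k : ℝ) ^ (1 - b)) atTop atTop :=
    ((tendsto_rpow_atTop (by linarith)).comp tendsto_natCast_atTop_atTop).const_mul_atTop hR0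
  filter_upwards [t1.eventually_lt_const (show (0 : ℝ) < 1 / 2 by norm_num),
    t2.eventually_ge_atTop M, eventually_ge_atTop (2 * k0 + 8)] with k e1 e2 hk y hK hy hy1 hg
  have hkR : (0 : ℝ) < k := by exact_mod_cast (show 0 < k by omega)
  set c : ℝ := R * (k : ℝ) ^ (-b) with hc
  have hc0 : 0 < c := mul_pos hR0 (Real.rpow_pos_of_pos hkR _)
  have hck : c * k = R * (k : ℝ) ^ (1 - b) := by
    rw [hc, mul_assoc]
    congr 1
    conv_lhs => rw [← Real.rpow_one (k : ℝ), ← Real.rpow_mul hkR.le, one_mul,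
      ← Real.rpow_add hkR]
    congr 1
    ring
  have hyk : 0 < y k := by linarith [hy1]
  by_contra hcon
  have h1 := not_le.1 hcon
  rw [div_lt_iff₀ hyk] at h1
  obtain ⟨J, hJ1, hJ2, hJk, hJ3⟩ := prop_down hK hy hD hθ0 hθ1 hc0
    e1.le (by omega) (by omega) (by rw [hck]; exact e2) hyk
    ((pow_le_one₀ hθ0.le hθ1.le).trans hy1) h1
  have h2 : Real.exp (c / 4 * J) ≤ Real.exp (K * (k : ℝ) ^ a) := by
    refine le_trans ?_ (hg (k - J) (by omega))
    refine le_trans ?_ hJ3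
    exact le_mul_of_one_le_right (Real.exp_pos _).le hy1
  rw [Real.exp_le_exp] at h2
  have h3 : c / 4 * (c * k / M) ≤ K * (k : ℝ) ^ a :=
    le_trans (mul_le_mul_of_nonneg_left hJ1 (by positivity)) h2
  have h4 : c / 4 * (c * k / M) = (R ^ 2 / (4 * M)) * (k : ℝ) ^ a := by
    have h5 : (k : ℝ) ^ (-b) * (k : ℝ) ^ (1 - b) = (k : ℝ) ^ a := by
      rw [← Real.rpow_add hkR]
      congr 1
      rw [hb]; ring
    rw [hck]
    calc c / 4 * (R * (k : ℝ) ^ (1 - b) / M) =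
          (R ^ 2 / (4 * M)) * ((k : ℝ) ^ (-b) * (k : ℝ) ^ (1 - b)) := by rw [hc]; field_simp
      _ = _ := by rw [h5]
  rw [h4, hRp] at h3
  have h6 : 0 < (k : ℝ) ^ a := Real.rpow_pos_of_pos hkR _
  have h7 := le_of_mul_le_mul_right h3 h6
  rw [div_le_iff₀ (by positivity)] at h7
  linarith

end TH966.KO
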