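import Pool.Agent.TH966.KO.WConv
import Pool.Agent.TH966.KO.WRate
import Pool.Agent.TH966.KO.Rates

/-!
# Weighted numbers of self-avoiding walks on `ℤ³`: rates for the ratios, uniformly in the weight
-/

set_option autoImplicit false

namespace TH966.KO

open Finset Filter Topology KN TH966.KS
open scoped Classical

noncomputable section

/-- all self-avoiding words of length `n` -/
def SS (n : ℕ) : Finset (List Dir) := (W n).filter SAW

theorem mem_SS {n : ℕ} {w : List Dir} : w ∈ SS n ↔ w.length = n ∧ SAW w := by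
  unfold SS; rw [mem_filter, mem_W]

theorem card_SS (n : ℕ) : (SS n).card = c n := (BR.c_eq n).symm

/-- the class of weights -/
structure Cls (f : List Dir → ℝ) : Prop where
  nn : ∀ w, SAW w → 0 ≤ f w
  inv : ∀ w, SAP w → ∀ i d, site w i d → f (ins w i d) = f w
  ge : ∀ w, SAW w → 1 ≤ w.length → 1 ≤ f w
  le : ∀ w, SAW w → f w ≤ 2 * ((w.length : ℝ) + 1) ^ 3
  sub : ∀ u m, SAW u → m < u.length → f u ≤ 2 * (1 + (m : ℝ)) ^ 3 * f (u.drop m)

theorem Cls.wt {f : List Dir → ℝ} (hf : Cls f) : Wt f := ⟨fun w hw => hf.nn w hw.2, hf.inv⟩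

/-- weighted number of self-avoiding walks -/
def cf (f : List Dir → ℝ) (n : ℕ) : ℝ := ∑ w ∈ SS n, f w

theorem KT_eq {n : ℕ} (hn : 4 ≤ n) : KT n = SS n := by
  ext w
  rw [mem_KT, mem_SS]
  unfold SAP
  constructor
  · exact fun h => ⟨h.1, h.2.2⟩
  · exact fun h => ⟨h.1, by omega, h.2⟩

theorem af_eq (f : List Dir → ℝ) {n : ℕ} (hn : 4 ≤ n) : af f n = cf f n := by
  unfold af cf; rw [KT_eq hn]

variable {f : List Dir → ℝ}

theorem cf_nonneg (hf : Cls f) (n : ℕ) : 0 ≤ cf f n :=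
  sum_nonneg fun w hw => hf.nn w (mem_SS.1 hw).2

theorem cf_ge (hf : Cls f) {n : ℕ} (hn : 1 ≤ n) : (c n : ℝ) ≤ cf f n := by
  rw [← card_SS, ← nsmul_one, ← sum_const]
  refine sum_le_sum fun w hw => ?_
  obtain ⟨h1, h2⟩ := mem_SS.1 hw
  exact hf.ge w h2 (by omega)

theorem cf_le (hf : Cls f) (n : ℕ) : cf f n ≤ 2 * ((n : ℝ) + 1) ^ 3 * c n := by
  rw [← card_SS, mul_comm, ← nsmul_eq_mul, ← sum_const]
  refine sum_le_sum fun w hw => ?_
  obtain ⟨h1, h2⟩ := mem_SS.1 hw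
  have := hf.le w h2
  rwa [h1] at this

theorem badf_le (hf : Cls f) (n : ℕ) :
    badf f n ≤ 2 * ((n : ℝ) + 1) ^ 3 * bad (fun _ => True) n := by
  unfold badf bad
  rw [mul_comm, ← nsmul_eq_mul, ← sum_const]
  refine sum_le_sum fun w hw => ?_
  obtain ⟨h1, h2⟩ := mem_KT.1 (mem_filter.1 hw).1
  have := hf.le w h2.2
  rwa [h1] at this

theorem saw_drop {u : List Dir} (h : SAW u) (m : ℕ) : SAW (u.drop m) := by
  unfold SAW at h ⊢
  rw [← List.take_append_drop m u, path_append] at h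
  exact (List.nodup_append.1 h).2.1

theorem saw_take {u : List Dir} (h : SAW u) (m : ℕ) : SAW (u.take m) := by
  have h' := h
  unfold SAW at h ⊢
  rw [List.nodup_iff_getElem?_ne_getElem?]
  intro i j hij hj
  have hj' := hj
  rw [path_length, List.length_take] at hj'
  rw [List.getElem?_eq_getElem (by omega), List.getElem?_eq_getElem hj]
  intro he
  rw [Option.some.injEq, path_getElem, path_getElem] at he
  have key : ∀ k, k ≤ m → k ≤ u.length → pos (u.drop k) = pos ((u.take m).drop k) +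
      pos (u.drop m) := by
    intro k hk hk2
    rw [← pos_append]
    congr 1
    conv_lhs => rw [← List.take_append_drop m u]
    rw [List.drop_append_of_le_length (by rw [List.length_take]; omega)]
  have h1 : pos (u.drop i) = pos (u.drop j) := by
    rw [key i (by omega) (by omega), key j (by omega) (by omega), he]
  have := BR.saw_inj h' (by omega) (by omega) h1
  omega

theorem cf_sub (hf : Cls f) {n : ℕ} (hn : 1 ≤ n) (m : ℕ) :
    cf f (n + m) ≤ 2 * (1 + (m : ℝ)) ^ 3 * cf f n * c m := by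
  have h1 : cf f (n + m) ≤ ∑ u ∈ SS (n + m), 2 * (1 + (m : ℝ)) ^ 3 * f (u.drop m) := by
    refine sum_le_sum fun u hu => ?_
    obtain ⟨h1, h2⟩ := mem_SS.1 hu
    exact hf.sub u m h2 (by omega)
  refine h1.trans ?_
  rw [← mul_sum, mul_assoc (2 * (1 + (m : ℝ)) ^ 3)]
  refine mul_le_mul_of_nonneg_left ?_ (by positivity)
  have h2 : cf f n * c m = ∑ p ∈ SS n ×ˢ SS m, f p.1 := by
    rw [sum_product]
    simp only [sum_const, nsmul_eq_mul]
    rw [card_SS]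
    unfold cf
    rw [sum_mul]
    exact sum_congr rfl fun w _ => mul_comm _ _
  rw [h2]
  have h3 : ∑ u ∈ SS (n + m), f (u.drop m) =
      ∑ p ∈ (SS (n + m)).image (fun u => (u.drop m, u.take m)), f p.1 := by
    rw [sum_image]
    intro u _ v _ h
    simp only [Prod.mk.injEq] at h
    rw [← List.take_append_drop m u, ← List.take_append_drop m v, h.1, h.2]
  rw [h3]
  refine sum_le_sum_of_subset_of_nonneg ?_ fun p hp _ => hf.nn _ (mem_SS.1 (mem_product.1 hp).1).2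
  intro p hp
  obtain ⟨u, hu, rfl⟩ := mem_image.1 hp
  obtain ⟨h4, h5⟩ := mem_SS.1 hu
  rw [mem_product, mem_SS, mem_SS]
  refine ⟨⟨?_, saw_drop h5 m⟩, ⟨?_, saw_take h5 m⟩⟩
  · rw [List.length_drop]; omega
  · rw [List.length_take]; omega

/-- polynomial factors -/
theorem poly_exp {a : ℝ} (ha : 0 < a) {k : ℕ} (hk : 1 ≤ k) :
    128 * (k : ℝ) ^ 3 ≤ Real.exp ((5 + 3 / a) * (k : ℝ) ^ a) := by
  have hk0 : (1 : ℝ) ≤ k := by exact_mod_cast hk
  have hk1 : (0 : ℝ) < k := by linarith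
  have h1 : Real.log k ≤ (k : ℝ) ^ a / a := Real.log_le_rpow_div hk1.le ha
  have h2 : (1 : ℝ) ≤ (k : ℝ) ^ a := Real.one_le_rpow hk0 ha.le
  have h3 : (128 : ℝ) ≤ Real.exp 5 := by
    have := Real.exp_one_gt_d9
    have h4 : Real.exp 5 = (Real.exp 1) ^ 5 := by rw [← Real.exp_nat_mul]; norm_num
    rw [h4]
    calc (128 : ℝ) ≤ (2.7 : ℝ) ^ 5 := by norm_num
      _ ≤ _ := pow_le_pow_left₀ (by norm_num) (by linarith) 5
  have h4 : (k : ℝ) ^ 3 = Real.exp (3 * Real.log k) := by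
    rw [mul_comm, Real.exp_mul, Real.exp_log hk1]
    norm_cast
  calc 128 * (k : ℝ) ^ 3 ≤ Real.exp 5 * Real.exp (3 * Real.log k) := by
        rw [← h4]; exact mul_le_mul_of_nonneg_right h3 (by positivity)
    _ = Real.exp (5 + 3 * Real.log k) := by rw [← Real.exp_add]
    _ ≤ _ := by
      refine Real.exp_le_exp.2 ?_
      have : 3 / a * (k : ℝ) ^ a = 3 * ((k : ℝ) ^ a / a) := by ring
      rw [add_mul, this]
      nlinarith

/-- the normalised weighted numbers -/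
def yw (f : List Dir → ℝ) (s k : ℕ) : ℝ := cf f (2 * k + s) / μ ^ (2 * k + s)

theorem yw_nonneg (hf : Cls f) (s k : ℕ) : 0 ≤ yw f s k := by
  have hμ : 0 < μ := by linarith [mu_one]
  exact div_nonneg (cf_nonneg hf _) (pow_pos hμ _).le

theorem yw_one (hf : Cls f) (s : ℕ) {k : ℕ} (hk : 1 ≤ k) : 1 ≤ yw f s k := by
  have hμ : 0 < μ := by linarith [mu_one]
  unfold yw
  rw [one_le_div (pow_pos hμ _)]
  exact (mu_pow _).trans (cf_ge hf (by omega))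

theorem bad_all : ∃ θ C : ℝ, 0 < θ ∧ θ < 1 ∧ 0 ≤ C ∧ ∀ f : List Dir → ℝ, Cls f →
    ∀ n : ℕ, badf f n ≤ C * (θ * μ) ^ n := by
  have hμ : 0 < μ := by linarith [mu_one]
  obtain ⟨θ, C, hθ0, hθ1, hbad⟩ := o_pattern (fun _ => True) invT μ (by linarith [mu_ge]) mu_le
    (fun τ hτ => by
      obtain ⟨C, _, hC⟩ := growth τ hτ
      refine ⟨C, fun n => le_trans ?_ (hC n)⟩
      exact_mod_cast a_le n)
  have hC0 : 0 ≤ C := by
    have := hbad 0
    simp only [pow_zero, mul_one] at this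
    exact le_trans (Nat.cast_nonneg _) this
  set θ' : ℝ := (1 + θ) / 2 with hθ'
  have h1 : θ < θ' := by rw [hθ']; linarith
  have h2 : 0 < θ' := by linarith
  set r : ℝ := θ / θ' with hr
  have hr0 : 0 ≤ r := by positivity
  have hr1 : r < 1 := by rw [hr, div_lt_one h2]; exact h1
  have t : Tendsto (fun n : ℕ => 16 * ((n : ℝ) ^ 3 * r ^ n)) atTop (𝓝 (16 * 0)) :=
    (tendsto_pow_const_mul_const_pow_of_lt_one 3 hr0 hr1).const_mul 16
  obtain ⟨B, hB⟩ := t.bddAbove_range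
  have hB' : ∀ n : ℕ, 16 * ((n : ℝ) ^ 3 * r ^ n) ≤ B := fun n => hB ⟨n, rfl⟩
  have hB0 : 0 ≤ B := by
    have := hB' 0
    simpa using this
  refine ⟨θ', C * (B + 2), h2, by rw [hθ']; linarith, by positivity, fun f hf n => ?_⟩
  refine (badf_le hf n).trans ?_
  have h3 : 2 * ((n : ℝ) + 1) ^ 3 * bad (fun _ => True) n ≤
      2 * ((n : ℝ) + 1) ^ 3 * (C * (θ * μ) ^ n) :=
    mul_le_mul_of_nonneg_left (hbad n) (by positivity)
  refine h3.trans ?_
  have h4 : (θ * μ) ^ n = r ^ n * (θ' * μ) ^ n := by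
    rw [hr, ← mul_pow]; congr 1; field_simp
  have h5 : 2 * ((n : ℝ) + 1) ^ 3 * r ^ n ≤ B + 2 := by
    rcases Nat.eq_zero_or_pos n with h | h
    · subst h
      simp
      linarith
    · have hn1 : (1 : ℝ) ≤ n := by exact_mod_cast h
      have h6 : ((n : ℝ) + 1) ^ 3 ≤ 8 * (n : ℝ) ^ 3 := by
        calc ((n : ℝ) + 1) ^ 3 ≤ (2 * (n : ℝ)) ^ 3 := by gcongr; linarith
          _ = _ := by ring
      have h7 : 0 ≤ r ^ n := pow_nonneg hr0 n
      calc 2 * ((n : ℝ) + 1) ^ 3 * r ^ n ≤ 2 * (8 * (n : ℝ) ^ 3) * r ^ n := by gcongr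
        _ = 16 * ((n : ℝ) ^ 3 * r ^ n) := by ring
        _ ≤ B := hB' n
        _ ≤ _ := by linarith
  calc 2 * ((n : ℝ) + 1) ^ 3 * (C * (θ * μ) ^ n) =
        C * (2 * ((n : ℝ) + 1) ^ 3 * r ^ n) * (θ' * μ) ^ n := by rw [h4]; ring
    _ ≤ C * (B + 2) * (θ' * μ) ^ n := by gcongr

theorem kes_w : ∃ k0 : ℕ, ∀ f : List Dir → ℝ, Cls f → ∀ s : ℕ,
    Kes (yw f s) (10 ^ 9) (1 / 2) k0 := by
  have hμ : 0 < μ := by linarith [mu_one]
  obtain ⟨θ, C, hθ0, hθ1, hC0, hbad⟩ := bad_all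
  have h1 := convexW μ θ ((1 + θ) / 2) C hμ hθ0 (by linarith)
  obtain ⟨N, hN⟩ := eventually_atTop.1 h1
  refine ⟨N + 4, fun f hf s k hk _ => ?_⟩
  have h2 := hN (2 * k + s) (by omega) f hf.wt (hbad f hf)
  rw [af_eq f (show 4 ≤ 2 * k + s + 2 by omega), af_eq f (show 4 ≤ 2 * k + s + 4 by omega),
    af_eq f (show 4 ≤ 2 * k + s by omega)] at h2
  have h3 := h2 ((pow_le_pow_left₀ (by positivity)
    (by nlinarith : (1 + θ) / 2 * μ ≤ μ) _).trans ((mu_pow _).trans (cf_ge hf (by omega))))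
  have hk0 : (0 : ℝ) < k := by exact_mod_cast (show 0 < k by omega)
  have e1 : 2 * k + s + 2 = 2 * (k + 1) + s := by ring
  have e2 : 2 * k + s + 4 = 2 * (k + 2) + s := by ring
  rw [e1, e2] at h3
  have hg : (1 + (10 : ℝ) ^ 9 / ((2 * k + s : ℕ) : ℝ)) ≤ 1 + (10 : ℝ) ^ 9 / k := by
    have : (10 : ℝ) ^ 9 / ((2 * k + s : ℕ) : ℝ) ≤ 10 ^ 9 / k := by
      apply div_le_div_of_nonneg_left (by norm_num) hk0
      push_cast
      have : (0 : ℝ) ≤ s := Nat.cast_nonneg s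
      linarith
    linarith
  have h4 : cf f (2 * (k + 1) + s) ^ 2 ≤
      cf f (2 * k + s) * cf f (2 * (k + 2) + s) * (1 + 10 ^ 9 / k) :=
    h3.trans (mul_le_mul_of_nonneg_left hg (mul_nonneg (cf_nonneg hf _) (cf_nonneg hf _)))
  unfold yw
  have e3 : μ ^ (2 * k + s) * μ ^ (2 * (k + 2) + s) = (μ ^ (2 * (k + 1) + s)) ^ 2 := by
    rw [← pow_add, ← pow_mul]
    congr 1
    ring
  rw [div_pow, div_mul_div_comm, e3, div_mul_eq_mul_div]
  exact div_le_div_of_nonneg_right h4 (by positivity)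

theorem yw_sub {K a : ℝ} (hK0 : 0 ≤ K) (ha : 0 < a)
    (hK : ∀ n : ℕ, (c n : ℝ) ≤ μ ^ n * Real.exp (K * (n : ℝ) ^ a)) (hf : Cls f)
    (s : ℕ) {k : ℕ} (hk : 1 ≤ k) (m : ℕ) :
    yw f s (k + m) ≤ yw f s k * Real.exp ((5 + 3 / a + K * 2 ^ a) * (m : ℝ) ^ a) := by
  have hμ : 0 < μ := by linarith [mu_one]
  rcases Nat.eq_zero_or_pos m with h0 | h0
  · subst h0
    rw [Nat.cast_zero, Real.zero_rpow ha.ne', mul_zero, Real.exp_zero, mul_one, add_zero]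
  have e1 : 2 * (k + m) + s = (2 * k + s) + 2 * m := by ring
  have h1 := cf_sub hf (show 1 ≤ 2 * k + s by omega) (2 * m)
  have h2 := hK (2 * m)
  have h3 : (((2 * m : ℕ) : ℝ)) ^ a = 2 ^ a * (m : ℝ) ^ a := by
    push_cast
    rw [Real.mul_rpow (by norm_num) (Nat.cast_nonneg m)]
  rw [h3] at h2
  have hm1 : (1 : ℝ) ≤ m := by exact_mod_cast h0
  have h4 : 2 * (1 + ((2 * m : ℕ) : ℝ)) ^ 3 ≤ 128 * (m : ℝ) ^ 3 := by
    push_cast
    calc 2 * (1 + 2 * (m : ℝ)) ^ 3 ≤ 2 * (4 * (m : ℝ)) ^ 3 := by gcongr; linarith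
      _ = _ := by ring
  have h5 := h4.trans (poly_exp ha h0)
  unfold yw
  rw [div_le_iff₀ (pow_pos hμ _), e1]
  have hc0 := cf_nonneg hf (2 * k + s)
  calc cf f (2 * k + s + 2 * m) ≤
        2 * (1 + ((2 * m : ℕ) : ℝ)) ^ 3 * cf f (2 * k + s) * c (2 * m) := h1
    _ ≤ Real.exp ((5 + 3 / a) * (m : ℝ) ^ a) * cf f (2 * k + s) *
        (μ ^ (2 * m) * Real.exp (K * (2 ^ a * (m : ℝ) ^ a))) := by
        refine mul_le_mul (mul_le_mul_of_nonneg_right h5 hc0) h2 (Nat.cast_nonneg _) ?_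
        exact mul_nonneg (Real.exp_pos _).le hc0
    _ = cf f (2 * k + s) / μ ^ (2 * k + s) * (Real.exp ((5 + 3 / a) * (m : ℝ) ^ a) *
        Real.exp (K * (2 ^ a * (m : ℝ) ^ a))) * μ ^ (2 * k + s + 2 * m) := by
      rw [pow_add μ (2 * k + s)]
      have := (pow_pos hμ (2 * k + s)).ne'
      field_simp
    _ = _ := by
      rw [← Real.exp_add]
      congr 3
      ring

theorem yw_gr {K a : ℝ} (hK0 : 0 ≤ K) (ha : 0 < a)
    (hK : ∀ n : ℕ, (c n : ℝ) ≤ μ ^ n * Real.exp (K * (n : ℝ) ^ a)) (hf : Cls f)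
    (s k m : ℕ) (hs : s ≤ 1) (hk : 1 ≤ k) (hm : m ≤ k) :
    yw f s m ≤ Real.exp ((5 + 3 / a + K * 3 ^ a) * (k : ℝ) ^ a) := by
  have hμ : 0 < μ := by linarith [mu_one]
  have hk1 : (1 : ℝ) ≤ k := by exact_mod_cast hk
  unfold yw
  rw [div_le_iff₀ (pow_pos hμ _)]
  have h1 : ((2 * m + s : ℕ) : ℝ) ≤ 3 * k := by exact_mod_cast (by omega : 2 * m + s ≤ 3 * k)
  have h2 : ((2 * m + s : ℕ) : ℝ) ^ a ≤ (3 * k : ℝ) ^ a :=
    Real.rpow_le_rpow (Nat.cast_nonneg _) h1 ha.le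
  rw [Real.mul_rpow (by norm_num) (Nat.cast_nonneg k)] at h2
  have h3 : 2 * (((2 * m + s : ℕ) : ℝ) + 1) ^ 3 ≤ 128 * (k : ℝ) ^ 3 := by
    calc 2 * (((2 * m + s : ℕ) : ℝ) + 1) ^ 3 ≤ 2 * (4 * (k : ℝ)) ^ 3 := by gcongr; linarith
      _ = _ := by ring
  calc cf f (2 * m + s) ≤ 2 * (((2 * m + s : ℕ) : ℝ) + 1) ^ 3 * c (2 * m + s) := cf_le hf _
    _ ≤ Real.exp ((5 + 3 / a) * (k : ℝ) ^ a) *
        (μ ^ (2 * m + s) * Real.exp (K * (3 ^ a * (k : ℝ) ^ a))) := by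
        refine mul_le_mul (h3.trans (poly_exp ha hk)) ((hK _).trans ?_) (Nat.cast_nonneg _)
          (Real.exp_pos _).le
        refine mul_le_mul_of_nonneg_left (Real.exp_le_exp.2 ?_) (pow_pos hμ _).le
        exact mul_le_mul_of_nonneg_left h2 hK0
    _ = (Real.exp ((5 + 3 / a) * (k : ℝ) ^ a) * Real.exp (K * (3 ^ a * (k : ℝ) ^ a))) *
        μ ^ (2 * m + s) := by ring
    _ = _ := by
      rw [← Real.exp_add]
      congr 2
      ring

theorem ratio_w (s k : ℕ) : cf f (2 * k + s + 2) / cf f (2 * k + s) =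
    μ ^ 2 * (yw f s (k + 1) / yw f s k) := by
  have hμ : 0 < μ := by linarith [mu_one]
  unfold yw
  have e1 : 2 * (k + 1) + s = 2 * k + s + 2 := by ring
  have h2 := (pow_pos hμ (2 * k + s)).ne'
  rw [e1, pow_add]
  by_cases h1 : cf f (2 * k + s) = 0
  · rw [h1]; simp
  · field_simp

/-- the ratios of the weighted numbers, uniformly in the weight -/
theorem rates_w (ε : ℝ) (hε : 0 < ε) : ∃ K : ℝ, 0 ≤ K ∧ ∀ᶠ n : ℕ in atTop,
    ∀ f : List Dir → ℝ, Cls f →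
      |cf f (n + 2) / cf f n / μ ^ 2 - 1| ≤ K * (n : ℝ) ^ (-(1 / 3 : ℝ) + ε) := by
  have hμ : 0 < μ := by linarith [mu_one]
  set δ : ℝ := min ε (1 / 3) with hδ
  have hδ0 : 0 < δ := lt_min hε (by norm_num)
  have hδ1 : δ ≤ 1 / 3 := min_le_right _ _
  have hδε : δ ≤ ε := min_le_left _ _
  set a : ℝ := 1 / 3 + δ with ha
  have ha0 : 0 < a := by rw [ha]; linarith
  have ha1 : a < 1 := by rw [ha]; linarith
  obtain ⟨K, hK0, hK⟩ := third a (by rw [ha]; linarith)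
  obtain ⟨k0, hkes⟩ := kes_w
  obtain ⟨Ru, hRu0, hRu⟩ := upper_u (D := 10 ^ 9) (θ := 1 / 2) k0 (by norm_num) (by norm_num)
    (by norm_num) (K := 5 + 3 / a + K * 2 ^ a) (a := a) (by positivity) ha1
  obtain ⟨Rl, hRl0, hRl⟩ := lower_u (D := 10 ^ 9) (θ := 1 / 2) k0 (by norm_num) (by norm_num)
    (by norm_num) (K := 5 + 3 / a + K * 3 ^ a) (a := a) (by positivity) ha0 ha1
  set β₁ : ℝ := (1 - a) / (2 - a) with hβ₁
  set β₂ : ℝ := (1 - a) / 2 with hβ₂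
  have h2a : 0 < 2 - a := by linarith
  have hβ₁0 : 0 < β₁ := div_pos (by linarith) h2a
  have hβ₂0 : 0 < β₂ := div_pos (by linarith) (by norm_num)
  have hβ₁g : 1 / 3 - ε ≤ β₁ := by
    refine le_trans (show 1 / 3 - ε ≤ 1 / 3 - δ by linarith) ?_
    rw [hβ₁, le_div_iff₀ h2a, ha]
    nlinarith
  have hβ₂g : 1 / 3 - ε ≤ β₂ := by
    rw [hβ₂, ha]; linarith
  refine ⟨Ru * 3 ^ β₁ + Rl * 3 ^ β₂, by positivity, both _ fun s hs => ?_⟩
  filter_upwards [hRu, hRl, eventually_ge_atTop 1] with k h1 h2 h3 f hf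
  have g1 := h1 (yw f s) (hkes f hf s) (fun k => yw_nonneg hf s k) (yw_one hf s h3)
    (fun m => yw_sub hK0 ha0 hK hf s h3 m)
  have g2 := h2 (yw f s) (hkes f hf s) (fun k => yw_nonneg hf s k) (yw_one hf s h3)
    (fun m hm => yw_gr hK0 ha0 hK hf s k m hs h3 hm)
  rw [ratio_w, mul_div_cancel_left₀ _ (pow_pos hμ 2).ne']
  have hn1 : 1 ≤ 2 * k + s := by omega
  have hn3 : 2 * k + s ≤ 3 * k := by omega
  have hnR : (1 : ℝ) ≤ ((2 * k + s : ℕ) : ℝ) := by exact_mod_cast hn1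
  have c1 := pow_conv hβ₁0 h3 hn3 hn1
  have c2 := pow_conv hβ₂0 h3 hn3 hn1
  have d1 : ((2 * k + s : ℕ) : ℝ) ^ (-β₁) ≤ ((2 * k + s : ℕ) : ℝ) ^ (-(1 / 3 : ℝ) + ε) :=
    Real.rpow_le_rpow_of_exponent_le hnR (by linarith)
  have d2 : ((2 * k + s : ℕ) : ℝ) ^ (-β₂) ≤ ((2 * k + s : ℕ) : ℝ) ^ (-(1 / 3 : ℝ) + ε) :=
    Real.rpow_le_rpow_of_exponent_le hnR (by linarith)
  set x : ℝ := ((2 * k + s : ℕ) : ℝ) ^ (-(1 / 3 : ℝ) + ε) with hx
  have hx0 : 0 ≤ x := by positivity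
  have u1 : Ru * (k : ℝ) ^ (-β₁) ≤ Ru * 3 ^ β₁ * x := by
    calc Ru * (k : ℝ) ^ (-β₁) ≤ Ru * (3 ^ β₁ * x) :=
          mul_le_mul_of_nonneg_left (c1.trans (mul_le_mul_of_nonneg_left d1 (by positivity)))
            hRu0.le
      _ = _ := by ring
  have u2 : Rl * (k : ℝ) ^ (-β₂) ≤ Rl * 3 ^ β₂ * x := by
    calc Rl * (k : ℝ) ^ (-β₂) ≤ Rl * (3 ^ β₂ * x) :=
          mul_le_mul_of_nonneg_left (c2.trans (mul_le_mul_of_nonneg_left d2 (by positivity)))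
            hRl0.le
      _ = _ := by ring
  have v1 : 0 ≤ Ru * 3 ^ β₁ * x := by positivity
  have v2 : 0 ≤ Rl * 3 ^ β₂ * x := by positivity
  rw [abs_le, add_mul]
  constructor <;> linarith

end

end TH966.KO
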