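import Pool.Agent.TH966.KO.Kes

/-!
# Approximate logarithmic convexity, with weights
-/

set_option autoImplicit false

namespace TH966.KO

open Finset Filter Topology KN
open scoped Classical

noncomputable section

/-- all self-avoiding words of length `n` (at least four) -/
def KT (n : ℕ) : Finset (List Dir) := K (fun _ => True) n

theorem invT : Inv (fun _ => True) := fun _ _ _ _ _ => Iff.rfl

theorem mem_KT {n : ℕ} {w : List Dir} : w ∈ KT n ↔ w.length = n ∧ SAP w := by
  unfold KT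
  rw [mem_K, and_true]

/-- a nonnegative weight which does not change under local moves -/
def Wt (f : List Dir → ℝ) : Prop :=
  (∀ w, SAP w → 0 ≤ f w) ∧ ∀ w, SAP w → ∀ i d, site w i d → f (ins w i d) = f w

/-- weighted number of self-avoiding walks -/
def af (f : List Dir → ℝ) (n : ℕ) : ℝ := ∑ w ∈ KT n, f w

/-- weight of the words with few free plaquettes or few bumps -/
def badf (f : List Dir → ℝ) (n : ℕ) : ℝ :=
  ∑ w ∈ (KT n).filter (fun w => 10 ^ 7 * fr w ≤ n ∨ 10 ^ 7 * bu w ≤ n), f w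

namespace CONV

variable {f : List Dir → ℝ}

/-- upper bound for `af f (n+2)` -/
theorem upperW (hf : Wt f) (n : ℕ) (hn : 10 ^ 10 ≤ n) :
    af f (n + 2) ≤ (badf f (n + 2) + 6 * n * badf f n) +
      ∑ w ∈ (KT n).filter (good n), f w * ((fr w : ℝ) / ((bu w : ℝ) - 3)) := by
  set F : List Dir → List Dir → ℝ :=
    fun _ w' => f w' * (if good (n + 2) w' then 1 / (bu w' : ℝ) else 0) with hF
  have hS := o_sum (fun _ => True) invT n (by omega) F
  have h1 : af f (n + 2) ≤ badf f (n + 2) +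
      ∑ w ∈ KT (n + 2), ∑ j ∈ bumps w, F (rem w j) w := by
    have e2 : badf f (n + 2) =
        ∑ w ∈ KT (n + 2), (if ¬ good (n + 2) w then f w else 0) := by
      unfold badf
      rw [← sum_filter]
      refine Finset.sum_congr ?_ fun _ _ => rfl
      apply filter_congr
      intro w _
      rw [not_good]
    unfold af
    rw [e2, ← sum_add_distrib]
    apply sum_le_sum
    intro w hw
    have hw0 := hf.1 w (mem_KT.1 hw).2
    by_cases hg : good (n + 2) w
    · have hb : 0 < bu w := by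
        have h2 : n + 2 < 10 ^ 7 * bu w := hg.2
        omega
      rw [if_neg (not_not.mpr hg), zero_add]
      simp only [hF, if_pos hg]
      rw [← mul_sum, sum_inv_eq w hb, mul_one]
    · rw [if_pos hg]
      simp only [hF, if_neg hg]
      simp
  change ∑ w ∈ KT n, ∑ q ∈ sites w, F w (ins w q.1 q.2) =
    ∑ w ∈ KT (n + 2), ∑ j ∈ bumps w, F (rem w j) w at hS
  rw [← hS] at h1
  refine h1.trans ?_
  rw [add_assoc]
  refine add_le_add le_rfl ?_
  have h2 : ∀ w ∈ KT n, ∑ q ∈ sites w, F w (ins w q.1 q.2) ≤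
      (if ¬ good n w then (6 * n : ℝ) * f w else 0) +
        (if good n w then f w * ((fr w : ℝ) / ((bu w : ℝ) - 3)) else 0) := by
    intro w hw
    rw [mem_KT] at hw
    have hw0 := hf.1 w hw.2
    have hFe : ∀ q ∈ sites w, F w (ins w q.1 q.2) =
        f w * (if good (n + 2) (ins w q.1 q.2) then 1 / (bu (ins w q.1 q.2) : ℝ) else 0) := by
      intro q hq
      simp only [hF]
      rw [hf.2 w hw.2 q.1 q.2 (mem_sites.mp hq)]
    rw [sum_congr rfl hFe, ← mul_sum]
    by_cases hg : good n w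
    · rw [if_neg (not_not.mpr hg), if_pos hg, zero_add]
      refine mul_le_mul_of_nonneg_left ?_ hw0
      have hb : 1000 < bu w := by
        have := hg.2; omega
      have hb' : (1000 : ℝ) < bu w := by exact_mod_cast hb
      have : ∀ q ∈ sites w, (if good (n + 2) (ins w q.1 q.2) then
          1 / (bu (ins w q.1 q.2) : ℝ) else 0) ≤ 1 / ((bu w : ℝ) - 3) := by
        intro q hq
        have hs : site w q.1 q.2 := mem_sites.mp hq
        have := (S_change_proof w q.1 q.2 hw.2 hs).2.2.2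
        have h3 : (bu w : ℝ) ≤ bu (ins w q.1 q.2) + 3 := by exact_mod_cast this
        split_ifs
        · apply one_div_le_one_div_of_le <;> linarith
        · apply one_div_nonneg.mpr; linarith
      refine (sum_le_sum this).trans ?_
      rw [sum_const, nsmul_eq_mul, mul_one_div]
      rfl
    · rw [if_pos hg, if_neg hg, add_zero, mul_comm (6 * (n : ℝ))]
      refine mul_le_mul_of_nonneg_left ?_ hw0
      have hle : ∀ q ∈ sites w, (if good (n + 2) (ins w q.1 q.2) then
          1 / (bu (ins w q.1 q.2) : ℝ) else 0) ≤ 1 := by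
        intro q _
        split_ifs
        · exact inv_le_one _
        · norm_num
      refine (sum_le_sum hle).trans ?_
      rw [sum_const, nsmul_eq_mul, mul_one]
      have := fr_le w
      rw [hw.1] at this
      have h3 : ((sites w).card : ℝ) ≤ 6 * n := by exact_mod_cast this
      exact h3
  refine (sum_le_sum h2).trans ?_
  rw [sum_add_distrib, ← sum_filter, ← sum_filter, ← mul_sum]
  refine add_le_add (le_of_eq ?_) le_rfl
  congr 1
  unfold badf
  refine Finset.sum_congr ?_ fun _ _ => rfl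
  apply filter_congr
  intro w _
  rw [not_good]

/-- lower bound for `af f (n+4)` -/
theorem lowerW (hf : Wt f) (n : ℕ) (hn : 10 ^ 10 ≤ n) :
    ∑ w ∈ (KT n).filter (good n), f w * ((fr w : ℝ) * ((fr w : ℝ) - 28) /
      (((bu w : ℝ) + 5) * ((bu w : ℝ) + 10))) ≤ af f (n + 4) := by
  set h : List Dir → ℝ := fun w' =>
    ∑ j ∈ bumps w', (if good n (rem w' j) then (1 / (bu w') : ℝ) else 0) with hh
  set g : List Dir → ℝ := fun w' => ∑ q ∈ sites w', (1 / (bu (ins w' q.1 q.2)) : ℝ) with hg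
  have h_nonneg : ∀ w, 0 ≤ h w := by
    intro w; apply sum_nonneg; intro j _; split_ifs <;> positivity
  have h_le : ∀ w, h w ≤ 1 := by
    intro w
    refine le_trans ?_ (sum_inv_le w)
    apply sum_le_sum
    intro j _
    split_ifs
    · exact le_rfl
    · positivity
  have s1 : ∑ w ∈ KT (n + 4), ∑ j ∈ bumps w, f w * (h (rem w j) * (1 / (bu w) : ℝ)) ≤
      af f (n + 4) := by
    unfold af
    apply sum_le_sum
    intro w hw
    have hw0 := hf.1 w (mem_KT.1 hw).2
    rw [← mul_sum]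
    refine (mul_le_mul_of_nonneg_left ?_ hw0).trans (le_of_eq (mul_one _))
    refine le_trans ?_ (sum_inv_le w)
    apply sum_le_sum
    intro j _
    calc h (rem w j) * (1 / (bu w) : ℝ) ≤ 1 * (1 / (bu w) : ℝ) :=
          mul_le_mul_of_nonneg_right (h_le _) (by positivity)
      _ = _ := one_mul _
  have s2 := o_sum (fun _ => True) invT (n + 2) (by omega)
    (fun w' w'' => f w'' * (h w' * (1 / (bu w'') : ℝ)))
  have s3 := o_sum (fun _ => True) invT n (by omega)
    (fun w w' => f w' * ((if good n w then (1 / (bu w') : ℝ) else 0) * g w'))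
  refine le_trans ?_ s1
  have e2 : n + 2 + 2 = n + 4 := by ring
  rw [e2] at s2
  change ∑ w ∈ KT (n + 2), ∑ q ∈ sites w, f (ins w q.1 q.2) *
      (h w * (1 / (bu (ins w q.1 q.2)) : ℝ)) =
    ∑ w ∈ KT (n + 4), ∑ j ∈ bumps w, f w * (h (rem w j) * (1 / (bu w) : ℝ)) at s2
  change ∑ w ∈ KT n, ∑ q ∈ sites w, f (ins w q.1 q.2) *
      ((if good n w then (1 / (bu (ins w q.1 q.2)) : ℝ) else 0) * g (ins w q.1 q.2)) =
    ∑ w ∈ KT (n + 2), ∑ j ∈ bumps w, f w *
      ((if good n (rem w j) then (1 / (bu w) : ℝ) else 0) * g w) at s3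
  rw [← s2]
  have s4 : ∑ w ∈ KT (n + 2), ∑ q ∈ sites w, f (ins w q.1 q.2) *
      (h w * (1 / (bu (ins w q.1 q.2)) : ℝ)) =
      ∑ w ∈ KT (n + 2), ∑ j ∈ bumps w,
        f w * ((if good n (rem w j) then (1 / (bu w) : ℝ) else 0) * g w) := by
    apply sum_congr rfl
    intro w hw
    have e5 : ∀ q ∈ sites w, f (ins w q.1 q.2) * (h w * (1 / (bu (ins w q.1 q.2)) : ℝ)) =
        f w * (h w * (1 / (bu (ins w q.1 q.2)) : ℝ)) := by
      intro q hq
      rw [hf.2 w (mem_KT.1 hw).2 q.1 q.2 (mem_sites.mp hq)]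
    rw [sum_congr rfl e5, ← mul_sum, ← mul_sum, ← mul_sum, ← sum_mul]
  rw [s4, ← s3, sum_filter]
  apply sum_le_sum
  intro w hw
  rw [mem_KT] at hw
  have hw0 := hf.1 w hw.2
  have e6 : ∀ q ∈ sites w, f (ins w q.1 q.2) *
      ((if good n w then (1 / (bu (ins w q.1 q.2)) : ℝ) else 0) * g (ins w q.1 q.2)) =
      f w * ((if good n w then (1 / (bu (ins w q.1 q.2)) : ℝ) else 0) * g (ins w q.1 q.2)) := by
    intro q hq
    rw [hf.2 w hw.2 q.1 q.2 (mem_sites.mp hq)]
  rw [sum_congr rfl e6, ← mul_sum]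
  by_cases hgw : good n w
  · rw [if_pos hgw]
    refine mul_le_mul_of_nonneg_left ?_ hw0
    simp only [if_pos hgw]
    have hb : 1000 < bu w := by
      have := hgw.2; omega
    have hf' : 1000 < fr w := by
      have := hgw.1; omega
    have hb' : (1000 : ℝ) < bu w := by exact_mod_cast hb
    have hf'' : (1000 : ℝ) < fr w := by exact_mod_cast hf'
    have key : ∀ q ∈ sites w, ((fr w : ℝ) - 28) / (((bu w : ℝ) + 5) * ((bu w : ℝ) + 10)) ≤
        (1 / (bu (ins w q.1 q.2)) : ℝ) * g (ins w q.1 q.2) := by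
      intro q hq
      have hs : site w q.1 q.2 := mem_sites.mp hq
      obtain ⟨c1, c2, c3, c4⟩ := S_change_proof w q.1 q.2 hw.2 hs
      obtain ⟨i1, i2, i3, i4, i5⟩ := S_ins_proof w q.1 q.2 hw.2 hs
      set w' := ins w q.1 q.2 with hw'
      have c1' : (fr w : ℝ) ≤ fr w' + 28 := by exact_mod_cast c1
      have c3' : (bu w' : ℝ) ≤ bu w + 5 := by exact_mod_cast c3
      have c4' : (bu w : ℝ) ≤ bu w' + 3 := by exact_mod_cast c4
      have hpos : (0 : ℝ) < bu w' := by linarith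
      have hg1 : ((fr w : ℝ) - 28) / ((bu w : ℝ) + 10) ≤ g w' := by
        have : ∀ q' ∈ sites w', 1 / ((bu w : ℝ) + 10) ≤ (1 / (bu (ins w' q'.1 q'.2)) : ℝ) := by
          intro q' hq'
          have hs' : site w' q'.1 q'.2 := mem_sites.mp hq'
          obtain ⟨d1, d2, d3, d4⟩ := S_change_proof w' q'.1 q'.2 i1 hs'
          have d3' : (bu (ins w' q'.1 q'.2) : ℝ) ≤ bu w' + 5 := by exact_mod_cast d3
          have d4' : (bu w' : ℝ) ≤ bu (ins w' q'.1 q'.2) + 3 := by exact_mod_cast d4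
          apply one_div_le_one_div_of_le <;> linarith
        calc ((fr w : ℝ) - 28) / ((bu w : ℝ) + 10)
            ≤ (fr w' : ℝ) * (1 / ((bu w : ℝ) + 10)) := by
              rw [mul_one_div]
              apply div_le_div_of_nonneg_right <;> linarith
          _ = ∑ q' ∈ sites w', 1 / ((bu w : ℝ) + 10) := by
              rw [sum_const, nsmul_eq_mul]; rfl
          _ ≤ g w' := sum_le_sum this
      have hb1 : 1 / ((bu w : ℝ) + 5) ≤ (1 / (bu w') : ℝ) := by
        apply one_div_le_one_div_of_le <;> linarith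
      calc ((fr w : ℝ) - 28) / (((bu w : ℝ) + 5) * ((bu w : ℝ) + 10))
          = (1 / ((bu w : ℝ) + 5)) * (((fr w : ℝ) - 28) / ((bu w : ℝ) + 10)) := by
            field_simp
        _ ≤ (1 / (bu w') : ℝ) * g w' := by
            apply mul_le_mul hb1 hg1
            · apply div_nonneg <;> linarith
            · positivity
    calc (fr w : ℝ) * ((fr w : ℝ) - 28) / (((bu w : ℝ) + 5) * ((bu w : ℝ) + 10))
        = ∑ q ∈ sites w, ((fr w : ℝ) - 28) / (((bu w : ℝ) + 5) * ((bu w : ℝ) + 10)) := by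
          rw [sum_const, nsmul_eq_mul, ← mul_div_assoc]; rfl
      _ ≤ _ := sum_le_sum key
  · rw [if_neg hgw]
    refine mul_nonneg hw0 ?_
    apply sum_nonneg
    intro q _
    rw [if_neg hgw, zero_mul]

end CONV

/-- approximate logarithmic convexity, uniformly in the weight -/
theorem convexW (μ θ θ₁ C : ℝ) (hμ : 0 < μ) (hθ : 0 < θ) (hθ₁ : θ < θ₁) :
    ∀ᶠ n : ℕ in atTop, ∀ f : List Dir → ℝ, Wt f → (∀ n : ℕ, badf f n ≤ C * (θ * μ) ^ n) →
    (θ₁ * μ) ^ (n + 2) ≤ af f (n + 2) →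
    af f (n + 2) ^ 2 ≤ af f n * af f (n + 4) * (1 + 10 ^ 9 / n) := by
  filter_upwards [CONV.errors μ θ θ₁ C hμ hθ hθ₁, eventually_ge_atTop (10 ^ 10)]
    with n hk1 hk2 f hf hbad hbig
  have hn' : (10 : ℝ) ^ 10 ≤ n := by exact_mod_cast hk2
  have hn0 : (0 : ℝ) < n := by linarith
  have up := CONV.upperW hf n hk2
  have lo := CONV.lowerW hf n hk2
  have hpos : ∀ m, 0 ≤ af f m := fun m => sum_nonneg fun w hw => hf.1 w (mem_KT.1 hw).2
  set G := (KT n).filter (CONV.good n) with hG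
  have hf0 : ∀ w ∈ G, 0 ≤ f w := fun w hw => hf.1 w (mem_KT.1 (mem_filter.1 hw).1).2
  set S1 : ℝ := ∑ w ∈ G, f w * ((fr w : ℝ) / (bu w : ℝ)) with hS1
  set S2 : ℝ := ∑ w ∈ G, f w * ((fr w : ℝ) / (bu w : ℝ)) ^ 2 with hS2
  have hgood : ∀ w ∈ G, (n : ℝ) < 10 ^ 7 * fr w ∧ (n : ℝ) < 10 ^ 7 * bu w := by
    intro w hw
    have := (mem_filter.mp hw).2
    exact ⟨by exact_mod_cast this.1, by exact_mod_cast this.2⟩
  have hS2' : 0 ≤ S2 := by
    apply sum_nonneg; intro w hw
    exact mul_nonneg (hf0 w hw) (by positivity)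
  have hcs : S1 ^ 2 ≤ af f n * S2 := by
    have h1 : S1 ^ 2 ≤ (∑ w ∈ G, f w) * S2 := by
      have h2 := Finset.sum_mul_sq_le_sq_mul_sq G (fun w => √(f w))
        (fun w => √(f w) * ((fr w : ℝ) / (bu w : ℝ)))
      have e1 : ∑ w ∈ G, √(f w) * (√(f w) * ((fr w : ℝ) / (bu w : ℝ))) = S1 := by
        rw [hS1]
        refine Finset.sum_congr rfl fun w hw => ?_
        rw [← mul_assoc, Real.mul_self_sqrt (hf0 w hw)]
      have e2 : ∑ w ∈ G, √(f w) ^ 2 = ∑ w ∈ G, f w :=
        Finset.sum_congr rfl fun w hw => Real.sq_sqrt (hf0 w hw)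
      have e3 : ∑ w ∈ G, (√(f w) * ((fr w : ℝ) / (bu w : ℝ))) ^ 2 = S2 := by
        rw [hS2]
        refine Finset.sum_congr rfl fun w hw => ?_
        rw [mul_pow, Real.sq_sqrt (hf0 w hw)]
      rw [e1, e2, e3] at h2
      exact h2
    refine h1.trans ?_
    apply mul_le_mul_of_nonneg_right _ hS2'
    exact sum_le_sum_of_subset_of_nonneg (filter_subset _ _)
      fun w hw _ => hf.1 w (mem_KT.1 hw).2
  have u1 : af f (n + 2) - (badf f (n + 2) + 6 * n * badf f n) ≤
      (1 + 6 * 10 ^ 7 / n) * S1 := by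
    have : ∑ w ∈ G, f w * ((fr w : ℝ) / ((bu w : ℝ) - 3)) ≤ (1 + 6 * 10 ^ 7 / n) * S1 := by
      rw [hS1, mul_sum]
      apply sum_le_sum
      intro w hw
      have h3 := CONV.term1 (fr w : ℝ) (bu w : ℝ) n hn' (by positivity) (hgood w hw).2
      calc f w * ((fr w : ℝ) / ((bu w : ℝ) - 3)) ≤
            f w * ((1 + 6 * 10 ^ 7 / n) * ((fr w : ℝ) / (bu w : ℝ))) :=
            mul_le_mul_of_nonneg_left h3 (hf0 w hw)
        _ = _ := by ring
    linarith
  have u2 : (1 - 43 * 10 ^ 7 / n) * S2 ≤ af f (n + 4) := by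
    refine le_trans ?_ lo
    rw [hS2, mul_sum]
    apply sum_le_sum
    intro w hw
    have h3 := CONV.term2 (fr w : ℝ) (bu w : ℝ) n hn' (hgood w hw).1 (hgood w hw).2
    calc (1 - 43 * 10 ^ 7 / (n : ℝ)) * (f w * ((fr w : ℝ) / (bu w : ℝ)) ^ 2) =
          f w * ((1 - 43 * 10 ^ 7 / n) * ((fr w : ℝ) / (bu w : ℝ)) ^ 2) := by ring
      _ ≤ _ := mul_le_mul_of_nonneg_left h3 (hf0 w hw)
  have u3 : (badf f (n + 2) + 6 * n * badf f n : ℝ) ≤ af f (n + 2) / n := by
    rw [le_div_iff₀ hn0]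
    have b1 := hbad (n + 2)
    have b2 := hbad n
    calc (badf f (n + 2) + 6 * n * badf f n : ℝ) * n
        ≤ (C * (θ * μ) ^ (n + 2) + 6 * n * (C * (θ * μ) ^ n)) * n := by
          apply mul_le_mul_of_nonneg_right _ hn0.le
          apply add_le_add b1
          exact mul_le_mul_of_nonneg_left b2 (by positivity)
      _ = n * (C * (θ * μ) ^ (n + 2) + 6 * n * (C * (θ * μ) ^ n)) := mul_comm _ _
      _ ≤ (θ₁ * μ) ^ (n + 2) := hk1
      _ ≤ _ := hbig
  exact CONV.fin_ineq (af f n) (af f (n + 2)) (af f (n + 4))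
    (badf f (n + 2) + 6 * n * badf f n) S1 S2 n hn' (hpos _) (hpos _)
    (sum_nonneg (fun w hw => mul_nonneg (hf0 w hw) (by positivity))) hcs u1 u3 u2 (hpos _)

end

end TH966.KO
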