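import Pool.Agent.TH966.KO.WCls

/-!
# The end point of the self-avoiding walk on `ℤ³`
-/

set_option autoImplicit false

namespace TH966.KO

open Finset Filter Topology KN TH966.KS BR
open scoped Classical

noncomputable section

/-- `ω` is an `n`-step self-avoiding walk on `ℤ³` started at the origin. -/
def IsSAW (n : ℕ) (ω : Fin (n + 1) → Fin 3 → ℤ) : Prop :=
  ω 0 = 0 ∧ (∀ i : Fin n, ∑ j, |ω i.succ j - ω i.castSucc j| = 1) ∧ Function.Injective ω

/-- the mean of `G (ω(n))` over the `n`-step self-avoiding walks -/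
def mean (n : ℕ) (G : (Fin 3 → ℤ) → ℝ) : ℝ :=
  (∑ᶠ ω ∈ {ω | IsSAW n ω}, G (ω (Fin.last n))) / ({ω | IsSAW n ω}.ncard : ℝ)

/-- the Euclidean norm -/
def norm2 (x : Fin 3 → ℤ) : ℝ := Real.sqrt (∑ j, (x j : ℝ) ^ 2)

/-- the walk of a word -/
def wk (n : ℕ) (w : List Dir) : Fin (n + 1) → Fin 3 → ℤ :=
  fun i => Pool.Agent.H46R2.K3.pos (T w) i

theorem wk_last {n : ℕ} {w : List Dir} (hw : w.length = n) : wk n w (Fin.last n) = E (pos w) := by
  unfold wk
  rw [T_pos, Fin.val_last, hw, Nat.sub_self, List.drop_zero]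

theorem bij (n : ℕ) : Set.BijOn (wk n) (SS n : Set (List Dir)) {ω | IsSAW n ω} := by
  refine ⟨?_, ?_, ?_⟩
  · intro w hw
    obtain ⟨hlen, hsaw⟩ := mem_SS.1 (Finset.mem_coe.1 hw)
    rw [saw_iff] at hsaw
    have hl : (T w).length = n := by rw [T_length, hlen]
    refine ⟨?_, ?_, ?_⟩
    · simp [wk, Pool.Agent.H46R2.K3.P.eq_pos_zero]
    · intro i
      have h1 : ∀ j, wk n w i.succ j - wk n w i.castSucc j =
          Pool.Agent.H46R2.K3.vec ((T w)[(i : ℕ)]'(by omega)) j := by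
        intro j
        have h2 := Pool.Agent.H46R2.K3.P.eq_pos_succ (w := T w) (k := i) (by omega)
        unfold wk
        rw [Fin.val_succ, Fin.val_castSucc, h2]
        simp
      simp only [h1]
      exact Pool.Agent.H46R2.K3.P.eq_vec_norm _
    · intro i j hij
      by_contra hne
      rcases lt_or_gt_of_ne hne with h | h
      · exact hsaw i j h (by omega) hij
      · exact hsaw j i h (by omega) hij.symm
  · intro w hw w' hw' h
    obtain ⟨hlen, hsaw⟩ := mem_SS.1 (Finset.mem_coe.1 hw)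
    obtain ⟨hlen', hsaw'⟩ := mem_SS.1 (Finset.mem_coe.1 hw')
    apply T_inj
    refine Pool.Agent.H46R2.K3.P.eq_ext (n := n) (by rw [T_length, hlen])
      (by rw [T_length, hlen']) fun k hk => ?_
    exact congrFun h ⟨k, by omega⟩
  · rintro ω ⟨h0, h1, hinj⟩
    obtain ⟨v, hlen, hv⟩ := Pool.Agent.H46R2.K3.P.eq_exists_word ω h0 h1
    obtain ⟨w, rfl⟩ := T_surj v
    rw [T_length] at hlen
    refine ⟨w, ?_, ?_⟩
    · rw [Finset.mem_coe, mem_SS, saw_iff]
      refine ⟨hlen, fun i j hij hj h => ?_⟩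
      rw [T_length] at hj
      have e1 := hv ⟨i, by omega⟩
      have e2 := hv ⟨j, by omega⟩
      simp only at e1 e2
      rw [e1, e2] at h
      have := hinj h
      rw [Fin.mk.injEq] at this
      omega
    · funext i
      exact hv i

theorem ncard_eq (n : ℕ) : {ω | IsSAW n ω}.ncard = c n := by
  rw [← (bij n).image_eq, Set.ncard_image_of_injOn (bij n).injOn, Set.ncard_coe_finset, card_SS]

theorem mean_eq (n : ℕ) (G : (Fin 3 → ℤ) → ℝ) :
    mean n G = cf (fun w => G (E (pos w))) n / c n := by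
  unfold mean
  rw [ncard_eq]
  congr 1
  rw [← finsum_mem_eq_of_bijOn (f := fun w => G (E (pos w))) (wk n) (bij n) ?_,
    finsum_mem_coe_finset]
  · rfl
  · intro w hw
    rw [wk_last (mem_SS.1 (Finset.mem_coe.1 hw)).1]

/-! ### the norm -/

theorem norm2_eq (x : Fin 3 → ℤ) :
    norm2 x = ‖(WithLp.toLp 2 (fun j => (x j : ℝ)) : EuclideanSpace ℝ (Fin 3))‖ := by
  unfold norm2
  rw [EuclideanSpace.norm_eq]
  simp

theorem norm2_add (x y : Fin 3 → ℤ) : norm2 (x + y) ≤ norm2 x + norm2 y := by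
  rw [norm2_eq, norm2_eq, norm2_eq]
  have : (WithLp.toLp 2 (fun j => ((x + y) j : ℝ)) : EuclideanSpace ℝ (Fin 3)) =
      WithLp.toLp 2 (fun j => (x j : ℝ)) + WithLp.toLp 2 (fun j => (y j : ℝ)) := by
    rw [← WithLp.toLp_add]
    congr 1
    funext j
    simp
  rw [this]
  exact norm_add_le _ _

theorem norm2_nonneg (x : Fin 3 → ℤ) : 0 ≤ norm2 x := Real.sqrt_nonneg _

theorem norm2_one_le {x : Fin 3 → ℤ} (h : x ≠ 0) : 1 ≤ norm2 x := by
  obtain ⟨j, hj⟩ : ∃ j, x j ≠ 0 := by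
    by_contra hc
    push Not at hc
    exact h (funext hc)
  unfold norm2
  rw [Real.one_le_sqrt]
  have h1 : (1 : ℝ) ≤ (x j : ℝ) ^ 2 := by
    have : (1 : ℤ) ≤ (x j) ^ 2 := by
      have := Int.one_le_abs hj
      nlinarith [sq_abs (x j)]
    exact_mod_cast this
  exact h1.trans (Finset.single_le_sum (f := fun j => (x j : ℝ) ^ 2)
    (fun _ _ => sq_nonneg _) (Finset.mem_univ j))

theorem norm2_vec (d : Dir) : norm2 (E (vec d)) = 1 := by
  unfold norm2
  rw [Fin.sum_univ_three]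
  cases d <;> simp [E, vec]

theorem norm2_le (w : List Dir) : norm2 (E (pos w)) ≤ w.length := by
  induction w with
  | nil => simp [pos, E_zero, norm2]
  | cons d w ih =>
    rw [pos, E_add, List.length_cons]
    push_cast
    have := norm2_add (E (pos w)) (E (vec d))
    rw [norm2_vec] at this
    linarith

theorem pos_ne {w : List Dir} (h : SAW w) (h1 : 1 ≤ w.length) : E (pos w) ≠ 0 := by
  intro h2
  rw [← E_zero] at h2
  have h3 := E_inj h2
  have h4 : pos (w.drop 0) = pos (w.drop w.length) := by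
    rw [List.drop_zero, List.drop_length, h3]; rfl
  have := saw_inj h (by omega) le_rfl h4
  omega

theorem pos_ins (w : List Dir) (i : ℕ) (d : Dir) (hi : i < w.length) :
    pos (ins w i d) = pos w := by
  have h1 : w = w.take i ++ (w.getD i .xp :: w.drop (i + 1)) := by
    conv_lhs => rw [← List.take_append_drop i w]
    rw [List.getD_eq_getElem _ _ hi, List.drop_eq_getElem_cons hi]
  conv_rhs => rw [h1]
  unfold ins
  simp only [pos_append, pos, vec_neg]
  abel

theorem norm2_drop (u : List Dir) (m : ℕ) (hm : m ≤ u.length) :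
    norm2 (E (pos u)) ≤ norm2 (E (pos (u.drop m))) + m := by
  have h1 : pos u = pos (u.drop m) + pos (u.take m) := by
    conv_lhs => rw [← List.take_append_drop m u]
    rw [pos_append, add_comm]
  rw [h1, E_add]
  have h2 := norm2_le (u.take m)
  rw [List.length_take, min_eq_left hm] at h2
  linarith [norm2_add (E (pos (u.drop m))) (E (pos (u.take m)))]

/-! ### the weights -/

/-- the weight `|ω(n)|^p` -/
def wp (p : ℝ) (w : List Dir) : ℝ := norm2 (E (pos w)) ^ p

theorem cls_wp {p : ℝ} (hp : 0 ≤ p) (hp3 : p ≤ 3) : Cls (wp p) where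
  nn := fun w _ => Real.rpow_nonneg (norm2_nonneg _) _
  inv := fun w _ i d hs => by
    unfold wp
    rw [pos_ins w i d hs.1]
  ge := fun w h h1 => Real.one_le_rpow (norm2_one_le (pos_ne h h1)) hp
  le := fun w h => by
    have h1 := norm2_le w
    have h2 : norm2 (E (pos w)) ≤ (w.length : ℝ) + 1 := by linarith
    have h3 : (1 : ℝ) ≤ (w.length : ℝ) + 1 := by
      have : (0 : ℝ) ≤ w.length := Nat.cast_nonneg _
      linarith
    have h4 : wp p w ≤ ((w.length : ℝ) + 1) ^ (3 : ℕ) := by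
      calc wp p w ≤ ((w.length : ℝ) + 1) ^ p := Real.rpow_le_rpow (norm2_nonneg _) h2 hp
        _ ≤ ((w.length : ℝ) + 1) ^ (3 : ℝ) := Real.rpow_le_rpow_of_exponent_le h3 hp3
        _ = _ := by norm_cast
    have h5 : 0 ≤ ((w.length : ℝ) + 1) ^ 3 := by positivity
    linarith
  sub := fun u m h hm => by
    have h1 := norm2_drop u m hm.le
    have h2 : 1 ≤ norm2 (E (pos (u.drop m))) :=
      norm2_one_le (pos_ne (saw_drop h m) (by rw [List.length_drop]; omega))
    have hm0 : (0 : ℝ) ≤ m := Nat.cast_nonneg m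
    have h3 : norm2 (E (pos u)) ≤ (1 + (m : ℝ)) * norm2 (E (pos (u.drop m))) := by nlinarith
    have h4 : wp p u ≤ (1 + (m : ℝ)) ^ p * wp p (u.drop m) := by
      unfold wp
      rw [← Real.mul_rpow (by linarith) (norm2_nonneg _)]
      exact Real.rpow_le_rpow (norm2_nonneg _) h3 hp
    have h5 : (1 + (m : ℝ)) ^ p ≤ (1 + (m : ℝ)) ^ (3 : ℕ) := by
      calc (1 + (m : ℝ)) ^ p ≤ (1 + (m : ℝ)) ^ (3 : ℝ) :=
            Real.rpow_le_rpow_of_exponent_le (by linarith) hp3
        _ = _ := by norm_cast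
    have h6 : 0 ≤ wp p (u.drop m) := Real.rpow_nonneg (norm2_nonneg _) _
    have h7 := mul_le_mul_of_nonneg_right h5 h6
    have h8 : 0 ≤ (1 + (m : ℝ)) ^ 3 * wp p (u.drop m) := by positivity
    linarith

/-- the weight `1 + 1_A (ω(n))` -/
def wA (A : Set (Fin 3 → ℤ)) (w : List Dir) : ℝ := 1 + A.indicator 1 (E (pos w))

theorem ind_mem (A : Set (Fin 3 → ℤ)) (x : Fin 3 → ℤ) :
    0 ≤ (A.indicator 1 x : ℝ) ∧ (A.indicator 1 x : ℝ) ≤ 1 := by
  by_cases h : x ∈ A
  · rw [Set.indicator_of_mem h]; norm_num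
  · rw [Set.indicator_of_notMem h]; norm_num

theorem cls_wA (A : Set (Fin 3 → ℤ)) : Cls (wA A) where
  nn := fun w _ => by
    have := ind_mem A (E (pos w))
    unfold wA
    linarith
  inv := fun w _ i d hs => by
    unfold wA
    rw [pos_ins w i d hs.1]
  ge := fun w _ _ => by
    have := ind_mem A (E (pos w))
    unfold wA
    linarith
  le := fun w _ => by
    have h1 := ind_mem A (E (pos w))
    have h2 : (1 : ℝ) ≤ ((w.length : ℝ) + 1) ^ 3 :=
      one_le_pow₀ (by have : (0 : ℝ) ≤ w.length := Nat.cast_nonneg _; linarith)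
    unfold wA
    linarith
  sub := fun u m _ _ => by
    have h1 := ind_mem A (E (pos u))
    have h3 := ind_mem A (E (pos (u.drop m)))
    have h2 : (1 : ℝ) ≤ (1 + (m : ℝ)) ^ 3 :=
      one_le_pow₀ (by have : (0 : ℝ) ≤ m := Nat.cast_nonneg _; linarith)
    unfold wA
    nlinarith

theorem cls_one : Cls (fun _ => 1) where
  nn := fun w _ => by norm_num
  inv := fun w _ i d hs => rfl
  ge := fun w _ _ => le_rfl
  le := fun w _ => by
    have h2 : (1 : ℝ) ≤ ((w.length : ℝ) + 1) ^ 3 :=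
      one_le_pow₀ (by have : (0 : ℝ) ≤ w.length := Nat.cast_nonneg _; linarith)
    linarith
  sub := fun u m _ _ => by
    have h2 : (1 : ℝ) ≤ (1 + (m : ℝ)) ^ 3 :=
      one_le_pow₀ (by have : (0 : ℝ) ≤ m := Nat.cast_nonneg _; linarith)
    linarith

theorem cf_one (n : ℕ) : cf (fun _ => 1) n = c n := by
  unfold cf
  rw [sum_const, nsmul_one, card_SS]

/-- elementary estimate -/
theorem ratio_aux {A A' c c' m δ : ℝ} (hA : 0 < A) (hc : 0 < c) (hm : 0 < m)
    (h1 : |A' / A / m - 1| ≤ δ) (h2 : |c' / c / m - 1| ≤ δ) (hδ : δ ≤ 1 / 2) :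
    |A' / c' / (A / c) - 1| ≤ 4 * δ := by
  obtain ⟨a, ha⟩ : ∃ a, a = A' / A / m := ⟨_, rfl⟩
  obtain ⟨b, hb⟩ : ∃ b, b = c' / c / m := ⟨_, rfl⟩
  rw [← ha] at h1
  rw [← hb] at h2
  have hbpos : 1 / 2 ≤ b := by have := (abs_le.mp h2).1; linarith
  have e : A' / c' / (A / c) - 1 = (a - b) / b := by
    have eA : A' = a * (m * A) := by rw [ha]; field_simp
    have ec : c' = b * (m * c) := by rw [hb]; field_simp
    have hb0 : b ≠ 0 := by linarith
    rw [eA, ec]
    field_simp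
  have hδ0 : 0 ≤ δ := (abs_nonneg _).trans h1
  rw [e, abs_div, abs_of_pos (show 0 < b by linarith), div_le_iff₀ (by linarith)]
  have h3 : |a - b| ≤ 2 * δ := by
    have := abs_sub_le a 1 b
    have h2' : |1 - b| = |b - 1| := abs_sub_comm _ _
    linarith
  nlinarith

/-- the ratio of the means of a weight at the lengths `n + 2` and `n` -/
theorem mean_rate (ε : ℝ) (hε : 0 < ε) (hε3 : ε < 1 / 3) : ∃ K : ℝ, 0 ≤ K ∧
    ∀ᶠ n : ℕ in atTop, ∀ f : List Dir → ℝ, Cls f →
      |cf f (n + 2) / c (n + 2) / (cf f n / c n) - 1| ≤ K * (n : ℝ) ^ (-(1 / 3 : ℝ) + ε) := by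
  have hμ : 0 < μ := by linarith [mu_one]
  obtain ⟨K, hK0, hK⟩ := rates_w ε hε
  refine ⟨4 * K, by positivity, ?_⟩
  have t1 : Tendsto (fun n : ℕ => K * (n : ℝ) ^ (-(1 / 3 : ℝ) + ε)) atTop (𝓝 0) := by
    have e : (-(1 / 3 : ℝ) + ε) = -(1 / 3 - ε) := by ring
    rw [e]
    have := ((tendsto_rpow_neg_atTop (show (0 : ℝ) < 1 / 3 - ε by linarith)).comp
      tendsto_natCast_atTop_atTop).const_mul K
    rw [mul_zero] at this
    exact this
  filter_upwards [hK, t1.eventually_lt_const (show (0 : ℝ) < 1 / 2 by norm_num),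
    eventually_ge_atTop 1] with n h1 h2 h3 f hf
  have g1 := h1 f hf
  have g2 := h1 (fun _ => 1) cls_one
  rw [cf_one, cf_one] at g2
  have h4 : 0 < cf f n := lt_of_lt_of_le (c_pos n) (cf_ge hf h3)
  have := ratio_aux h4 (c_pos n) (pow_pos hμ 2) g1 g2 h2.le
  linarith

theorem mean_wp (n : ℕ) (p : ℝ) : mean n (fun x => norm2 x ^ p) = cf (wp p) n / c n :=
  mean_eq n _

theorem mean_wA (n : ℕ) (A : Set (Fin 3 → ℤ)) :
    1 + mean n (A.indicator 1) = cf (wA A) n / c n := by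
  rw [mean_eq]
  have hc := (c_pos n).ne'
  rw [eq_div_iff hc, add_mul, one_mul, div_mul_cancel₀ _ hc]
  unfold cf wA
  rw [sum_add_distrib, sum_const, nsmul_one, card_SS]

theorem mean_ind (n : ℕ) (A : Set (Fin 3 → ℤ)) :
    0 ≤ mean n (A.indicator 1) ∧ mean n (A.indicator 1) ≤ 1 := by
  rw [mean_eq]
  have hc := c_pos n
  constructor
  · exact div_nonneg (sum_nonneg fun w _ => (ind_mem A _).1) hc.le
  · rw [div_le_one hc, ← cf_one]
    exact sum_le_sum fun w _ => (ind_mem A _).2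

/-- the moments and the law of the end point at the lengths `n` and `n + 2` -/
theorem moments (ε : ℝ) (hε : 0 < ε) : ∃ K : ℝ, ∀ n : ℕ, 1 ≤ n →
    (∀ p : ℝ, 0 ≤ p → p ≤ 3 → 0 < mean n (fun x => norm2 x ^ p) ∧
      |mean (n + 2) (fun x => norm2 x ^ p) / mean n (fun x => norm2 x ^ p) - 1| ≤
        K * (n : ℝ) ^ (-(1 / 3 : ℝ) + ε)) ∧
    ∀ A : Set (Fin 3 → ℤ), |mean (n + 2) (A.indicator 1) - mean n (A.indicator 1)| ≤
        K * (n : ℝ) ^ (-(1 / 3 : ℝ) + ε) := by
  set δ : ℝ := min ε (1 / 6) with hδ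
  have hδ0 : 0 < δ := lt_min hε (by norm_num)
  have hδ1 : δ ≤ 1 / 6 := min_le_right _ _
  have hδε : δ ≤ ε := min_le_left _ _
  obtain ⟨K, hK0, hK⟩ := mean_rate δ hδ0 (by linarith)
  obtain ⟨N, hN⟩ := eventually_atTop.1 hK
  set S : ℝ := ∑ n ∈ range (N + 1), (((n : ℝ) + 3) ^ 3 + 1) / (n : ℝ) ^ (-(1 / 3 : ℝ) + ε) with hS
  have hS0 : 0 ≤ S := sum_nonneg fun n _ => by positivity
  refine ⟨2 * K + 2 * S, fun n hn => ?_⟩
  have hn0 : (0 : ℝ) < n := by exact_mod_cast hn
  have hnR : (1 : ℝ) ≤ n := by exact_mod_cast hn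
  have hx : 0 < (n : ℝ) ^ (-(1 / 3 : ℝ) + ε) := Real.rpow_pos_of_pos hn0 _
  have hδx : (n : ℝ) ^ (-(1 / 3 : ℝ) + δ) ≤ (n : ℝ) ^ (-(1 / 3 : ℝ) + ε) :=
    Real.rpow_le_rpow_of_exponent_le hnR (by linarith)
  have hpos : ∀ f : List Dir → ℝ, Cls f → 1 ≤ cf f n / c n := by
    intro f hf
    rw [one_le_div (c_pos n)]
    exact cf_ge hf hn
  -- finitely many lengths
  have hsmall : ∀ y : ℝ, n < N → y ≤ ((n : ℝ) + 3) ^ 3 + 1 →
      y ≤ (2 * K + 2 * S) * (n : ℝ) ^ (-(1 / 3 : ℝ) + ε) := by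
    intro y hn1 hy
    have h1 : (((n : ℝ) + 3) ^ 3 + 1) / (n : ℝ) ^ (-(1 / 3 : ℝ) + ε) ≤ S := by
      rw [hS]
      exact single_le_sum (f := fun n : ℕ =>
        (((n : ℝ) + 3) ^ 3 + 1) / (n : ℝ) ^ (-(1 / 3 : ℝ) + ε))
        (fun n _ => by positivity) (mem_range.2 (by omega))
    rw [div_le_iff₀ hx] at h1
    have h2 : 0 ≤ (2 * K + S) * (n : ℝ) ^ (-(1 / 3 : ℝ) + ε) := by positivity
    linarith
  refine ⟨fun p hp hp3 => ⟨?_, ?_⟩, fun A => ?_⟩
  · rw [mean_wp]
    linarith [hpos _ (cls_wp hp hp3)]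
  · rw [mean_wp, mean_wp]
    rcases lt_or_ge n N with h | h
    · refine hsmall _ h ?_
      have h1 : cf (wp p) (n + 2) / c (n + 2) ≤ ((n : ℝ) + 3) ^ 3 := by
        rw [div_le_iff₀ (c_pos _)]
        unfold cf
        rw [← card_SS, mul_comm, ← nsmul_eq_mul, ← sum_const]
        refine sum_le_sum fun w hw => ?_
        obtain ⟨h1, h2⟩ := mem_SS.1 hw
        have h3 := norm2_le w
        rw [h1] at h3
        push_cast at h3
        calc wp p w ≤ ((n : ℝ) + 3) ^ p :=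
              Real.rpow_le_rpow (norm2_nonneg _) (by linarith) hp
          _ ≤ ((n : ℝ) + 3) ^ (3 : ℝ) := Real.rpow_le_rpow_of_exponent_le (by linarith) hp3
          _ = _ := by norm_cast
      have h2 := hpos _ (cls_wp hp hp3)
      have h3 : 0 ≤ cf (wp p) (n + 2) / c (n + 2) :=
        div_nonneg (cf_nonneg (cls_wp hp hp3) _) (c_pos _).le
      have h4 : cf (wp p) (n + 2) / c (n + 2) / (cf (wp p) n / c n) ≤ ((n : ℝ) + 3) ^ 3 :=
        (div_le_self h3 h2).trans h1
      have h5 : 0 ≤ cf (wp p) (n + 2) / c (n + 2) / (cf (wp p) n / c n) :=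
        div_nonneg h3 (by linarith)
      have h6 : (0 : ℝ) ≤ ((n : ℝ) + 3) ^ 3 := by positivity
      rw [abs_le]
      constructor <;> linarith
    · refine (hN n h _ (cls_wp hp hp3)).trans ?_
      have h1 := mul_le_mul_of_nonneg_left hδx hK0
      have h2 : 0 ≤ (K + 2 * S) * (n : ℝ) ^ (-(1 / 3 : ℝ) + ε) := by positivity
      linarith
  · have m1 := mean_ind n A
    have m2 := mean_ind (n + 2) A
    rcases lt_or_ge n N with h | h
    · refine hsmall _ h ?_
      have h6 : (0 : ℝ) ≤ ((n : ℝ) + 3) ^ 3 := by positivity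
      rw [abs_le]
      constructor <;> linarith
    · have h1 := hN n h _ (cls_wA A)
      rw [← mean_wA, ← mean_wA] at h1
      have h2 : 0 < 1 + mean n (A.indicator 1) := by linarith
      have h3 : (1 + mean (n + 2) (A.indicator 1)) / (1 + mean n (A.indicator 1)) - 1 =
          (mean (n + 2) (A.indicator 1) - mean n (A.indicator 1)) /
            (1 + mean n (A.indicator 1)) := by
        field_simp
        ring
      rw [h3, abs_div, abs_of_pos h2, div_le_iff₀ h2] at h1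
      refine h1.trans ?_
      have h4 := mul_le_mul_of_nonneg_left hδx hK0
      have h5 : 0 ≤ K * (n : ℝ) ^ (-(1 / 3 : ℝ) + δ) := by positivity
      have h6 : 0 ≤ 2 * S * (n : ℝ) ^ (-(1 / 3 : ℝ) + ε) := by positivity
      nlinarith

end

end TH966.KO
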